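import Pool.Agent.H88.LH.Defs
import Pool.Agent.H57.BRA.Ltr

/-!
# [H88 LH CJP] MP_b39724_nt, theorem LH: the conjugate primes `cjI γ 𝔓 = γ 𝔓` of `𝓞 QBar`
-/

set_option autoImplicit false

open scoped NumberField Pointwise
open IsDedekindDomain H38.ML
open scoped Classical

noncomputable section

namespace H88.LH

open H63.MA

variable {K Ω : Type} [Field K] [NumberField K] [Field Ω] [Algebra K Ω]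

/-- the ideal `γ 𝔓` -/
def cjI (γ : Gal(Ω/K)) (𝔓 : Ideal (𝓞 Ω)) : Ideal (𝓞 Ω) :=
  𝔓.comap (MulSemiringAction.toRingHom Gal(Ω/K) (𝓞 Ω) γ⁻¹)

theorem mem_cjI (γ : Gal(Ω/K)) (𝔓 : Ideal (𝓞 Ω)) (x : 𝓞 Ω) : x ∈ cjI γ 𝔓 ↔ γ⁻¹ • x ∈ 𝔓 := Iff.rfl

theorem cjI_prime (γ : Gal(Ω/K)) {𝔓 : Ideal (𝓞 Ω)} (h : 𝔓.IsPrime) : (cjI γ 𝔓).IsPrime :=
  Ideal.IsPrime.comap _

theorem smul_alg (γ : Gal(Ω/K)) (x : 𝓞 K) :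
    γ • (algebraMap (𝓞 K) (𝓞 Ω) x) = algebraMap (𝓞 K) (𝓞 Ω) x := by
  apply NumberField.RingOfIntegers.ext
  exact γ.commutes (x : K)

theorem cjI_under (γ : Gal(Ω/K)) (𝔓 : Ideal (𝓞 Ω)) : (cjI γ 𝔓).under (𝓞 K) = 𝔓.under (𝓞 K) := by
  ext x
  rw [Ideal.mem_comap, Ideal.mem_comap, mem_cjI, smul_alg]

theorem cjI_inertia (γ τ : Gal(Ω/K)) (𝔓 : Ideal (𝓞 Ω)) :
    τ ∈ (cjI γ 𝔓).inertia Gal(Ω/K) ↔ γ⁻¹ * τ * γ ∈ 𝔓.inertia Gal(Ω/K) := by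
  have key : ∀ x : 𝓞 Ω, γ⁻¹ • (τ • x - x) = (γ⁻¹ * τ * γ) • (γ⁻¹ • x) - γ⁻¹ • x := by
    intro x
    rw [smul_sub, mul_smul, mul_smul, smul_inv_smul]
  constructor
  · intro h x
    have h1 := (mem_cjI _ _ _).1 (h (γ • x))
    rw [key, inv_smul_smul] at h1
    exact h1
  · intro h x
    refine (mem_cjI _ _ _).2 ?_
    rw [key]
    exact h _

theorem cjI_dec (γ τ : Gal(Ω/K)) (𝔓 : Ideal (𝓞 Ω)) :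
    τ ∈ dec (K := K) (cjI γ 𝔓) ↔ γ⁻¹ * τ * γ ∈ dec (K := K) 𝔓 := by
  constructor
  · intro h x
    have h1 := h (γ • x)
    rw [mem_cjI, mem_cjI, inv_smul_smul] at h1
    rw [← h1, mul_smul, mul_smul]
  · intro h x
    have h1 := h (γ⁻¹ • x)
    rw [mem_cjI, mem_cjI, ← h1, mul_smul, mul_smul, smul_inv_smul]

/-- transitivity -/
theorem cjI_ex [IsAlgClosure K Ω] {v : Pl K} {𝔓 𝔓' : Ideal (𝓞 Ω)} (h𝔓 : 𝔓.IsPrime)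
    (h𝔓' : 𝔓'.IsPrime) (h : 𝔓.under (𝓞 K) = v.asIdeal) (h' : 𝔓'.under (𝓞 K) = v.asIdeal) :
    ∃ γ : Gal(Ω/K), 𝔓' = cjI γ 𝔓 := by
  obtain ⟨g, hg⟩ := H57.BRA.ltr_conj (K := K) h𝔓 h𝔓' h h'
  refine ⟨g, ?_⟩
  ext x
  rw [mem_cjI]
  exact hg x

end H88.LH
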