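import Pool.Agent.H77.PC3.CDef
import Pool.Agent.H63.MC.CDef
import Mathlib.GroupTheory.NoncommPiCoprod

/-!
# [H88 LH DEFS] MP_b39724_nt, theorem LH (think 1911, with inner SN steps): definitions

* `LY p N G`: the group data: `D` a subgroup, `M` its normaliser, the conjugates of `D` commute and are independent, `cl` representatives (in `D`) of classes of elements of order `p`, closed under
  powers prime to `p`, which generate `D`. (`D` need not be a `p`-group.)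
* `XX`: the cosets `G ⧸ M`; `rp x` representatives, `rp 1 = 1`. `T'`: the subgroup generated by the other conjugates. `cM`: the classes in `M`. `EE = XX → D`.
* `Tf Q S0 c bl SK Y θ` (over `F`): outside `S0` the homomorphism `θ : Γ → M` is ramified at the primes of a finite set `T` of primes of prime norm, `nr T ≤ Y`, inertia generated by elements of the
  classes of `c`; every class occurs at an isolated prime of `T` (with respect to `bl : Pl F → β`, `bl w ∉ SK`).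
* `FamF`: at least `C Y (log Y)^(N-1)` surjective `θ` equal to `φ₀` modulo `D`, trivial on `dec w` for `w ∈ S'`, with `Tf`.
* `Pk C k x`: `x` is a product of at most `k` commuting elements of `C`.
* `Tm`: inertia outside `S₀` generated by a product of `k v` commuting elements of `C`, `∏ nm v ^ k v ≤ Y`. `Bh`: at least `c Y (log Y)^(N-1)` surjective homomorphisms of finite type with `Tm`,
  trivial on `dec v` for `v ∈ S'`. `BASE`: the interface with outer SN.
* `FE K F Γ'`: `F` is the field of the subgroup `Γ'` of `Gal(QBar/K)`. `ov v w`: the place `w` of `F` is over the place `v` of `K`.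
-/

set_option autoImplicit false

open scoped NumberField Pointwise
open IsDedekindDomain H38.ML
open scoped Classical

noncomputable section

namespace H88.LH

open H63.MA H38.BB H38.BG H77.PC3

section grp

/-- the group data -/
structure LY (p N : ℕ) (G : Type) [Group G] where
  cl : CL p N G
  D : Subgroup G
  com : ∀ g : G, g ∉ (Subgroup.normalizer (D : Set G) : Subgroup G) → ∀ x ∈ D, ∀ y ∈ D,
    x * (g * y * g⁻¹) = g * y * g⁻¹ * x
  ind : ∀ x ∈ D, x ∈ Subgroup.closure {z : G | ∃ g : G,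
    g ∉ (Subgroup.normalizer (D : Set G) : Subgroup G) ∧ ∃ y ∈ D, z = g * y * g⁻¹} → x = 1
  mem : ∀ i, cl.g i ∈ D
  gen : D = Subgroup.closure {x : G | x ∈ D ∧ ∃ i, IsConj x (cl.g i)}
  pw : ∀ (i : Fin N) (j : ℕ), ¬ p ∣ j → ∃ i', IsConj (cl.g i ^ j) (cl.g i')

variable {p N : ℕ} {G : Type} [Group G] (Y : LY p N G)

/-- the normaliser of `D` -/
abbrev LY.M : Subgroup G := Subgroup.normalizer (Y.D : Set G)

/-- the cosets -/
abbrev LY.XX : Type := G ⧸ Y.M

/-- the representatives of the cosets -/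
def LY.rp (x : Y.XX) : G := if x = QuotientGroup.mk 1 then 1 else Quotient.out x

theorem LY.rp_mk (x : Y.XX) : (QuotientGroup.mk (Y.rp x) : Y.XX) = x := by
  unfold LY.rp
  split_ifs with h
  · exact h.symm
  · exact QuotientGroup.out_eq' x

theorem LY.rp_one : Y.rp (QuotientGroup.mk 1) = 1 := by
  unfold LY.rp
  rw [if_pos rfl]

/-- the elements of the classes -/
def LY.C : Set G := {x | ∃ i, IsConj x (Y.cl.g i)}

/-- the subgroup generated by the conjugates of `D` outside `D` -/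
def LY.T' : Subgroup G := Subgroup.closure {z : G | ∃ g : G, g ∉ Y.M ∧ ∃ y ∈ Y.D, z = g * y * g⁻¹}

/-- functions from the cosets to `D` -/
abbrev LY.EE : Type := Y.XX → Y.D

theorem LY.D_le : Y.D ≤ Y.M := Subgroup.le_normalizer

/-- the classes in `M` -/
def LY.cM : CL p N Y.M where
  g i := ⟨Y.cl.g i, Y.D_le (Y.mem i)⟩
  pow i := Subtype.ext (Y.cl.pow i)
  ne i h := Y.cl.ne i (congrArg Subtype.val h)
  uni i j h := Y.cl.uni i j (by
    obtain ⟨c, hc⟩ := isConj_iff.1 h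
    exact isConj_iff.2 ⟨c, congrArg Subtype.val hc⟩)

/-- a product of at most `k` commuting elements of `C` -/
def Pk {G : Type} [Group G] (C : Set G) (k : ℕ) (x : G) : Prop :=
  ∃ l : List G, l.length ≤ k ∧ (∀ y ∈ l, y ∈ C) ∧ (∀ y ∈ l, ∀ z ∈ l, y * z = z * y) ∧ l.prod = x

end grp

section num

variable {K : Type} [Field K] [NumberField K] {Ω : Type} [Field Ω] [Algebra K Ω]

/-- the homomorphism `θ` outside `S0`, with an isolated prime for every class -/
def Tf {p N : ℕ} {M : Type} [Group M] (Q : DP K Ω) (S0 : Finset (Pl K)) (c : CL p N M)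
    {β : Type} (bl : Pl K → β) (SK : Set β) (Y : ℝ) (θ : Gal(Ω/K) →* M) : Prop :=
  ∃ T : Finset (Pl K), (∀ w ∈ T, w ∉ S0 ∧ (nm w).Prime) ∧ nr T ≤ Y ∧
    (∀ w ∈ T, ∃ (i : Fin N) (x : M), IsConj x (c.g i) ∧
      ((Q.P w).inertia Gal(Ω/K)).map θ = Subgroup.zpowers x) ∧
    (∀ w, w ∉ S0 → w ∉ T → ∀ τ ∈ (Q.P w).inertia Gal(Ω/K), θ τ = 1) ∧
    ∀ i : Fin N, ∃ w ∈ T, bl w ∉ SK ∧ (∀ w' ∈ T, bl w' = bl w → w' = w) ∧
      ∃ x : M, IsConj x (c.g i) ∧ ((Q.P w).inertia Gal(Ω/K)).map θ = Subgroup.zpowers x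

/-- many homomorphisms in the fibre of `φ₀` -/
def FamF {p N : ℕ} {M : Type} [Group M] (Q : DP K Ω) (S0 S' : Finset (Pl K)) (D : Subgroup M)
    (c : CL p N M) {β : Type} (bl : Pl K → β) (SK : Set β) (φ₀ : Gal(Ω/K) →* M) (C Y : ℝ) : Prop :=
  ∃ Rs : Finset (Gal(Ω/K) →* M), C * Y * Real.log Y ^ (N - 1) ≤ (Rs.card : ℝ) ∧
    ∀ θ ∈ Rs, FT θ ∧ Function.Surjective θ ∧ (∀ σ, θ σ * (φ₀ σ)⁻¹ ∈ D) ∧
      (∀ w ∈ S', ∀ σ ∈ dec (K := K) (Q.P w), θ σ = 1) ∧ Tf Q S0 c bl SK Y θ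

/-- the homomorphism `φ` outside `S₀`: inertia generated by products of commuting elements of `C`, with multiplicities -/
def Tm {G : Type} [Group G] (C : Set G) (Q : DP K Ω) (S₀ : Finset (Pl K)) (Y : ℝ)
    (φ : Gal(Ω/K) →* G) : Prop :=
  ∃ (T : Finset (Pl K)) (k : Pl K → ℕ), (∀ v ∈ T, v ∉ S₀) ∧ ∏ v ∈ T, (nm v : ℝ) ^ k v ≤ Y ∧
    (∀ v ∈ T, ∃ x : G, Pk C (k v) x ∧
      ∀ τ ∈ (Q.P v).inertia Gal(Ω/K), φ τ ∈ Subgroup.zpowers x) ∧
    ∀ v, v ∉ S₀ → v ∉ T → ∀ τ ∈ (Q.P v).inertia Gal(Ω/K), φ τ = 1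

/-- many surjective homomorphisms -/
def Bh {G : Type} [Group G] (C : Set G) (N : ℕ) (Q : DP K Ω) (S₀ S' : Finset (Pl K)) (c Y : ℝ) :
    Prop :=
  ∃ Rs : Finset (Gal(Ω/K) →* G), c * Y * Real.log Y ^ (N - 1) ≤ (Rs.card : ℝ) ∧
    ∀ φ ∈ Rs, FT φ ∧ Function.Surjective φ ∧ (∀ v ∈ S', ∀ σ ∈ dec (K := K) (Q.P v), φ σ = 1) ∧
      Tm C Q S₀ Y φ

end num

/-- the interface with outer SN: the lower bound for the number of homomorphisms to `G` -/
def BASE {G : Type} [Group G] (C : Set G) (N : ℕ) : Prop :=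
  ∃ K₀ : IntermediateField ℚ QBar, NumberField K₀ ∧
    ∀ K : IntermediateField ℚ QBar, ∀ _ : NumberField K, K₀ ≤ K →
      ∀ (s : ℕ) (S₁ : Finset (Pl K)), ∃ (Q : DP K QBar) (S₀ S' : Finset (Pl K)) (c Y₀ : ℝ),
        0 < c ∧ S₁ ⊆ S₀ ∧ S' ⊆ S₀ ∧ Disjoint S' S₁ ∧ S'.card = s ∧
          ∀ Y : ℝ, Y₀ ≤ Y → Bh C N Q S₀ S' c Y

section fld

/-- `F` is the field of the subgroup `Γ'` -/
structure FE (K F : IntermediateField ℚ QBar) (Γ' : Subgroup Gal(QBar/K)) where
  j : Gal(QBar/F) →* Gal(QBar/K)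
  inj : Function.Injective j
  act : ∀ (σ : Gal(QBar/F)) (x : QBar), j σ x = σ x
  rng : j.range = Γ'
  le : K ≤ F

/-- `w` is over `v` -/
def ov {K F : IntermediateField ℚ QBar} [NumberField K] [NumberField F] (v : Pl K) (w : Pl F) :
    Prop :=
  ∃ 𝔓 : Ideal (𝓞 QBar), 𝔓.IsPrime ∧ 𝔓.under (𝓞 K) = v.asIdeal ∧ 𝔓.under (𝓞 F) = w.asIdeal

end fld

end H88.LH
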