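import Pool.Agent.H88.LH.Defs

/-!
# [H88 LH FTH] MP_b39724_nt, theorem LH: the statement `FTH` over `F` (interface with the hypercentral case and with inner SN)

`M` a finite group, `D` a normal subgroup, `c` classes of elements of order `p` (in `D`). `DM D = D ⋊ M`.
`FTH D c`: there is `m ≥ 1` such that for all number fields `F` with a primitive `m`-th root of unity, all surjective `Θ : Γ_F → D ⋊ M` of finite type, all primes `Q`, finite sets `S₁`, `S'` with `Θ` trivial on
`dec w`, `w ∈ S'` not over `m`, there is a finite set `S0 ⊇ S₁ ∪ S'` such that for all `bl : Pl F → β` with fibres of at most `b` primes of prime norm, all of the same norm, and all `SK` with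
`{w | bl w ∈ SK}` finite: `FamF` for large `Y`, where `φ₀` is the second component of `Θ`.
-/

set_option autoImplicit false

open scoped NumberField Pointwise
open IsDedekindDomain H38.ML
open scoped Classical

noncomputable section

namespace H88.LH

open H63.MA H38.BB H38.BG H77.PC3

/-- `D ⋊ M` -/
abbrev DM {M : Type} [Group M] (D : Subgroup M) [D.Normal] : Type :=
  SemidirectProduct D M (MulAut.conjNormal : M →* MulAut D)

/-- the statement over `F` -/
def FTH {p N : ℕ} {M : Type} [Group M] (D : Subgroup M) [D.Normal] (c : CL p N M) : Prop :=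
  ∃ m : ℕ, 0 < m ∧ ∀ (F : IntermediateField ℚ QBar) [NumberField F]
    (_ : ∃ z : F, IsPrimitiveRoot z m) (Θ : Gal(QBar/F) →* DM D) (_ : Function.Surjective Θ)
    (_ : FT Θ) (Q : DP F QBar) (S₁ S' : Finset (Pl F))
    (_ : ∀ w ∈ S', ∀ σ ∈ dec (K := F) (Q.P w), Θ σ = 1) (_ : ∀ w ∈ S', ¬ Above m w),
    ∃ S0 : Finset (Pl F), S₁ ⊆ S0 ∧ S' ⊆ S0 ∧
      ∀ (b : ℕ) (β : Type) (bl : Pl F → β) (SK : Set β)
        (_ : ∀ w, {w' : Pl F | bl w' = bl w ∧ (nm w').Prime}.Finite ∧
          {w' : Pl F | bl w' = bl w ∧ (nm w').Prime}.ncard ≤ b)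
        (_ : ∀ w w' : Pl F, bl w' = bl w → (nm w).Prime → (nm w').Prime → nm w' = nm w)
        (_ : {w : Pl F | bl w ∈ SK}.Finite),
        ∃ C Y₀ : ℝ, 0 < C ∧ ∀ Y : ℝ, Y₀ ≤ Y →
          FamF Q S0 S' D c bl SK ((SemidirectProduct.rightHom : DM D →* M).comp Θ) C Y

instance LY.instN {p N : ℕ} {G : Type} [Group G] (Y : LY p N G) :
    (Y.D.subgroupOf Y.M).Normal := Subgroup.normal_in_normalizer

end H88.LH
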