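import Pool.Agent.H88.LH.Cjp
import Pool.Agent.H38.ML.Split
import Pool.Agent.H38.ML.Factor
import Pool.Agent.H57.BRA.Ltr

/-!
# [H88 LH SPX] MP_b39724_nt, theorem LH: places which split completely in the field of a homomorphism

`spx`: `φ` of finite type: for every finite set `S₁` and every `s` there are `s` places `v ∉ S₁` such that `φ` is trivial on the decomposition groups of all primes over `v`.
Proof. `H38.ML.factor` gives a finite Galois `M/K` with `φ = e ∘ res M`; `H38.ML.exists_split K M S` with `S` the ideals of `S₁` and of the places found so far gives one place (induction on `s`): all stabilizers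
in `Gal(M/K)` of the primes of `𝓞 M` over `v` are trivial. For `σ ∈ dec 𝔓` the restriction of `σ` to `M` stabilizes `𝔓.under (𝓞 M)`, so it is `1`.
-/

set_option autoImplicit false

open scoped NumberField Pointwise
open IsDedekindDomain H38.ML
open scoped Classical

noncomputable section

namespace H88.LH

open H63.MA

private theorem res_smul {K Ω : Type} [Field K] [NumberField K] [Field Ω] [Algebra K Ω]
    (M : IntermediateField K Ω) [Normal K M] (σ : Gal(Ω/K)) (x : 𝓞 M) :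
    algebraMap (𝓞 M) (𝓞 Ω) (res M σ • x) = σ • algebraMap (𝓞 M) (𝓞 Ω) x := by
  apply NumberField.RingOfIntegers.ext
  exact AlgEquiv.restrictNormal_commutes σ M (x : M)

private theorem spx_one {K Ω : Type} [Field K] [NumberField K] [Field Ω] [Algebra K Ω]
    [IsAlgClosure K Ω] {H : Type} [Group H] (φ : Gal(Ω/K) →* H) (hφ : FT φ) (S₁ : Finset (Pl K)) :
    ∃ v : Pl K, v ∉ S₁ ∧ ∀ 𝔓 : Ideal (𝓞 Ω), 𝔓.IsPrime →
      𝔓.under (𝓞 K) = v.asIdeal → ∀ σ ∈ dec (K := K) 𝔓, φ σ = 1 := by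
  obtain ⟨M, hM1, hM2, e, -, hfac⟩ := factor φ hφ
  haveI hnf : NumberField M := NumberField.of_module_finite K M
  obtain ⟨v, hv, hv0, hvS, hst⟩ := exists_split K M
    ((fun w : Pl K => w.asIdeal) '' (S₁ : Set (Pl K))) (S₁.finite_toSet.image _)
  refine ⟨⟨v, hv, hv0⟩, fun h => hvS ⟨_, h, rfl⟩, ?_⟩
  intro 𝔓 h𝔓 hun σ hσ
  have hQ : (𝔓.under (𝓞 M)).IsPrime := inferInstance
  have hQ' : (𝔓.under (𝓞 M)).under (𝓞 K) = v := by
    rw [Ideal.under_under]
    exact hun
  have hs := hst _ hQ hQ'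
  have h1 : (res M σ) ∈ MulAction.stabilizer Gal(M/K) (𝔓.under (𝓞 M)) := by
    rw [MulAction.mem_stabilizer_iff]
    ext x
    rw [Ideal.mem_pointwise_smul_iff_inv_smul_mem, ← map_inv]
    change algebraMap (𝓞 M) (𝓞 Ω) (res M σ⁻¹ • x) ∈ 𝔓 ↔ algebraMap (𝓞 M) (𝓞 Ω) x ∈ 𝔓
    rw [res_smul]
    exact (dec (K := K) 𝔓).inv_mem hσ _
  rw [hs, Subgroup.mem_bot] at h1
  rw [← hfac, h1, map_one]

theorem spx {K Ω : Type} [Field K] [NumberField K] [Field Ω] [Algebra K Ω] [IsAlgClosure K Ω]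
    {H : Type} [Group H] (φ : Gal(Ω/K) →* H) (hφ : FT φ) (S₁ : Finset (Pl K)) (s : ℕ) :
    ∃ S' : Finset (Pl K), S'.card = s ∧ Disjoint S' S₁ ∧ ∀ v ∈ S', ∀ 𝔓 : Ideal (𝓞 Ω), 𝔓.IsPrime →
      𝔓.under (𝓞 K) = v.asIdeal → ∀ σ ∈ dec (K := K) 𝔓, φ σ = 1 := by
  induction s with
  | zero => exact ⟨∅, rfl, Finset.disjoint_empty_left _, fun v hv => absurd hv (Finset.notMem_empty v)⟩
  | succ s ih =>
    obtain ⟨S', hc, hd, hS⟩ := ih
    obtain ⟨v, hv, hv2⟩ := spx_one φ hφ (S₁ ∪ S')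
    rw [Finset.mem_union, not_or] at hv
    refine ⟨insert v S', ?_, ?_, ?_⟩
    · rw [Finset.card_insert_of_notMem hv.2, hc]
    · rw [Finset.disjoint_insert_left]
      exact ⟨hv.1, hd⟩
    · intro w hw
      rcases Finset.mem_insert.1 hw with rfl | hw
      · exact hv2
      · exact hS w hw

end H88.LH
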