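import Pool.Agent.H63.MA.PZb
import Pool.Agent.H63.MA.AFin

/-!
# [H88 LH TAIL] MP_b39724_nt, theorem LH (think 1911 (2)): the sum over the sets without isolated places

`bl : Pl F → β` with fibres of at most `b` places of prime norm, all of the same norm. `E` finite sets of places of prime norm such that every `w ∈ E` has a partner `w' ∈ E`, `w' ≠ w`, `bl w' = bl w`.
`tail`: `∑_E nr E ^ (-s) ≤ C` for `s > 1/2`.
Proof. For `x` in the image `V` of `E` let `n_x` be the norm of the places of `E` over `x`: at least two, so `nr E ≥ ∏_{x ∈ V} n_x ^ 2`, `nr E ^ (-s) ≤ ∏_{x ∈ V} n_x ^ (-2 s)`; there are at most `2 ^ b` possible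
fibres `E_x` over every `x`. So the sum is at most `∑_V ∏_{x ∈ V} 2 ^ b n_x ^ (-2 s) ≤ ∏_x (1 + 2 ^ b n_x ^ (-2 s)) ≤ exp (2 ^ b ∑_x n_x ^ (-2 s))` (over the finite set of all `x` which occur), and
`∑_x n_x ^ (-2 s) ≤ ∑_w nm w ^ (-2 s) < ∞` (`pz_summable`, choose one `w` over every `x`). It may be easier to choose for every `E` the injection `E ↦ (V, (E_x)_x)`, or to use `Finset.prod_add`/`Finset.prod_powerset`.
-/

set_option autoImplicit false

open scoped NumberField
open IsDedekindDomain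
open scoped Classical

noncomputable section

namespace H88.LH

open H63.MA

private theorem tail_block {F : Type} [Field F] [NumberField F] (v : Pl F) (s : ℝ) (hs : 0 ≤ s)
    (S : Finset (Pl F)) (hS : S ≠ ∅ → ∃ w ∈ S, ∃ w' ∈ S, w' ≠ w ∧ nm w = nm v ∧ nm w' = nm v) :
    nr S ^ (-s) ≤ if S = ∅ then 1 else (nm v : ℝ) ^ (-(2 * s)) := by
  by_cases h : S = ∅
  · rw [if_pos h, h]
    unfold nr
    rw [Finset.prod_empty, Real.one_rpow]
  · rw [if_neg h]
    obtain ⟨w, hw, w', hw', hne, e1, e2⟩ := hS h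
    have hv : (1 : ℝ) < (nm v : ℝ) := by exact_mod_cast one_lt_nm v
    have h1 : nr ({w, w'} : Finset (Pl F)) ≤ nr S := by
      refine nr_mono ?_
      intro z hz
      rw [Finset.mem_insert, Finset.mem_singleton] at hz
      rcases hz with rfl | rfl
      · exact hw
      · exact hw'
    have h2 : nr ({w, w'} : Finset (Pl F)) = (nm v : ℝ) ^ (2 : ℕ) := by
      unfold nr
      rw [Finset.prod_pair hne.symm, e1, e2, pow_two]
    rw [h2] at h1
    have h3 : ((nm v : ℝ) ^ (2 : ℕ)) ^ (-s) = (nm v : ℝ) ^ (-(2 * s)) := by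
      rw [← Real.rpow_natCast, ← Real.rpow_mul (by linarith)]
      congr 1
      push_cast
      ring
    rw [← h3]
    exact Real.rpow_le_rpow_of_nonpos (by positivity) h1 (by linarith)

private theorem tail_pow {F : Type} [Field F] [NumberField F] (P : Finset (Pl F)) (b : ℕ)
    (hP : P.card ≤ b) (t : ℝ) (ht : 0 ≤ t) :
    ∑ S ∈ P.powerset, (if S = ∅ then (1 : ℝ) else t) ≤ 1 + 2 ^ b * t := by
  have h1 : ∀ S ∈ P.powerset, (if S = ∅ then (1 : ℝ) else t) ≤ (if S = ∅ then (1 : ℝ) else 0) + t := by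
    intro S _
    split_ifs
    · linarith
    · linarith
  refine (Finset.sum_le_sum h1).trans ?_
  rw [Finset.sum_add_distrib, Finset.sum_ite_eq' P.powerset ∅ (fun _ => (1 : ℝ)),
    if_pos (Finset.empty_mem_powerset P), Finset.sum_const, Finset.card_powerset, nsmul_eq_mul]
  have h2 : ((2 ^ P.card : ℕ) : ℝ) ≤ 2 ^ b := by
    push_cast
    exact pow_le_pow_right₀ (by norm_num) hP
  have h3 := mul_le_mul_of_nonneg_right h2 ht
  linarith

private theorem tail_ind {F : Type} [Field F] [NumberField F] (b : ℕ) {β : Type} (bl : Pl F → β)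
    (h1 : ∀ w, {w' : Pl F | bl w' = bl w ∧ (nm w').Prime}.Finite ∧
      {w' : Pl F | bl w' = bl w ∧ (nm w').Prime}.ncard ≤ b)
    (h2 : ∀ w w' : Pl F, bl w' = bl w → (nm w).Prime → (nm w').Prime → nm w' = nm w)
    (s : ℝ) (hs : 0 ≤ s) (W : Finset (Pl F)) :
    (∀ v ∈ W, (nm v).Prime) → ∀ A : Finset (Finset (Pl F)), (∀ E ∈ A, ∀ w ∈ E, (nm w).Prime ∧
      (∃ w' ∈ E, w' ≠ w ∧ bl w' = bl w) ∧ ∃ v ∈ W, bl w = bl v) →
      ∑ E ∈ A, nr E ^ (-s) ≤ ∏ v ∈ W, (1 + 2 ^ b * (nm v : ℝ) ^ (-(2 * s))) := by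
  induction W using Finset.induction_on with
  | empty =>
    intro _ A hA
    rw [Finset.prod_empty]
    have h3 : A ⊆ {∅} := by
      intro E hE
      rw [Finset.mem_singleton, Finset.eq_empty_iff_forall_notMem]
      intro w hw
      obtain ⟨-, -, v, hv, -⟩ := hA E hE w hw
      exact absurd hv (Finset.notMem_empty v)
    refine (Finset.sum_le_sum_of_subset_of_nonneg h3 fun E _ _ =>
      Real.rpow_nonneg (by linarith [one_le_nr E]) _).trans ?_
    rw [Finset.sum_singleton]
    unfold nr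
    rw [Finset.prod_empty, Real.one_rpow]
  | insert v W hv ih =>
    intro hW A hA
    have hvp : (nm v).Prime := hW v (Finset.mem_insert_self _ _)
    obtain ⟨hfin, hcard⟩ := h1 v
    obtain ⟨P, hP⟩ : ∃ P : Finset (Pl F), P = hfin.toFinset := ⟨_, rfl⟩
    have hPc : P.card ≤ b := by
      rw [hP, ← Set.ncard_eq_toFinset_card _ hfin]
      exact hcard
    have hPm : ∀ w, w ∈ P ↔ bl w = bl v ∧ (nm w).Prime := by
      intro w
      rw [hP, Set.Finite.mem_toFinset]
      rfl
    obtain ⟨t, ht⟩ : ∃ t : ℝ, t = (nm v : ℝ) ^ (-(2 * s)) := ⟨_, rfl⟩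
    have ht0 : 0 ≤ t := by
      rw [ht]
      exact Real.rpow_nonneg (Nat.cast_nonneg _) _
    obtain ⟨A', hA'⟩ : ∃ A' : Finset (Finset (Pl F)), A' = A.image (fun E => E.filter fun w => bl w ≠ bl v) :=
      ⟨_, rfl⟩
    have hI := ih (fun w hw => hW w (Finset.mem_insert_of_mem hw)) A' (by
      intro E' hE' w hw
      rw [hA', Finset.mem_image] at hE'
      obtain ⟨E, hE, rfl⟩ := hE'
      rw [Finset.mem_filter] at hw
      obtain ⟨h3, ⟨w', h4, h5, h6⟩, u, h7, h8⟩ := hA E hE w hw.1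
      refine ⟨h3, ⟨w', ?_, h5, h6⟩, u, ?_, h8⟩
      · rw [Finset.mem_filter]
        refine ⟨h4, ?_⟩
        rw [h6]
        exact hw.2
      · rcases Finset.mem_insert.1 h7 with h9 | h9
        · rw [h9] at h8
          exact absurd h8 hw.2
        · exact h9)
    have hterm : ∀ E ∈ A, nr E ^ (-s) ≤ nr (E.filter fun w => bl w ≠ bl v) ^ (-s) *
        (if (E.filter fun w => bl w = bl v) = ∅ then 1 else t) := by
      intro E hE
      have e1 : nr E = nr (E.filter fun w => bl w ≠ bl v) * nr (E.filter fun w => bl w = bl v) := by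
        unfold nr
        rw [mul_comm]
        exact (Finset.prod_filter_mul_prod_filter_not E (fun w => bl w = bl v) _).symm
      rw [e1, Real.mul_rpow (by linarith [one_le_nr (E.filter fun w => bl w ≠ bl v)])
        (by linarith [one_le_nr (E.filter fun w => bl w = bl v)])]
      refine mul_le_mul_of_nonneg_left ?_ (Real.rpow_nonneg (by
        linarith [one_le_nr (E.filter fun w => bl w ≠ bl v)]) _)
      rw [ht]
      refine tail_block v s hs _ fun hne => ?_
      obtain ⟨w, hw⟩ := Finset.nonempty_iff_ne_empty.2 hne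
      rw [Finset.mem_filter] at hw
      obtain ⟨h3, ⟨w', h4, h5, h6⟩, -⟩ := hA E hE w hw.1
      obtain ⟨h7, -, -⟩ := hA E hE w' h4
      refine ⟨w, Finset.mem_filter.2 hw, w', Finset.mem_filter.2 ⟨h4, h6.trans hw.2⟩, h5,
        h2 v w hw.2 hvp h3, h2 v w' (h6.trans hw.2) hvp h7⟩
    have hinj : Set.InjOn (fun E : Finset (Pl F) => (E.filter (fun w => bl w ≠ bl v),
        E.filter (fun w => bl w = bl v))) (A : Set (Finset (Pl F))) := by
      intro E _ E' _ h
      have h3 : E.filter (fun w => bl w ≠ bl v) = E'.filter (fun w => bl w ≠ bl v) := congrArg Prod.fst h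
      have h4 : E.filter (fun w => bl w = bl v) = E'.filter (fun w => bl w = bl v) := congrArg Prod.snd h
      ext w
      by_cases hw : bl w = bl v
      · have h5 := congrArg (fun T => w ∈ T) h4
        simp only [Finset.mem_filter, hw, and_true, eq_iff_iff] at h5
        exact h5
      · have h5 := congrArg (fun T => w ∈ T) h3
        simp only [Finset.mem_filter, ne_eq, hw, not_false_eq_true, and_true, eq_iff_iff] at h5
        exact h5
    have hmain : ∑ E ∈ A, nr (E.filter fun w => bl w ≠ bl v) ^ (-s) *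
        (if (E.filter fun w => bl w = bl v) = ∅ then 1 else t) ≤
        (∑ E ∈ A', nr E ^ (-s)) * ∑ S ∈ P.powerset, (if S = ∅ then (1 : ℝ) else t) := by
      have h3 : ∑ E ∈ A, nr (E.filter fun w => bl w ≠ bl v) ^ (-s) *
          (if (E.filter fun w => bl w = bl v) = ∅ then 1 else t) =
          ∑ q ∈ A.image (fun E : Finset (Pl F) => (E.filter (fun w => bl w ≠ bl v),
            E.filter (fun w => bl w = bl v))), nr q.1 ^ (-s) * (if q.2 = ∅ then (1 : ℝ) else t) :=
        (Finset.sum_image (f := fun q : Finset (Pl F) × Finset (Pl F) =>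
          nr q.1 ^ (-s) * (if q.2 = ∅ then (1 : ℝ) else t)) hinj).symm
      rw [h3, Finset.sum_mul_sum, ← Finset.sum_product']
      refine Finset.sum_le_sum_of_subset_of_nonneg ?_ ?_
      · intro q hq
        rw [Finset.mem_image] at hq
        obtain ⟨E, hE, rfl⟩ := hq
        rw [Finset.mem_product]
        refine ⟨?_, ?_⟩
        · rw [hA', Finset.mem_image]
          exact ⟨E, hE, rfl⟩
        · rw [Finset.mem_powerset]
          intro w hw
          have hw' := Finset.mem_filter.1 hw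
          rw [hPm]
          exact ⟨hw'.2, (hA E hE w hw'.1).1⟩
      · intro q _ _
        refine mul_nonneg (Real.rpow_nonneg (by linarith [one_le_nr q.1]) _) ?_
        split_ifs
        · exact zero_le_one
        · exact ht0
    rw [Finset.prod_insert hv, mul_comm, ← ht]
    refine (Finset.sum_le_sum hterm).trans (hmain.trans ?_)
    refine mul_le_mul hI (tail_pow P b hPc t ht0) ?_ ?_
    · refine Finset.sum_nonneg fun S _ => ?_
      split_ifs
      · exact zero_le_one
      · exact ht0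
    · refine Finset.prod_nonneg fun w _ => ?_
      have h3 : 0 ≤ (nm w : ℝ) ^ (-(2 * s)) := Real.rpow_nonneg (Nat.cast_nonneg _) _
      positivity

theorem tail {F : Type} [Field F] [NumberField F] (b : ℕ) {β : Type} (bl : Pl F → β)
    (h1 : ∀ w, {w' : Pl F | bl w' = bl w ∧ (nm w').Prime}.Finite ∧
      {w' : Pl F | bl w' = bl w ∧ (nm w').Prime}.ncard ≤ b)
    (h2 : ∀ w w' : Pl F, bl w' = bl w → (nm w).Prime → (nm w').Prime → nm w' = nm w)
    (s : ℝ) (hs : 1 / 2 < s) :
    ∃ C : ℝ, ∀ A : Finset (Finset (Pl F)), (∀ E ∈ A, ∀ w ∈ E, (nm w).Prime ∧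
      ∃ w' ∈ E, w' ≠ w ∧ bl w' = bl w) → ∑ E ∈ A, nr E ^ (-s) ≤ C := by
  have hsum := pz_summable F (s := 2 * s) (by linarith)
  refine ⟨Real.exp (2 ^ b * ∑' v : Pl F, (nm v : ℝ) ^ (-(2 * s))), fun A hA => ?_⟩
  obtain ⟨W, hW⟩ : ∃ W : Finset (Pl F), W = A.biUnion id := ⟨_, rfl⟩
  have hWm : ∀ w, w ∈ W ↔ ∃ E ∈ A, w ∈ E := by
    intro w
    rw [hW, Finset.mem_biUnion]
    rfl
  have h3 := tail_ind b bl h1 h2 s (by linarith) W (by
    intro v hv
    obtain ⟨E, hE, hvE⟩ := (hWm v).1 hv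
    exact (hA E hE v hvE).1) A (by
    intro E hE w hw
    exact ⟨(hA E hE w hw).1, (hA E hE w hw).2, w, (hWm w).2 ⟨E, hE, hw⟩, rfl⟩)
  refine h3.trans ?_
  have h4 : ∏ v ∈ W, (1 + 2 ^ b * (nm v : ℝ) ^ (-(2 * s))) ≤
      ∏ v ∈ W, Real.exp (2 ^ b * (nm v : ℝ) ^ (-(2 * s))) := by
    refine Finset.prod_le_prod (fun v _ => ?_) fun v _ => ?_
    · have h5 : 0 ≤ (nm v : ℝ) ^ (-(2 * s)) := Real.rpow_nonneg (Nat.cast_nonneg _) _
      positivity
    · rw [add_comm]
      exact Real.add_one_le_exp _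
  refine h4.trans ?_
  rw [← Real.exp_sum, ← Finset.mul_sum]
  apply Real.exp_le_exp.2
  refine mul_le_mul_of_nonneg_left ?_ (by positivity)
  exact hsum.sum_le_tsum W fun v _ => Real.rpow_nonneg (Nat.cast_nonneg _) _

end H88.LH
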