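import Pool.Agent.H88.LH.Defs
import Pool.Agent.H88.LH.Tail
import Pool.Agent.H51.HC.Defs
import Pool.Agent.H63.BU.UInr

/-!
# [H88 LH BAD] MP_b39724_nt, theorem LH (think 1911 (2)): few homomorphisms without isolated primes

* `Iso L c bl SK ψ`: every class occurs at an isolated prime.
* `bad`: the `ψ ∈ PU L c ∅ Y` which are not `Iso` are at most `ε Y (log Y)^(N-1)` for large `Y`.
Proof. Let `i` be a class without isolated prime for `ψ`, `R` the finite set of ramified places outside `S0` (`nr R ≤ Y` by `PU`; finiteness as in H35.AC.nfs / `uinr_fin`), all of prime norm (`TyC` contains `D.Gd`);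
`W₁ = {w | bl w ∈ SK}` (finite), `E = {w ∈ R | w ∉ W₁, w not isolated}`: every `w ∈ E` has a partner in `E`. All places of type `i` are in `W₁ ∪ E`, so for `2 ≤ N` the homomorphism `ψ` is in
`PU L c' (W₁ ∪ E) (Y / nr E)`, `c' : CL p (N - 1) U` the classes other than `i` (`Fin.succAbove`), and `hU` gives `≤ C nr (W₁ ∪ E) ^ η (Y / nr E) (1 + log (Y / nr E)) ^ (N - 2)`; for `N = 1` it is in
`PU L c (W₁ ∪ E) 1`: `≤ C nr (W₁ ∪ E) ^ η`, and `nr E ^ η ≤ nr E ^ (η - 3/4) Y ^ (3/4)`. Sum over `E` (`tail` with `s = 1 - η`, resp. `3/4 - η`, `η = 1/8`) and over `i`; `Y (log Y)^(N-2) = o(Y (log Y)^(N-1))`, `Y^(3/4) = o(Y)`.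
-/

set_option autoImplicit false

open scoped NumberField
open IsDedekindDomain H38.ML
open scoped Classical

noncomputable section

namespace H88.LH

open H63.MA H38.BB H38.BG H77.PC3 H77.PLF

/-- every class occurs at an isolated prime -/
def Iso {K : Type} [Field K] [NumberField K] {Ω : Type} [Field Ω] [Algebra K Ω] {p N : ℕ} {ζ : K}
    {D : RD0 K p ζ} (L : LDs D Ω) {U : Type} [Group U] (c : CL p N U) {β : Type} (bl : Pl K → β)
    (SK : Set β) (ψ : Gal(Ω/K) →* U) : Prop :=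
  ∀ i : Fin N, ∃ w, w ∉ D.S0 ∧ TyC c L ψ i w ∧ bl w ∉ SK ∧
    ∀ w', w' ∉ D.S0 → (¬ ∀ τ ∈ inr L w', ψ τ = 1) → bl w' = bl w → w' = w

section aux

variable {K : Type} [Field K] [NumberField K] {Ω : Type} [Field Ω] [Algebra K Ω] {p N : ℕ} {ζ : K}
  {D : RD0 K p ζ} (L : LDs D Ω) {U : Type} [Group U] {β : Type} (bl : Pl K → β) (SK : Set β)

/-- the ramified places -/
private def bdR (ψ : Gal(Ω/K) →* U) : Finset (Pl K) :=
  if h : {v : Pl K | Rm L ψ v}.Finite then h.toFinset else ∅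

/-- the places which are not isolated -/
private def bdE (ψ : Gal(Ω/K) →* U) : Finset (Pl K) :=
  (bdR L ψ).filter fun w => bl w ∉ SK ∧ ∃ w' ∈ bdR L ψ, w' ≠ w ∧ bl w' = bl w

private theorem bdR_mem [IsAlgClosure K Ω] {ψ : Gal(Ω/K) →* U} (h : H38.ML.FT ψ) (w : Pl K) :
    w ∈ bdR L ψ ↔ (w ∉ D.S0 ∧ ¬ ∀ τ ∈ inr L w, ψ τ = 1) := by
  unfold bdR
  rw [dif_pos (H63.BU.uinr_fin L ψ h), Set.Finite.mem_toFinset]
  constructor
  · rintro ⟨h1, τ, h2, h3⟩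
    exact ⟨h1, fun h => h3 (h τ h2)⟩
  · rintro ⟨h1, h2⟩
    push Not at h2
    obtain ⟨τ, h2, h3⟩ := h2
    exact ⟨h1, τ, h2, h3⟩

private theorem bdE_sub (ψ : Gal(Ω/K) →* U) : bdE L bl SK ψ ⊆ bdR L ψ := Finset.filter_subset _ _

variable [IsAlgClosure K Ω] {c : CL p N U} {Y : ℝ} {ψ : Gal(Ω/K) →* U}

private theorem bdR_pr (hψ : ψ ∈ PU L c ∅ Y) {w : Pl K} (hw : w ∈ bdR L ψ) : (nm w).Prime := by
  have h := (bdR_mem L hψ.1 w).1 hw
  rcases hψ.2.2.1 w h.1 (Finset.notMem_empty _) with h1 | ⟨i, h1⟩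
  · exact absurd h1 h.2
  · exact h1.1.2

private theorem bdE_nr (hψ : ψ ∈ PU L c ∅ Y) : nr (bdE L bl SK ψ) ≤ Y := by
  refine hψ.2.2.2 _ fun v hv => ?_
  have h := (bdR_mem L hψ.1 v).1 (bdE_sub L bl SK ψ hv)
  exact ⟨h.1, Finset.notMem_empty _, h.2⟩

private theorem bdE_part (hψ : ψ ∈ PU L c ∅ Y) : ∀ w ∈ bdE L bl SK ψ, (nm w).Prime ∧
    ∃ w' ∈ bdE L bl SK ψ, w' ≠ w ∧ bl w' = bl w := by
  intro w hw
  obtain ⟨h1, h2, w', h3, h4, h5⟩ := Finset.mem_filter.1 hw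
  refine ⟨bdR_pr L hψ h1, w', Finset.mem_filter.2 ⟨h3, ?_, w, h1, h4.symm, h5.symm⟩, h4, h5⟩
  rw [h5]
  exact h2

/-- the places of type `i` are in `W ∪ E` -/
private def BdI (c : CL p N U) (W : Finset (Pl K)) (i : Fin N) (ψ : Gal(Ω/K) →* U) : Prop :=
  ∀ w, w ∉ D.S0 → TyC c L ψ i w → w ∈ W ∪ bdE L bl SK ψ

private theorem bd_ex (hψ : ψ ∈ PU L c ∅ Y) (hI : ¬ Iso L c bl SK ψ) (W : Finset (Pl K))
    (hW : ∀ w, bl w ∈ SK → w ∈ W) : ∃ i, BdI L bl SK c W i ψ := by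
  unfold Iso at hI
  push Not at hI
  obtain ⟨i, hi⟩ := hI
  refine ⟨i, fun w hw hT => ?_⟩
  by_cases hb : bl w ∈ SK
  · exact Finset.mem_union_left _ (hW w hb)
  obtain ⟨w', h1, ⟨τ, h2, h2'⟩, h3, h4⟩ := hi w hw hT hb
  have hwR : w ∈ bdR L ψ := by
    rw [bdR_mem L hψ.1]
    refine ⟨hw, fun h => ?_⟩
    have h5 := h _ (H63.BU.uinr_t L w)
    have h6 := hT.2.1
    rw [h5, isConj_one_right] at h6
    exact c.ne i h6
  have hwR' : w' ∈ bdR L ψ := by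
    rw [bdR_mem L hψ.1]
    exact ⟨h1, fun h => h2' (h τ h2)⟩
  exact Finset.mem_union_right _ (Finset.mem_filter.2 ⟨hwR, hb, w', hwR', h4, h3⟩)

/-- the classes other than `i` -/
private def bdc {m : ℕ} (c : CL p (m + 1) U) (i : Fin (m + 1)) : CL p m U where
  g j := c.g (i.succAbove j)
  pow j := c.pow _
  ne j := c.ne _
  uni j k h := Fin.succAbove_right_injective (c.uni _ _ h)

private theorem bd_pu {m : ℕ} {c : CL p (m + 1) U} (hψ : ψ ∈ PU L c ∅ Y) (W : Finset (Pl K))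
    (i : Fin (m + 1)) (hi : BdI L bl SK c W i ψ) :
    ψ ∈ PU L (bdc c i) (W ∪ bdE L bl SK ψ) (Y / nr (bdE L bl SK ψ)) := by
  refine ⟨hψ.1, hψ.2.1, fun v hv hvE => ?_, fun T hT => ?_⟩
  · rcases hψ.2.2.1 v hv (Finset.notMem_empty _) with h1 | ⟨k, h1⟩
    · exact Or.inl h1
    · right
      have hk : k ≠ i := by
        rintro rfl
        exact hvE (hi v hv h1)
      obtain ⟨j, rfl⟩ := Fin.exists_succAbove_eq hk
      exact ⟨j, h1⟩
  · have hd : Disjoint T (bdE L bl SK ψ) := by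
      rw [Finset.disjoint_left]
      intro v hv hv'
      exact (hT v hv).2.1 (Finset.mem_union_right _ hv')
    have h1 : nr (T ∪ bdE L bl SK ψ) ≤ Y := by
      refine hψ.2.2.2 _ fun v hv => ?_
      rcases Finset.mem_union.1 hv with h | h
      · exact ⟨(hT v h).1, Finset.notMem_empty _, (hT v h).2.2⟩
      · have h := (bdR_mem L hψ.1 v).1 (bdE_sub L bl SK ψ h)
        exact ⟨h.1, Finset.notMem_empty _, h.2⟩
    rw [nr_union hd] at h1
    rw [le_div_iff₀ (lt_of_lt_of_le one_pos (one_le_nr _))]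
    exact h1

private theorem bd_pu1 {c : CL p 1 U} (hψ : ψ ∈ PU L c ∅ Y) (W : Finset (Pl K))
    (i : Fin 1) (hi : BdI L bl SK c W i ψ) :
    ψ ∈ PU L c (W ∪ bdE L bl SK ψ) 1 := by
  refine ⟨hψ.1, hψ.2.1, fun v hv hvE => ?_, fun T hT => ?_⟩
  · exact hψ.2.2.1 v hv (Finset.notMem_empty _)
  · have h0 : T = ∅ := by
      rw [Finset.eq_empty_iff_forall_notMem]
      intro v hv
      obtain ⟨h1, h2, h3⟩ := hT v hv
      rcases hψ.2.2.1 v h1 (Finset.notMem_empty _) with h4 | ⟨k, h4⟩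
      · exact h3 h4
      · have hk : k = i := Subsingleton.elim _ _
        subst hk
        exact h2 (hi v h1 h4)
    rw [h0, Finset.prod_empty]

private theorem bd_nru (W E : Finset (Pl K)) : nr (W ∪ E) ≤ nr W * nr E := by
  have h1 : W ∪ E = W ∪ (E \ W) := (Finset.union_sdiff_self_eq_union).symm
  rw [h1, nr_union Finset.disjoint_sdiff]
  exact mul_le_mul_of_nonneg_left (nr_mono Finset.sdiff_subset) (le_trans zero_le_one (one_le_nr _))

end aux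

/-- the bound without the sum over `E` -/
private def bdB (N : ℕ) (Y : ℝ) : ℝ :=
  if N = 1 then Y ^ (3 / 4 : ℝ) else Y * (1 + Real.log Y) ^ (N - 2)

private theorem bd_one {p N : ℕ} (hN : 1 ≤ N) {U : Type} [Group U] (c : CL p N U) (M : ℕ)
    (hU : ∀ (N' : ℕ) (c' : CL p N' U), 1 ≤ N' → PUb p M c')
    (F : IntermediateField ℚ QBar) [NumberField F] (ζ : F) (hζ : IsPrimitiveRoot ζ p) (z : F)
    (hz : IsPrimitiveRoot z (p ^ M)) (D : RD F p ζ) (L : LDs D.toRD0 QBar)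
    {β : Type} (bl : Pl F → β) (SK : Set β) (W : Finset (Pl F)) (i : Fin N) :
    ∃ C : ℝ, 0 ≤ C ∧ ∀ Y : ℝ, 1 ≤ Y → ∀ E : Finset (Pl F), nr E ≤ Y →
      ∀ Rs : Finset (Gal(QBar/F) →* U),
      (∀ ψ ∈ Rs, ψ ∈ PU L c ∅ Y ∧ bdE L bl SK ψ = E ∧ BdI L bl SK c W i ψ) →
        (Rs.card : ℝ) ≤ C * nr E ^ (-(5 / 8) : ℝ) * bdB N Y := by
  obtain ⟨m, rfl⟩ : ∃ m, N = m + 1 := ⟨N - 1, by omega⟩
  have hW1 : 1 ≤ nr W := one_le_nr W
  rcases m with _ | m
  · obtain ⟨C, hC, h⟩ := hU 1 c le_rfl F ζ hζ z hz D L (1 / 8) (by norm_num)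
    refine ⟨C * nr W ^ (1 / 8 : ℝ), by positivity, fun Y hY E hE Rs hR => ?_⟩
    have hE1 : 1 ≤ nr E := one_le_nr E
    have h1 := h (W ∪ E) 1 le_rfl Rs (fun ψ hψ => by
      obtain ⟨a1, a2, a3⟩ := hR ψ hψ
      have := bd_pu1 L bl SK a1 W i a3
      rwa [a2] at this)
    have h2 : nr (W ∪ E) ^ (1 / 8 : ℝ) ≤ nr W ^ (1 / 8 : ℝ) * nr E ^ (1 / 8 : ℝ) := by
      rw [← Real.mul_rpow (by linarith) (by linarith)]
      exact Real.rpow_le_rpow (le_trans zero_le_one (one_le_nr _)) (bd_nru W E) (by norm_num)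
    have h3 : nr E ^ (1 / 8 : ℝ) ≤ nr E ^ (-(5 / 8) : ℝ) * Y ^ (3 / 4 : ℝ) := by
      have e : nr E ^ (1 / 8 : ℝ) = nr E ^ (-(5 / 8) : ℝ) * nr E ^ (3 / 4 : ℝ) := by
        rw [← Real.rpow_add (by linarith)]
        norm_num
      rw [e]
      exact mul_le_mul_of_nonneg_left (Real.rpow_le_rpow (by linarith) hE (by norm_num))
        (Real.rpow_nonneg (by linarith) _)
    unfold bdB
    rw [if_pos rfl]
    simp only [Real.log_one, add_zero, one_pow, mul_one] at h1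
    have h4 : 0 ≤ nr W ^ (1 / 8 : ℝ) := Real.rpow_nonneg (by linarith) _
    calc (Rs.card : ℝ) ≤ C * nr (W ∪ E) ^ (1 / 8 : ℝ) := h1
      _ ≤ C * (nr W ^ (1 / 8 : ℝ) * (nr E ^ (-(5 / 8) : ℝ) * Y ^ (3 / 4 : ℝ))) := by
          refine mul_le_mul_of_nonneg_left (h2.trans ?_) hC.le
          exact mul_le_mul_of_nonneg_left h3 h4
      _ = _ := by ring
  · obtain ⟨C, hC, h⟩ := hU (m + 1) (bdc c i) (by omega) F ζ hζ z hz D L (1 / 8) (by norm_num)
    refine ⟨C * nr W ^ (1 / 8 : ℝ), by positivity, fun Y hY E hE Rs hR => ?_⟩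
    have hE1 : 1 ≤ nr E := one_le_nr E
    have hE0 : 0 < nr E := by linarith
    have hY1 : 1 ≤ Y / nr E := by
      rw [le_div_iff₀ hE0, one_mul]
      exact hE
    have h1 := h (W ∪ E) (Y / nr E) hY1 Rs (fun ψ hψ => by
      obtain ⟨a1, a2, a3⟩ := hR ψ hψ
      have := bd_pu L bl SK a1 W i a3
      rwa [a2] at this)
    have h2 : nr (W ∪ E) ^ (1 / 8 : ℝ) ≤ nr W ^ (1 / 8 : ℝ) * nr E ^ (1 / 8 : ℝ) := by
      rw [← Real.mul_rpow (by linarith) (by linarith)]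
      exact Real.rpow_le_rpow (le_trans zero_le_one (one_le_nr _)) (bd_nru W E) (by norm_num)
    have h4 : 0 ≤ nr W ^ (1 / 8 : ℝ) := Real.rpow_nonneg (by linarith) _
    have h5 : nr E ^ (1 / 8 : ℝ) * (Y / nr E) ≤ nr E ^ (-(5 / 8) : ℝ) * Y := by
      have e : nr E ^ (1 / 8 : ℝ) * (Y / nr E) = nr E ^ (-(7 / 8) : ℝ) * Y := by
        have e1 : nr E ^ (1 / 8 : ℝ) = nr E ^ (-(7 / 8) : ℝ) * nr E := by
          rw [← Real.rpow_add_one hE0.ne']
          norm_num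
        rw [e1]
        field_simp
      rw [e]
      exact mul_le_mul_of_nonneg_right
        (Real.rpow_le_rpow_of_exponent_le hE1 (by norm_num)) (by linarith)
    have h6 : (1 + Real.log (Y / nr E)) ^ m ≤ (1 + Real.log Y) ^ m := by
      have a1 : 0 ≤ Real.log (Y / nr E) := Real.log_nonneg hY1
      have a2 : Real.log (Y / nr E) ≤ Real.log Y := by
        refine Real.log_le_log (by linarith) ?_
        exact div_le_self (by linarith) hE1
      exact pow_le_pow_left₀ (by linarith) (by linarith) m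
    have h7 : 0 ≤ 1 + Real.log (Y / nr E) := by
      have a1 : 0 ≤ Real.log (Y / nr E) := Real.log_nonneg hY1
      linarith
    unfold bdB
    rw [if_neg (by omega)]
    have e2 : m + 1 + 1 - 2 = m := by omega
    have e3 : m + 1 - 1 = m := by omega
    rw [e2]
    rw [e3] at h1
    have h8 : 0 ≤ Y / nr E := by linarith
    have h9 : 0 ≤ nr E ^ (-(5 / 8) : ℝ) := Real.rpow_nonneg hE0.le _
    calc (Rs.card : ℝ) ≤ C * nr (W ∪ E) ^ (1 / 8 : ℝ) * (Y / nr E) *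
          (1 + Real.log (Y / nr E)) ^ m := h1
      _ ≤ C * (nr W ^ (1 / 8 : ℝ) * nr E ^ (1 / 8 : ℝ)) * (Y / nr E) *
          (1 + Real.log (Y / nr E)) ^ m := by
          refine mul_le_mul_of_nonneg_right ?_ (pow_nonneg h7 _)
          exact mul_le_mul_of_nonneg_right (mul_le_mul_of_nonneg_left h2 hC.le) h8
      _ = C * nr W ^ (1 / 8 : ℝ) * (nr E ^ (1 / 8 : ℝ) * (Y / nr E)) *
          (1 + Real.log (Y / nr E)) ^ m := by ring
      _ ≤ C * nr W ^ (1 / 8 : ℝ) * (nr E ^ (-(5 / 8) : ℝ) * Y) *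
          (1 + Real.log Y) ^ m := by
          refine mul_le_mul (mul_le_mul_of_nonneg_left h5 (mul_nonneg hC.le h4)) h6
            (pow_nonneg h7 _) ?_
          exact mul_nonneg (mul_nonneg hC.le h4) (mul_nonneg h9 (by linarith))
      _ = _ := by ring

private theorem bd_fin (N : ℕ) (hN : 1 ≤ N) (C ε : ℝ) (hC : 0 ≤ C) (hε : 0 < ε) :
    ∃ Y₀ : ℝ, ∀ Y : ℝ, Y₀ ≤ Y → 1 ≤ Y ∧ C * bdB N Y ≤ ε * Y * Real.log Y ^ (N - 1) := by
  obtain ⟨m, rfl⟩ : ∃ m, N = m + 1 := ⟨N - 1, by omega⟩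
  rcases m with _ | m
  · have h1 := (tendsto_rpow_atTop (show (0 : ℝ) < 1 / 4 by norm_num)).eventually_ge_atTop (C / ε)
    obtain ⟨Y₀, h⟩ := Filter.eventually_atTop.1 h1
    refine ⟨max Y₀ 1, fun Y hY => ?_⟩
    have hY0 : Y₀ ≤ Y := (le_max_left _ _).trans hY
    have hY1 : 1 ≤ Y := (le_max_right _ _).trans hY
    refine ⟨hY1, ?_⟩
    have h2 := h Y hY0
    rw [div_le_iff₀ hε] at h2
    unfold bdB
    rw [if_pos rfl]
    have e : Y = Y ^ (1 / 4 : ℝ) * Y ^ (3 / 4 : ℝ) := by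
      rw [← Real.rpow_add (by linarith)]
      norm_num
    have h3 : 0 ≤ Y ^ (3 / 4 : ℝ) := Real.rpow_nonneg (by linarith) _
    simp only [zero_add, Nat.sub_self, pow_zero, mul_one]
    calc C * Y ^ (3 / 4 : ℝ) ≤ Y ^ (1 / 4 : ℝ) * ε * Y ^ (3 / 4 : ℝ) :=
          mul_le_mul_of_nonneg_right h2 h3
      _ = ε * (Y ^ (1 / 4 : ℝ) * Y ^ (3 / 4 : ℝ)) := by ring
      _ = ε * Y := by rw [← e]
  · have h1 := Real.tendsto_log_atTop.eventually_ge_atTop (max 1 (C * 2 ^ m / ε))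
    obtain ⟨Y₀, h⟩ := Filter.eventually_atTop.1 h1
    refine ⟨max Y₀ 1, fun Y hY => ?_⟩
    have hY0 : Y₀ ≤ Y := (le_max_left _ _).trans hY
    have hY1 : 1 ≤ Y := (le_max_right _ _).trans hY
    refine ⟨hY1, ?_⟩
    have h2 := h Y hY0
    have h3 : 1 ≤ Real.log Y := (le_max_left _ _).trans h2
    have h4 : C * 2 ^ m ≤ Real.log Y * ε := by
      have := (le_max_right _ _).trans h2
      rwa [div_le_iff₀ hε] at this
    unfold bdB
    rw [if_neg (by omega)]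
    have e2 : m + 1 + 1 - 2 = m := by omega
    have e3 : m + 1 + 1 - 1 = m + 1 := by omega
    rw [e2, e3]
    have h5 : (1 + Real.log Y) ^ m ≤ 2 ^ m * Real.log Y ^ m := by
      rw [← mul_pow]
      exact pow_le_pow_left₀ (by linarith) (by linarith) m
    have h6 : 0 ≤ Real.log Y ^ m := pow_nonneg (by linarith) _
    calc C * (Y * (1 + Real.log Y) ^ m) ≤ C * (Y * (2 ^ m * Real.log Y ^ m)) :=
          mul_le_mul_of_nonneg_left (mul_le_mul_of_nonneg_left h5 (by linarith)) hC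
      _ = C * 2 ^ m * (Y * Real.log Y ^ m) := by ring
      _ ≤ Real.log Y * ε * (Y * Real.log Y ^ m) :=
          mul_le_mul_of_nonneg_right h4 (mul_nonneg (by linarith) h6)
      _ = _ := by ring

theorem bad {p N : ℕ} (hp : p.Prime) (hN : 1 ≤ N) {U : Type} [Group U] [Finite U]
    (hUp : IsPGroup p U) (c : CL p N U) (M : ℕ)
    (hU : ∀ (N' : ℕ) (c' : CL p N' U), 1 ≤ N' → PUb p M c')
    (F : IntermediateField ℚ QBar) [NumberField F] (ζ : F) (hζ : IsPrimitiveRoot ζ p) (z : F)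
    (hz : IsPrimitiveRoot z (p ^ M)) (D : RD F p ζ) (L : LDs D.toRD0 QBar)
    (b : ℕ) {β : Type} (bl : Pl F → β) (SK : Set β)
    (h1 : ∀ w, {w' : Pl F | bl w' = bl w ∧ (nm w').Prime}.Finite ∧
      {w' : Pl F | bl w' = bl w ∧ (nm w').Prime}.ncard ≤ b)
    (h2 : ∀ w w' : Pl F, bl w' = bl w → (nm w).Prime → (nm w').Prime → nm w' = nm w)
    (h3 : {w : Pl F | bl w ∈ SK}.Finite) (ε : ℝ) (hε : 0 < ε) :
    ∃ Y₀ : ℝ, ∀ Y : ℝ, Y₀ ≤ Y → ∀ Rs : Finset (Gal(QBar/F) →* U),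
      (∀ ψ ∈ Rs, ψ ∈ PU L c ∅ Y ∧ ¬ Iso L c bl SK ψ) →
        (Rs.card : ℝ) ≤ ε * Y * Real.log Y ^ (N - 1) := by
  set W : Finset (Pl F) := h3.toFinset with hWd
  have hW : ∀ w, bl w ∈ SK → w ∈ W := fun w hw => by
    rw [hWd, Set.Finite.mem_toFinset]
    exact hw
  choose C hC0 hC using fun i : Fin N => bd_one hN c M hU F ζ hζ z hz D L bl SK W i
  obtain ⟨C₂, hC₂⟩ := tail b bl h1 h2 (5 / 8) (by norm_num)
  have hC₂0 : 0 ≤ C₂ := by
    have := hC₂ ∅ (fun E hE => absurd hE (Finset.notMem_empty _))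
    simpa using this
  have hC1 : 0 ≤ ∑ i, C i := Finset.sum_nonneg fun i _ => hC0 i
  obtain ⟨Y₀, hY₀⟩ := bd_fin N hN ((∑ i, C i) * C₂) ε (mul_nonneg hC1 hC₂0) hε
  refine ⟨Y₀, fun Y hY Rs hR => ?_⟩
  obtain ⟨hY1, hfin⟩ := hY₀ Y hY
  refine le_trans ?_ hfin
  set A : Finset (Finset (Pl F)) := (AF F Y).filter fun E => ∀ w ∈ E, (nm w).Prime ∧
      ∃ w' ∈ E, w' ≠ w ∧ bl w' = bl w with hA
  have hex : ∀ ψ : Gal(QBar/F) →* U, ∃ i : Fin N, ψ ∈ Rs → BdI L bl SK c W i ψ := by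
    intro ψ
    by_cases h : ψ ∈ Rs
    · obtain ⟨i, hi⟩ := bd_ex L bl SK (hR ψ h).1 (hR ψ h).2 W hW
      exact ⟨i, fun _ => hi⟩
    · exact ⟨⟨0, by omega⟩, fun h' => absurd h' h⟩
  choose ix hix using hex
  have hmap : Set.MapsTo (fun ψ => (ix ψ, bdE L bl SK ψ)) (Rs : Set (Gal(QBar/F) →* U))
      (((Finset.univ : Finset (Fin N)) ×ˢ A : Finset _) : Set _) := by
    intro ψ hψ
    rw [Finset.mem_coe, Finset.mem_product]
    refine ⟨Finset.mem_univ _, ?_⟩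
    rw [hA, Finset.mem_filter, mem_AF]
    exact ⟨bdE_nr L bl SK (hR ψ hψ).1, bdE_part L bl SK (hR ψ hψ).1⟩
  have hcard := Finset.card_eq_sum_card_fiberwise hmap
  rw [hcard]
  push_cast
  rw [Finset.sum_product]
  have hb0 : 0 ≤ bdB N Y := by
    unfold bdB
    have : 0 ≤ Real.log Y := Real.log_nonneg hY1
    split_ifs
    · positivity
    · positivity
  calc ∑ i : Fin N, ∑ E ∈ A, ((Rs.filter fun ψ => (ix ψ, bdE L bl SK ψ) = (i, E)).card : ℝ)
      ≤ ∑ i : Fin N, ∑ E ∈ A, C i * nr E ^ (-(5 / 8) : ℝ) * bdB N Y := by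
        refine Finset.sum_le_sum fun i _ => Finset.sum_le_sum fun E hE => ?_
        rw [hA, Finset.mem_filter, mem_AF] at hE
        refine hC i Y hY1 E hE.1 _ fun ψ hψ => ?_
        rw [Finset.mem_filter, Prod.mk.injEq] at hψ
        obtain ⟨a1, a2, a3⟩ := hψ
        refine ⟨(hR ψ a1).1, a3, ?_⟩
        rw [← a2]
        exact hix ψ a1
    _ = (∑ i, C i) * (∑ E ∈ A, nr E ^ (-(5 / 8) : ℝ)) * bdB N Y := by
        rw [Finset.sum_mul_sum, Finset.sum_mul]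
        refine Finset.sum_congr rfl fun i _ => ?_
        rw [Finset.sum_mul]
    _ ≤ (∑ i, C i) * C₂ * bdB N Y := by
        refine mul_le_mul_of_nonneg_right (mul_le_mul_of_nonneg_left ?_ hC1) hb0
        exact hC₂ A fun E hE => (Finset.mem_filter.1 hE).2

end H88.LH
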