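import Pool.Agent.H88.LH.Hct
import Pool.Agent.H88.LH.Bad
import Pool.Agent.H51.F4.Hc

/-!
# [H88 LH FHY] MP_b39724_nt, theorem LH, block (H): `FTH` for hypercentral `D`

`fth_hyp`: `D` a normal `p`-subgroup of the finite group `M`, `D ≤ Z_k(M)`, `D` the normal closure of the `c.g i`: `FTH D c`.
Proof. `hfr`; `plf4 hp hA hU (UU Q) (uu_pgroup Q hP)` gives `m'`; take `m = p ^ m' * Nat.card M` or `p ^ m'`. `hct` gives `S0 = R.S0` and many `ψ`; `bad` with `ε = c₀ / 2` for given `bl`, `SK`: half of them are `Iso`.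
`θ = tw Q φ₀ ψ` (`φ₀ = right ∘ Θ`): `tw_ap`, `tw_ft`, `tw_surj`, `tw_pu` (`Q.cl = c`); injective as in `hdlow`; `θ φ₀⁻¹ = ψ.left ∈ D`; trivial on `dec w`, `w ∈ S'` (`Θ` and `ψ` are). `Tf`: `T` = the ramified places outside
`S0` (H35.AC.nfs), `nr T ≤ Y`, prime norm by `TyC`; on the inertia group of `Q'.P w = (L.ld w _).P` the values are powers of `θ (L.t w)` (`H48.MF.ing_inr`), which is conjugate to `c.g i`, so the image is
`zpowers (θ (L.t w))`; isolated primes: `Iso` for `ψ`, the labels of `ψ` and `θ` are the same (`conj_iff`, as in `tw_pu`), the ramified places are the same.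
-/

set_option autoImplicit false

open scoped NumberField
open IsDedekindDomain H38.ML
open scoped Classical

noncomputable section

namespace H88.LH

open H63.MA H38.BB H38.BG H77.PC3 H77.PLF H51.HD H51.HC H51.F3 H51.F4

/-- the inertia groups outside `S0` -/
private theorem inr_q {F : IntermediateField ℚ QBar} [NumberField F] {p : ℕ} {ζ : F}
    {R : RD0 F p ζ} (L : LDs R QBar) (Q' : DP F QBar) (hL : H38.AS.LQ L Q') {w : Pl F}
    (hw : w ∉ R.S0) : inr L w = (Q'.P w).inertia Gal(QBar/F) := by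
  unfold inr
  rw [dif_pos hw, hL w hw]

/-- the twists have `Tf` -/
private theorem tw_tf {p N : ℕ} (hp : p.Prime) {M P : Type} [Group M] [Finite M] [Group P]
    (Q : HU p N M P) {F : IntermediateField ℚ QBar} [NumberField F] {ζ : F}
    (hζ : IsPrimitiveRoot ζ p) {R : RD0 F p ζ} (L : LDs R QBar) (Q' : DP F QBar)
    (hL : H38.AS.LQ L Q') {φ₀ : Gal(QBar/F) →* M} {ψ : Gal(QBar/F) →* UU Q}
    (h : ∀ σ, Q.pr (φ₀ σ) = (ψ σ).right) (hf : FT φ₀) (h0 : Function.Surjective φ₀)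
    (hu : ∀ v, v ∉ R.S0 → ∀ τ ∈ inr L v, φ₀ τ = 1) {Y : ℝ} (hψ : ψ ∈ PU L (cU Q) ∅ Y)
    {β : Type} (bl : Pl F → β) (SK : Set β) (hI : Iso L (cU Q) bl SK ψ) :
    Tf Q' R.S0 Q.cl bl SK Y (tw Q φ₀ ψ) := by
  have h1 := tw_pu Q L h hf h0 hu hψ
  have hin : ∀ v, v ∉ R.S0 → ∀ τ ∈ inr L v, ψ τ = SemidirectProduct.inl (ψ τ).left ∧
      tw Q φ₀ ψ τ = (((ψ τ).left : Q.T) : M) := by
    intro v hv τ hτ
    have h2 := h τ
    rw [hu v hv τ hτ, map_one] at h2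
    refine ⟨SemidirectProduct.ext rfl ?_, ?_⟩
    · rw [← h2]
      rfl
    · rw [tw_ap Q h, hu v hv τ hτ, mul_one]
  have hpI : ∀ v, v ∉ R.S0 → ∀ τ ∈ inr L v, ∃ k : ℕ, tw Q φ₀ ψ τ ^ (p ^ k) = 1 := by
    intro v hv τ hτ
    rw [(hin v hv τ hτ).2]
    exact Q.tp _ (ψ τ).left.2
  have hmap : ∀ w, w ∉ R.S0 → ((Q'.P w).inertia Gal(QBar/F)).map (tw Q φ₀ ψ) =
      Subgroup.zpowers (tw Q φ₀ ψ (L.t w)) := by
    intro w hw
    rw [← inr_q L Q' hL hw]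
    refine le_antisymm ?_ ?_
    · rintro _ ⟨τ, hτ, rfl⟩
      exact (H48.MF.ing_inr hp hζ L hw _ h1.1 (hpI w hw)).1 τ hτ
    · rw [Subgroup.zpowers_le]
      exact ⟨L.t w, H35.AC.lt_mem L hw, rfl⟩
  refine ⟨H35.AC.nfs L ∅ (tw Q φ₀ ψ), fun w hw => ?_, ?_, fun w hw => ?_, fun w hw hw2 τ hτ => ?_,
    fun i => ?_⟩
  · obtain ⟨h2, h3, h4⟩ := (H35.AC.mem_nfs h1 w).1 hw
    refine ⟨h2, ?_⟩
    rcases h1.2.2.1 w h2 h3 with h5 | ⟨i, hi⟩
    · exact absurd (h5 _ (H35.AC.lt_mem L h2)) h4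
    · exact hi.1.2
  · have h2 := H35.AC.nfs_AF h1
    rw [mem_AF] at h2
    exact h2
  · obtain ⟨h2, h3, h4⟩ := (H35.AC.mem_nfs h1 w).1 hw
    rcases h1.2.2.1 w h2 h3 with h5 | ⟨i, hi⟩
    · exact absurd (h5 _ (H35.AC.lt_mem L h2)) h4
    · exact ⟨i, tw Q φ₀ ψ (L.t w), hi.2.1, hmap w h2⟩
  · have h2 : tw Q φ₀ ψ (L.t w) = 1 := by
      by_contra h3
      exact hw2 ((H35.AC.mem_nfs h1 w).2 ⟨hw, Finset.notMem_empty w, h3⟩)
    rw [← inr_q L Q' hL hw] at hτ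
    exact (H48.MF.ing_inr hp hζ L hw _ h1.1 (hpI w hw)).2.2 h2 τ hτ
  · obtain ⟨w, hw, hty, hbl, hun⟩ := hI i
    have h2 := (hin w hw _ (H35.AC.lt_mem L hw))
    have h3 : IsConj (tw Q φ₀ ψ (L.t w)) (Q.cl.g i) := by
      have h4 := hty.2.1
      rw [h2.2]
      rw [h2.1] at h4
      exact (conj_iff Q _ _).1 h4
    have h4 : tw Q φ₀ ψ (L.t w) ≠ 1 := by
      intro h5
      rw [h5] at h3
      exact Q.cl.ne i (isConj_one_right.1 h3)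
    refine ⟨w, (H35.AC.mem_nfs h1 w).2 ⟨hw, Finset.notMem_empty w, h4⟩, hbl, fun w' hw' he => ?_,
      tw Q φ₀ ψ (L.t w), h3, hmap w hw⟩
    obtain ⟨h5, -, h6⟩ := (H35.AC.mem_nfs h1 w').1 hw'
    refine hun w' h5 (fun h7 => h6 ?_) he
    rw [(hin w' h5 _ (H35.AC.lt_mem L h5)).2, h7 _ (H35.AC.lt_mem L h5)]
    rfl

theorem fth_hyp (hA : ∀ p : ℕ, p.Prime → APm4 p) (hU : ∀ p : ℕ, p.Prime → APu3 p) {p N : ℕ}
    (hp : p.Prime) (hN : 1 ≤ N) {M : Type} [Group M] [Finite M] (D : Subgroup M) [D.Normal]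
    (c : CL p N M) (hD : ∀ x ∈ D, ∃ k : ℕ, x ^ p ^ k = 1) (k : ℕ)
    (hk : D ≤ Subgroup.upperCentralSeries M k)
    (hg : D = Subgroup.normalClosure (Set.range c.g)) : FTH D c := by
  obtain ⟨P, iP, fP, Q, hP, hcl, hT⟩ := hfr hp D c hD k hk hg
  subst hcl
  have hUp := uu_pgroup Q hP
  have hfU : Finite (UU Q) := by
    refine Finite.of_injective (fun u : UU Q => ((u.left, u.right) : Q.T × P)) ?_
    intro u v h
    exact SemidirectProduct.ext (congrArg Prod.fst h) (congrArg Prod.snd h)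
  obtain ⟨m, hm, hPL⟩ := plf4 hp (hA p hp) (hU p hp) (UU Q) hUp
  refine ⟨p ^ m, pow_pos hp.pos m, fun F _ hz Θ hs hΘ Q' S₁ S' hS' _ => ?_⟩
  obtain ⟨z, hz⟩ := hz
  have hζ : IsPrimitiveRoot (z ^ p ^ (m - 1)) p := by
    refine hz.pow (pow_pos hp.pos m) ?_
    rw [← pow_succ]
    congr 1
    omega
  obtain ⟨R, L, hL, hS1, hS2, hun, c₀, X₁, hc₀, hX⟩ := hct hp Q hP D hT m hm (hPL N (cU Q) hN) F _
    hζ z hz Θ hs hΘ Q' S₁ S' hS'
  refine ⟨R.S0, hS1, hS2, fun b β bl SK h1 h2 h3 => ?_⟩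
  obtain ⟨Y₀, hY₀⟩ := bad hp hN hUp (cU Q) m (fun N' c' h => (hPL N' c' h).ub) F _ hζ z hz R L b
    bl SK h1 h2 h3 (c₀ / 2) (half_pos hc₀)
  refine ⟨c₀ / 2, max Y₀ X₁, half_pos hc₀, fun Y hY => ?_⟩
  obtain ⟨Rs, hRs, hψ⟩ := hX Y ((le_max_right _ _).trans hY)
  obtain ⟨φ₀, hφ⟩ : ∃ φ₀ : Gal(QBar/F) →* M,
      φ₀ = (SemidirectProduct.rightHom : DM D →* M).comp Θ := ⟨_, rfl⟩
  rw [← hφ]
  have hs₀ : Function.Surjective φ₀ := by
    intro g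
    obtain ⟨σ, hσ⟩ := hs (SemidirectProduct.inr g)
    refine ⟨σ, ?_⟩
    rw [hφ, MonoidHom.comp_apply, hσ]
    rfl
  have hφ₀ : FT φ₀ := by
    rw [hφ]
    exact ft_comp _ _ hΘ
  have hu : ∀ v, v ∉ R.S0 → ∀ τ ∈ inr L v, φ₀ τ = 1 := fun v hv τ hτ => by
    rw [hφ, MonoidHom.comp_apply, hun v hv τ hτ, map_one]
  have hrr : ∀ ψ ∈ Rs, ∀ σ, Q.pr (φ₀ σ) = (ψ σ).right := by
    intro ψ h σ
    rw [← (hψ ψ h).2.1 σ, hφ]
    rfl
  have hinj : Set.InjOn (tw Q φ₀) (Rs.filter fun ψ => Iso L (cU Q) bl SK ψ :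
      Finset (Gal(QBar/F) →* UU Q)) := by
    intro ψ h1 ψ' h1' he
    have h4 := hrr ψ (Finset.mem_filter.1 (Finset.mem_coe.1 h1)).1
    have h4' := hrr ψ' (Finset.mem_filter.1 (Finset.mem_coe.1 h1')).1
    refine MonoidHom.ext fun σ => ?_
    have h2 := DFunLike.congr_fun he σ
    rw [tw_ap Q h4, tw_ap Q h4'] at h2
    refine SemidirectProduct.ext (Subtype.ext (mul_right_cancel h2)) ?_
    rw [← h4, ← h4']
  refine ⟨(Rs.filter fun ψ => Iso L (cU Q) bl SK ψ).image (tw Q φ₀), ?_, fun θ hθ => ?_⟩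
  · rw [Finset.card_image_of_injOn hinj]
    have e1 := hY₀ Y ((le_max_left _ _).trans hY) (Rs.filter fun ψ => ¬ Iso L (cU Q) bl SK ψ)
      fun ψ h => ⟨(hψ ψ (Finset.mem_filter.1 h).1).1, (Finset.mem_filter.1 h).2⟩
    have e2 : ((Rs.filter fun ψ => Iso L (cU Q) bl SK ψ).card : ℝ) +
        ((Rs.filter fun ψ => ¬ Iso L (cU Q) bl SK ψ).card : ℝ) = Rs.card := by
      exact_mod_cast Finset.card_filter_add_card_filter_not _
    linarith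
  · rw [Finset.mem_image] at hθ
    obtain ⟨ψ, hψ', rfl⟩ := hθ
    obtain ⟨hm1, hm2⟩ := Finset.mem_filter.1 hψ'
    obtain ⟨g1, g2, g3⟩ := hψ ψ hm1
    have h4 := hrr ψ hm1
    have h5 := tw_pu Q L h4 hφ₀ hs₀ hu g1
    refine ⟨h5.1, h5.2.1, fun σ => ?_, fun w hw σ hσ => ?_,
      tw_tf hp Q hζ L Q' hL h4 hφ₀ hs₀ hu g1 bl SK hm2⟩
    · rw [tw_ap Q h4, mul_inv_cancel_right, ← hT]
      exact (ψ σ).left.2
    · rw [tw_ap Q h4, g3 w hw σ hσ, hφ, MonoidHom.comp_apply, hS' w hw σ hσ, map_one, mul_one]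
      rfl

end H88.LH
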