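import Pool.Agent.H88.LH.Ftx

/-!
# [H88 LH IND] MP_b39724_nt, theorem LH (think 1911): the induction `lh_base`

`lh_base`: for `Y : LY p N G`: `FTH D Y.cM` (over the field `F` of `M`) gives `BASE Y.C N`.
-/

set_option autoImplicit false

open scoped NumberField Pointwise
open IsDedekindDomain H38.ML
open scoped Classical

noncomputable section

namespace H88.LH

open H63.MA H38.BB H38.BG H77.PC3

variable {p N : ℕ} {G : Type} [Group G] [Finite G] (Y : LY p N G)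

theorem lh_base (hp : p.Prime) (hF : FTH (Y.D.subgroupOf Y.M) Y.cM) : BASE Y.C N := by
  obtain ⟨m, hm, hF⟩ := hF
  haveI : Finite Y.AA := Finite.of_injective
    (fun a : Y.AA => (a.left, a.right)) fun a b h =>
      SemidirectProduct.ext (congrArg Prod.fst h) (congrArg Prod.snd h)
  obtain ⟨K₀, hK₀, hK⟩ := kk0 Y.AA m hm
  refine ⟨K₀, hK₀, fun K hKn hle s S₁ => ?_⟩
  obtain ⟨⟨Φ, hΦs, hΦ⟩, z, hz⟩ := hK K hle hKn
  obtain ⟨φ₀, hφ₀⟩ : ∃ φ₀ : Gal(QBar/K) →* G,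
    φ₀ = (SemidirectProduct.rightHom : Y.AA →* G).comp Φ := ⟨_, rfl⟩
  have hφ₀f : FT φ₀ := by
    rw [hφ₀]
    exact H38.ML.ft_comp _ _ hΦ
  have hφ₀s : Function.Surjective φ₀ := by
    rw [hφ₀]
    exact SemidirectProduct.rightHom_surjective.comp hΦs
  -- the field `F`
  obtain ⟨F, hFn, ⟨X⟩⟩ : ∃ (F : IntermediateField ℚ QBar) (_ : NumberField F),
      Nonempty (FE K F (Y.M.comap φ₀)) := by
    obtain ⟨E, hE, hEle⟩ := hφ₀f
    refine fe_ex K (Y.M.comap φ₀) E (le_trans hEle ?_)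
    intro σ hσ
    show φ₀ σ ∈ Y.M
    rw [MonoidHom.mem_ker.1 hσ]
    exact Y.M.one_mem
  -- the homomorphism `Θ`
  have hjm : ∀ h, Φ (X.j h) ∈ Y.M.comap (SemidirectProduct.rightHom : Y.AA →* G) := by
    intro h
    have h6 : X.j h ∈ X.j.range := ⟨h, rfl⟩
    rw [X.rng] at h6
    have h7 : φ₀ (X.j h) ∈ Y.M := h6
    rw [DFunLike.congr_fun hφ₀ (X.j h)] at h7
    exact h7
  obtain ⟨Θ, hΘ⟩ : ∃ Θ : Gal(QBar/F) →* DM (Y.D.subgroupOf Y.M),
    Θ = Y.ev.comp ((Φ.comp X.j).codRestrict _ hjm) := ⟨_, rfl⟩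
  have hΘ1 : ∀ h, Φ (X.j h) = 1 → Θ h = 1 := by
    intro h hh
    rw [hΘ]
    show Y.ev ⟨Φ (X.j h), hjm h⟩ = 1
    rw [← map_one Y.ev]
    congr 1
    exact Subtype.ext hh
  have hΘr : ∀ h, (((SemidirectProduct.rightHom : DM (Y.D.subgroupOf Y.M) →* Y.M) (Θ h) : Y.M) : G) =
      φ₀ (X.j h) := by
    intro h
    rw [hΘ]
    exact (DFunLike.congr_fun hφ₀ (X.j h)).symm
  have hΘs : Function.Surjective Θ := by
    rw [hΘ]
    refine Y.ev_surj.comp ?_
    rintro ⟨a, ha⟩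
    obtain ⟨σ, hσ⟩ := hΦs a
    have h1 : σ ∈ X.j.range := by
      rw [X.rng]
      show φ₀ σ ∈ Y.M
      rw [DFunLike.congr_fun hφ₀ σ]
      show SemidirectProduct.rightHom (Φ σ) ∈ Y.M
      rw [hσ]
      exact ha
    obtain ⟨h, rfl⟩ := h1
    exact ⟨h, Subtype.ext hσ⟩
  have hΘf : FT Θ := by
    obtain ⟨E, hE, hEle⟩ := fe_ft X Φ hΦ
    exact ⟨E, hE, fun σ hσ => hΘ1 σ (MonoidHom.mem_ker.1 (hEle hσ))⟩
  obtain ⟨QK⟩ := exists_DP K QBar
  obtain ⟨QF⟩ := exists_DP F QBar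
  -- the places `S'`
  obtain ⟨S', hS'c, hS'd, hS'⟩ := spx Φ hΦ
    (S₁ ∪ (finite_above (K := K) hm.ne').toFinset) s
  have hfi : Finite (Gal(QBar/K) ⧸ Y.M.comap φ₀) := by
    refine Finite.of_injective (β := Y.XX) (fun q => Quotient.map' (s₁ := QuotientGroup.leftRel
      (Y.M.comap φ₀)) (s₂ := QuotientGroup.leftRel Y.M) φ₀ (fun a b h => ?_) q) ?_
    · rw [QuotientGroup.leftRel_apply] at h ⊢
      have h1 : φ₀ (a⁻¹ * b) ∈ Y.M := h
      rwa [map_mul, map_inv] at h1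
    · intro a b
      refine Quotient.inductionOn₂' a b fun a b h => ?_
      have h1 := QuotientGroup.leftRel_apply.1 (Quotient.exact' h)
      refine Quotient.sound' (QuotientGroup.leftRel_apply.2 ?_)
      show φ₀ (a⁻¹ * b) ∈ Y.M
      rwa [map_mul, map_inv]
  choose bl hbl using fun w : Pl F => ov_ex X.le w
  have hfib : ∀ v : Pl K, {w : Pl F | bl w = v}.Finite := by
    intro v
    refine (ov_fin X v).1.subset fun w hw => ?_
    have h := hbl w
    rw [show bl w = v from hw] at h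
    exact h
  have hfS : ∀ S : Finset (Pl K), {w : Pl F | bl w ∈ S}.Finite := by
    intro S
    have h1 : {w : Pl F | bl w ∈ S} = ⋃ v ∈ S, {w : Pl F | bl w = v} := by
      ext w
      simp
    rw [h1]
    exact S.finite_toSet.biUnion fun v _ => hfib v
  obtain ⟨S'F, hS'F⟩ : ∃ S'F : Finset (Pl F), S'F = (hfS S').toFinset := ⟨_, rfl⟩
  have hS'Fm : ∀ w, w ∈ S'F ↔ bl w ∈ S' := by
    intro w
    rw [hS'F]
    exact (hfS S').mem_toFinset
  have hund : ∀ w, (QF.P w).under (𝓞 K) = (bl w).asIdeal := by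
    intro w
    obtain ⟨𝔔, h5, h6, h7⟩ := hbl w
    rw [← h6]
    exact ov_under X.le ((QF.under w).trans h7.symm)
  obtain ⟨S0, -, hS0', hS0⟩ := hF F ⟨⟨z, X.le z.2⟩, by
      exact IsPrimitiveRoot.of_map_of_injective (f := algebraMap F QBar)
        (hz.map_of_injective (algebraMap K QBar).injective) (algebraMap F QBar).injective⟩
    Θ hΘs hΘf QF ∅ S'F (fun w hw σ hσ => by
      refine hΘ1 σ ?_
      exact hS' _ ((hS'Fm w).1 hw) (QF.P w) (QF.prime w) (hund w) _ ((fe_dec X _ _).2 hσ))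
    (fun w hw hab => by
      have h1 : bl w ∉ S₁ ∪ (finite_above (K := K) hm.ne').toFinset :=
        Finset.disjoint_left.1 hS'd ((hS'Fm w).1 hw)
      refine h1 (Finset.mem_union_right _ ((finite_above (K := K) hm.ne').mem_toFinset.2 ?_))
      show (m : 𝓞 K) ∈ (bl w).asIdeal
      rw [← hund w, Ideal.mem_comap, map_natCast]
      have h2 : (m : 𝓞 F) ∈ w.asIdeal := hab
      rw [← QF.under w, Ideal.mem_comap, map_natCast] at h2
      exact h2)
  obtain ⟨SU, hSU⟩ := unrf φ₀ hφ₀f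
  obtain ⟨SK, hSK⟩ : ∃ SK : Finset (Pl K), SK = S₁ ∪ S' ∪ (S0.image bl ∪ SU ∪
    (finite_above (K := K) hp.ne_zero).toFinset) := ⟨_, rfl⟩
  obtain ⟨C, Y₀, hC, hfam⟩ := hS0 (Nat.card (Gal(QBar/K) ⧸ Y.M.comap φ₀)) (Pl K) bl
    (↑SK : Set (Pl K)) (fun w => by
      have h1 : {w' : Pl F | bl w' = bl w ∧ (nm w').Prime} ⊆ {w' : Pl F | ov (bl w) w'} := by
        rintro w' ⟨h2, -⟩
        have h := hbl w'
        rw [h2] at h
        exact h
      exact ⟨(ov_fin X _).1.subset h1,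
        (Set.ncard_le_ncard h1 (ov_fin X _).1).trans (ov_fin X _).2⟩)
    (fun w w' h h1 h2 => by
      rw [← ov_nm X.le (hbl w) h1, ← ov_nm X.le (hbl w') h2, h]) (hfS SK)
  -- the representatives
  obtain ⟨r, hr, hr1⟩ : ∃ r : Y.XX → Gal(QBar/K), (∀ x, φ₀ (r x) = Y.rp x) ∧
      r (QuotientGroup.mk 1) = 1 := by
    choose r' hr' using fun x => hφ₀s (Y.rp x)
    refine ⟨fun x => if x = QuotientGroup.mk 1 then 1 else r' x, fun x => ?_, if_pos rfl⟩
    show φ₀ (if x = QuotientGroup.mk 1 then 1 else r' x) = _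
    split_ifs with h
    · rw [h, map_one, Y.rp_one]
    · exact hr' x
  have hrg : ∀ σ, φ₀ σ ∈ Y.M ↔ σ ∈ X.j.range := by
    intro σ
    rw [X.rng]
    rfl
  refine ⟨QK, SK, S', C, Y₀, hC, ?_, ?_, ?_, hS'c, fun Yv hYv => ?_⟩
  · rw [hSK]
    exact Finset.subset_union_left.trans Finset.subset_union_left
  · rw [hSK]
    exact Finset.subset_union_right.trans Finset.subset_union_left
  · exact Finset.disjoint_of_subset_right Finset.subset_union_left hS'd
  obtain ⟨Rs, hcard, hRs⟩ := hfam Yv hYv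
  have hD : ∀ θ : Gal(QBar/F) →* Y.M, θ ∈ Rs → ∀ h, (θ h : G) * (φ₀ (X.j h))⁻¹ ∈ Y.D := by
    intro θ hθ h
    have h1 := (hRs θ hθ).2.2.1 h
    have h2 : (((θ h) * ((SemidirectProduct.rightHom : DM (Y.D.subgroupOf Y.M) →* Y.M)
        (Θ h))⁻¹ : Y.M) : G) ∈ Y.D := h1
    rw [Subgroup.coe_mul, Subgroup.coe_inv, hΘr] at h2
    exact h2
  have hex : ∀ θ : Gal(QBar/F) →* Y.M, θ ∈ Rs → ∃ φ : Gal(QBar/K) →* G, IsInd Y φ₀ X.j r θ φ :=
    fun θ hθ => shp Y φ₀ X.j X.inj hrg θ (hD θ hθ) r hr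
  choose! ι hι using hex
  refine ⟨Rs.image ι, ?_, ?_⟩
  · rw [Finset.card_image_of_injOn]
    · exact hcard
    · intro θ hθ θ' hθ' h
      refine shp_inj Y φ₀ X.j hrg r hr1 θ θ' (ι θ) (hι θ hθ) ?_
      rw [show ι θ = ι θ' from h]
      exact hι θ' hθ'
  · intro φ hφ
    obtain ⟨θ, hθ, rfl⟩ := Finset.mem_image.1 hφ
    obtain ⟨h1, h2, h3, h4, h5⟩ := hRs θ hθ
    have hS : LS Y φ₀ X r θ (ι θ) QK QF S0 SK bl := by
      refine ⟨hφ₀f, hφ₀s, hr, ft_ind Y hφ₀f X h1 (hι θ hθ), hι θ hθ, hbl, ?_, ?_, ?_⟩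
      · intro w hw hwS
        refine hw ?_
        rw [hSK]
        exact Finset.mem_union_right _ (Finset.mem_union_left _
          (Finset.mem_union_left _ (Finset.mem_image_of_mem _ hwS)))
      · intro v hv
        refine hSU v (fun h => hv ?_) _ (QK.prime v) (QK.under v)
        rw [hSK]
        exact Finset.mem_union_right _ (Finset.mem_union_left _ (Finset.mem_union_right _ h))
      · intro v hv h
        refine hv ?_
        rw [hSK]
        exact Finset.mem_union_right _ (Finset.mem_union_right _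
          ((finite_above (K := K) hp.ne_zero).mem_toFinset.2 h))
    refine ⟨hS.ft, su_ind Y hS hr1 hp h5 h2, ?_, loc_tm hS hp h5⟩
    intro v hv
    refine loc_s hS ?_ ?_
    · intro σ hσ
      rw [hφ₀, MonoidHom.comp_apply, hS' v hv _ (QK.prime v) (QK.under v) σ hσ, map_one]
    · intro w hw
      refine h4 w ((hS'Fm w).2 ?_)
      rw [ov_un X.le (hbl w) hw]
      exact hv

end H88.LH
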