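import Pool.Agent.H88.LH.Idx
import Pool.Agent.H77.PC3.CLo

/-!
# [H88 LH CFM] MP_b39724_nt, theorem LSN (think 1911 (7), (8)): from the homomorphisms to the fields

* `dcm`: as `H38.BG.dsm_up` (H38/BG/DUp.lean) with multiplicities: if the inertia group of `Q.P v`, `v ∈ T`, has its image in `zpowers (x v)`, `ind (x v) ≤ k v * indG G`, and is trivial at the other places outside
  `S₀`, then `relDisc K (fieldOf i₀ ρ) ≤ C (∏_{v ∈ T} nm v ^ k v) ^ indG G`. Proof: `H38.ML.disc_bound` has one weight `w`; copy its proof (H38/ML/Disc.lean, `sum_dexp_le`, `embOrb_le`, `absNorm_different_le`) with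
  a weight `w : Ideal (𝓞 K) → ℕ` (here `k v * indG G`): `absNorm (different) ≤ C ∏_{v ∈ T} absNorm v ^ w v`.
* `cfm`: as `H77.PC3.cfl` (H77/PC3/CLo.lean), from `Bh` for all large `Y`.
-/

set_option autoImplicit false

open scoped NumberField
open IsDedekindDomain H38.ML
open scoped Classical

noncomputable section

namespace H88.LH

open H63.MA H38.BB H38.BG H77.PC3

/-- `disc_bound` with weights -/
private theorem disc_bound_w {K : Type} [Field K] [NumberField K] (Ω : Type) [Field Ω]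
    [Algebra K Ω] [IsAlgClosure K Ω] (n : ℕ)
    (S : Set (Ideal (𝓞 K))) (hS : S.Finite)
    (hSn : ∀ v : Ideal (𝓞 K), v.IsPrime → v ≠ ⊥ → v ∉ S → ((n.factorial : ℕ) : 𝓞 K) ∉ v) :
    ∃ C : ℕ, 0 < C ∧ ∀ (L : IntermediateField K Ω) (_ : FiniteDimensional K L)
      (_ : NumberField L), Module.finrank K L = n →
      ∀ (T : Finset (Ideal (𝓞 K))) (w : Ideal (𝓞 K) → ℕ), (∀ v ∈ T, v.IsPrime ∧ v ≠ ⊥) →
        (∀ v ∈ T, ∃ 𝔓 : Ideal (𝓞 Ω), 𝔓.IsPrime ∧ 𝔓.under (𝓞 K) = v ∧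
          n ≤ w v + embOrb L (𝔓.inertia Gal(Ω/K))) →
        (∀ v : Ideal (𝓞 K), v.IsPrime → v ≠ ⊥ → v ∉ S → v ∉ T →
          ∃ 𝔓 : Ideal (𝓞 Ω), 𝔓.IsPrime ∧ 𝔓.under (𝓞 K) = v ∧
            n ≤ embOrb L (𝔓.inertia Gal(Ω/K))) →
        Ideal.absNorm (differentIdeal (𝓞 K) (𝓞 L)) ≤ C * ∏ v ∈ T, Ideal.absNorm v ^ w v := by
  classical
  have hk : ∀ v : Ideal (𝓞 K), ∃ k : ℕ, v.IsPrime → v ≠ ⊥ →
      ((n.factorial : ℕ) : 𝓞 K) ∉ v ^ k ∧ (v ∉ S → k = 1) := by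
    intro v
    by_cases hvS : v ∈ S
    · by_cases hvp : v.IsPrime
      · by_contra hc
        push Not at hc
        have h1 : ((n.factorial : ℕ) : 𝓞 K) ∈ (⨅ i : ℕ, v ^ i : Ideal (𝓞 K)) := by
          rw [Ideal.mem_iInf]
          intro i
          obtain ⟨-, -, h3⟩ := hc i
          by_contra h4
          exact (h3 h4).1 hvS
        rw [Ideal.iInf_pow_eq_bot_of_isDomain v hvp.ne_top, Ideal.mem_bot] at h1
        have h2 : n.factorial = 0 := by exact_mod_cast h1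
        exact Nat.factorial_ne_zero n h2
      · exact ⟨0, fun h => absurd h hvp⟩
    · exact ⟨1, fun h1 h2 => ⟨by rw [pow_one]; exact hSn v h1 h2 hvS, fun _ => rfl⟩⟩
  choose k hk using hk
  have hN1 : ∀ v : Ideal (𝓞 K), v ≠ ⊥ → 1 ≤ Ideal.absNorm v := fun v hv =>
    Nat.one_le_iff_ne_zero.mpr (fun h => hv (Ideal.absNorm_eq_zero_iff.mp h))
  set S' : Finset (Ideal (𝓞 K)) := hS.toFinset.filter (fun v => v.IsPrime ∧ v ≠ ⊥) with hS'
  refine ⟨∏ v ∈ S', Ideal.absNorm v ^ (k v * n), ?_, ?_⟩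
  · refine Finset.prod_pos fun v hv => ?_
    have h1 := (Finset.mem_filter.mp hv).2.2
    exact Nat.pow_pos (hN1 v h1)
  intro L _ _ hLn T w hT hTw hU
  have hD : ∀ v : Ideal (𝓞 K), v.IsPrime → v ≠ ⊥ → ∀ _ : Fintype (v.primesOver (𝓞 L)),
      ∑ P : v.primesOver (𝓞 L), P.1.inertiaDeg (𝓞 K) * dexp K L P.1 ≤
        if v ∈ S' then k v * n else if v ∈ T then w v else 0 := by
    intro v hvp hv0 hfin
    have hkv := hk v hvp hv0
    have h1 := sum_dexp_le K L v hvp hv0 (k v) (by rw [hLn]; exact hkv.1)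
    rw [hLn] at h1
    split_ifs with hvS hvT
    · omega
    · have hvS2 : v ∉ S := fun h => hvS (Finset.mem_filter.mpr
        ⟨hS.mem_toFinset.mpr h, hvp, hv0⟩)
      rw [hkv.2 hvS2, one_mul] at h1
      obtain ⟨𝔓, h𝔓1, h𝔓2, h𝔓3⟩ := hTw v hvT
      have h2 := embOrb_le L v hvp hv0 𝔓 h𝔓1 h𝔓2
      omega
    · have hvS2 : v ∉ S := fun h => hvS (Finset.mem_filter.mpr
        ⟨hS.mem_toFinset.mpr h, hvp, hv0⟩)
      rw [hkv.2 hvS2, one_mul] at h1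
      obtain ⟨𝔓, h𝔓1, h𝔓2, h𝔓3⟩ := hU v hvp hv0 hvS2 hvT
      have h2 := embOrb_le L v hvp hv0 𝔓 h𝔓1 h𝔓2
      omega
  obtain ⟨U, hU1, hU2⟩ := absNorm_different_le K L _ hD
  refine hU2.trans ?_
  calc ∏ v ∈ U, Ideal.absNorm v ^ (if v ∈ S' then k v * n else if v ∈ T then w v else 0)
      ≤ ∏ v ∈ U, ((if v ∈ S' then Ideal.absNorm v ^ (k v * n) else 1) *
          (if v ∈ T then Ideal.absNorm v ^ w v else 1)) := by
        refine Finset.prod_le_prod' fun v hv => ?_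
        have h1 := hN1 v (hU1 v hv).2
        have h2 : 1 ≤ Ideal.absNorm v ^ w v := Nat.one_le_pow _ _ h1
        split_ifs
        · exact Nat.le_mul_of_pos_right _ h2
        · rw [mul_one]
        · rw [one_mul]
        · rw [pow_zero, mul_one]
    _ = (∏ v ∈ U, if v ∈ S' then Ideal.absNorm v ^ (k v * n) else 1) *
          ∏ v ∈ U, (if v ∈ T then Ideal.absNorm v ^ w v else 1) := Finset.prod_mul_distrib
    _ ≤ (∏ v ∈ S', Ideal.absNorm v ^ (k v * n)) * ∏ v ∈ T, Ideal.absNorm v ^ w v := by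
        rw [Finset.prod_ite_mem, Finset.prod_ite_mem]
        refine Nat.mul_le_mul ?_ ?_
        · refine Finset.prod_le_prod_of_subset_of_one_le' Finset.inter_subset_right ?_
          intro v hv _
          exact Nat.one_le_pow _ _ (hN1 v (Finset.mem_filter.mp hv).2.2)
        · refine Finset.prod_le_prod_of_subset_of_one_le' Finset.inter_subset_right ?_
          intro v hv _
          exact Nat.one_le_pow _ _ (hN1 v (hT v hv).2)

theorem dcm {n : ℕ} (hn : 2 ≤ n) (G : Subgroup (Equiv.Perm (Fin n)))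
    (hG : MulAction.IsPretransitive G (Fin n)) (K : IntermediateField ℚ QBar) [NumberField K]
    (Q : DP K QBar) (S₀ : Finset (Pl K)) (i₀ : Fin n) :
    ∃ C : ℝ, 0 < C ∧ ∀ (ρ : Gal(QBar/K) →* G), Function.Surjective ρ → FT ρ →
      ∀ (T : Finset (Pl K)) (k : Pl K → ℕ), (∀ v ∈ T, v ∉ S₀) →
        (∀ v ∈ T, ∃ h : G, ind (h : Equiv.Perm (Fin n)) ≤ k v * indG G ∧
          ∀ τ ∈ (Q.P v).inertia Gal(QBar/K), ρ τ ∈ Subgroup.zpowers h) →
        (∀ v, v ∉ S₀ → v ∉ T → ∀ τ ∈ (Q.P v).inertia Gal(QBar/K), ρ τ = 1) →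
        (H38.ML.relDisc K (fieldOf i₀ ρ) : ℝ) ≤ C * (∏ v ∈ T, (nm v : ℝ) ^ k v) ^ indG G := by
  classical
  set S : Set (Ideal (𝓞 K)) := ((S₀.image fun v : Pl K => v.asIdeal : Finset (Ideal (𝓞 K))) :
    Set (Ideal (𝓞 K))) ∪
    {v : Ideal (𝓞 K) | v.IsPrime ∧ v ≠ ⊥ ∧ ((n.factorial : ℕ) : 𝓞 K) ∈ v} with hS
  have hSf : S.Finite := (Finset.finite_toSet _).union (gdisu_fin n)
  obtain ⟨C, hC, hb⟩ := disc_bound_w QBar n S hSf (fun v hv hv0 hvS hmem =>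
    hvS (Or.inr ⟨hv, hv0, hmem⟩))
  refine ⟨C, by exact_mod_cast hC, fun ρ hρ hft T k hT hTh hT1 => ?_⟩
  obtain ⟨hfd, hdeg, -, hemb⟩ := small_field G hG K i₀ ρ hρ hft
  have hnf : NumberField (fieldOf i₀ ρ) := NumberField.of_module_finite K (fieldOf i₀ ρ)
  set T₀ : Finset (Pl K) := T.filter fun v => v.asIdeal ∉ S with hT₀
  have hS0 : ∀ v : Pl K, v.asIdeal ∉ S → v ∉ S₀ := by
    intro v hv h
    exact hv (Or.inl (Finset.mem_coe.2 (Finset.mem_image_of_mem _ h)))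
  obtain ⟨w, hw⟩ : ∃ w : Ideal (𝓞 K) → ℕ, ∀ v : Pl K, w v.asIdeal = k v * H38.ML.indG G := by
    refine ⟨fun I => if h : I.IsPrime ∧ I ≠ ⊥ then k ⟨I, h.1, h.2⟩ * H38.ML.indG G else 0,
      fun v => ?_⟩
    have h : v.asIdeal.IsPrime ∧ v.asIdeal ≠ ⊥ := ⟨v.isPrime, v.ne_bot⟩
    exact dif_pos h
  have hmain := hb (fieldOf i₀ ρ) hfd hnf hdeg (T₀.image fun v => v.asIdeal) w
    (by
      intro v hv
      obtain ⟨w, -, rfl⟩ := Finset.mem_image.1 hv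
      exact ⟨w.isPrime, w.ne_bot⟩)
    (by
      intro v hv
      obtain ⟨v', hv', rfl⟩ := Finset.mem_image.1 hv
      refine ⟨Q.P v', Q.prime v', Q.under v', ?_⟩
      rw [hemb, hw]
      obtain ⟨h, hh, hpow⟩ := hTh v' (Finset.mem_filter.1 hv').1
      have h1 : (((Q.P v').inertia Gal(QBar/K)).map ρ).map G.subtype ≤
          Subgroup.zpowers (h : Equiv.Perm (Fin n)) := by
        rintro _ ⟨g, ⟨τ, hτ, rfl⟩, rfl⟩
        obtain ⟨j, hj⟩ := Subgroup.mem_zpowers_iff.1 (hpow τ hτ)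
        refine Subgroup.mem_zpowers_iff.2 ⟨j, ?_⟩
        rw [← hj]
        simp
      have h2 := dup_orbs_anti h1
      have h3 : ind (h : Equiv.Perm (Fin n)) =
        n - orbs (Subgroup.zpowers (h : Equiv.Perm (Fin n))) := rfl
      omega)
    (by
      intro v hv hv0 hvS hvT
      have hw0 : (⟨v, hv, hv0⟩ : Pl K) ∉ S₀ := hS0 ⟨v, hv, hv0⟩ hvS
      have hwT : (⟨v, hv, hv0⟩ : Pl K) ∉ T := by
        intro h
        exact hvT (Finset.mem_image.2 ⟨⟨v, hv, hv0⟩, Finset.mem_filter.2 ⟨h, hvS⟩, rfl⟩)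
      refine ⟨Q.P ⟨v, hv, hv0⟩, Q.prime _, Q.under _, ?_⟩
      rw [hemb]
      have h1 : ((Q.P ⟨v, hv, hv0⟩).inertia Gal(QBar/K)).map ρ = ⊥ := by
        rw [eq_bot_iff]
        rintro _ ⟨τ, hτ, rfl⟩
        rw [Subgroup.mem_bot]
        exact hT1 _ hw0 hwT τ hτ
      rw [h1, Subgroup.map_bot, orbs_bot])
  have hrel : H38.ML.relDisc K (fieldOf i₀ ρ) =
      Ideal.absNorm (differentIdeal (𝓞 K) (𝓞 (fieldOf i₀ ρ))) := by
    unfold H38.ML.relDisc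
    rw [dif_pos hnf]
  rw [hrel]
  have hprod : ∏ v ∈ T₀.image (fun v : Pl K => v.asIdeal), Ideal.absNorm v ^ w v ≤
      (∏ v ∈ T, nm v ^ k v) ^ H38.ML.indG G := by
    rw [Finset.prod_image (fun a _ b _ h => HeightOneSpectrum.ext h), ← Finset.prod_pow]
    have h1 : ∀ v ∈ T₀, Ideal.absNorm v.asIdeal ^ w v.asIdeal = (nm v ^ k v) ^ H38.ML.indG G := by
      intro v _
      rw [hw, pow_mul]
      rfl
    rw [Finset.prod_congr rfl h1]
    refine Finset.prod_le_prod_of_subset_of_one_le' (Finset.filter_subset _ _) fun v _ _ => ?_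
    have h2 : 1 ≤ nm v :=
      Nat.one_le_iff_ne_zero.2 fun h => v.ne_bot (Ideal.absNorm_eq_zero_iff.1 h)
    exact Nat.one_le_pow _ _ (Nat.one_le_pow _ _ h2)
  have h2 : Ideal.absNorm (differentIdeal (𝓞 K) (𝓞 (fieldOf i₀ ρ))) ≤
      C * (∏ v ∈ T, nm v ^ k v) ^ H38.ML.indG G :=
    le_trans hmain (Nat.mul_le_mul_left _ hprod)
  exact_mod_cast h2

theorem cfm {n : ℕ} (hn : 2 ≤ n) (G : Subgroup (Equiv.Perm (Fin n)))
    (hG : MulAction.IsPretransitive G (Fin n)) (ha : 0 < indG G)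
    (K : IntermediateField ℚ QBar) [NumberField K] (Q : DP K QBar) (S₀ S' : Finset (Pl K))
    (C : Set G) (hC : ∀ h ∈ C, ind (h : Equiv.Perm (Fin n)) = indG G) (N : ℕ) (c Y₀ : ℝ)
    (hc : 0 < c) (h : ∀ Y : ℝ, Y₀ ≤ Y → Bh C N Q S₀ S' c Y) :
    ∃ c B₀ : ℝ, 0 < c ∧ ∀ B : ℝ, B₀ ≤ B →
      ((⌈c * B ^ (1 / (indG G : ℝ)) * Real.log B ^ (N - 1)⌉₊ : ℕ) : ℕ∞) ≤
        Spec.nK K QBar G B := by
  classical
  obtain ⟨a, haa⟩ : ∃ a : ℕ, a = indG G := ⟨_, rfl⟩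
  have ha0 : 0 < a := by rw [haa]; exact ha
  have ha0' : (0 : ℝ) < a := by exact_mod_cast ha0
  obtain ⟨C₂, hC₂, hdisc⟩ := dcm hn G hG K Q S₀ (⟨0, by omega⟩ : Fin n)
  obtain ⟨M, hM⟩ : ∃ M : ℕ, M = Nat.card G ^ Nat.card G := ⟨_, rfl⟩
  have hM0 : 0 < M := by
    rw [hM]
    exact pow_pos Nat.card_pos _
  have hM0' : (0 : ℝ) < M := by exact_mod_cast hM0
  have hCa : 0 < C₂ ^ (1 / (a : ℝ)) := Real.rpow_pos_of_pos hC₂ _
  obtain ⟨X₀, hX₀⟩ : ∃ X₀ : ℝ, X₀ = max 3 Y₀ := ⟨_, rfl⟩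
  have hX₀3 : 3 ≤ X₀ := by rw [hX₀]; exact le_max_left _ _
  have hX₀Y : Y₀ ≤ X₀ := by rw [hX₀]; exact le_max_right _ _
  refine ⟨c / C₂ ^ (1 / (a : ℝ)) * (1 / (2 * (a : ℝ))) ^ (N - 1) / M,
    max 1 (max (C₂ * X₀ ^ a) (C₂ ^ 2)), by positivity, fun B hB => ?_⟩
  have hB1 : 1 ≤ B := (le_max_left _ _).trans hB
  have hB2 : C₂ * X₀ ^ a ≤ B := (le_max_left _ _).trans ((le_max_right _ _).trans hB)
  have hB3 : C₂ ^ 2 ≤ B := (le_max_right _ _).trans ((le_max_right _ _).trans hB)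
  obtain ⟨X, hX1, hX2, hX3, hX4⟩ := gfinl_X a ha0 C₂ X₀ hC₂ (by linarith) B hB1 hB2 hB3
  by_cases htop : Spec.nK K QBar G B = ⊤
  · rw [htop]; exact le_top
  obtain ⟨k, hk⟩ : ∃ k : ℕ, Spec.nK K QBar G B = (k : ℕ∞) := ⟨_, (ENat.natCast_toNat htop).symm⟩
  obtain ⟨Rs, hRs, hφ⟩ := h X (hX₀Y.trans hX1)
  have h1 : ∀ ρ ∈ Rs, Function.Surjective ρ ∧ FT ρ ∧
      (relDisc K (fieldOf (⟨0, by omega⟩ : Fin n) ρ) : ℝ) ≤ B := by
    intro ρ hρ
    obtain ⟨hft, hsurj, -, T, k, hT1, hT2, hT3, hT4⟩ := hφ ρ hρ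
    refine ⟨hsurj, hft, (hdisc ρ hsurj hft T k hT1 ?_ hT4).trans ?_⟩
    · intro v hv
      obtain ⟨x, hx, hpow⟩ := hT3 v hv
      exact ⟨x, pk_ind hC hx, hpow⟩
    · rw [← haa, ← hX2]
      apply mul_le_mul_of_nonneg_left _ hC₂.le
      exact pow_le_pow_left₀ (Finset.prod_nonneg fun v _ => by positivity) hT2 a
  have h2 := many_classes G hG K (⟨0, by omega⟩ : Fin n) B Rs h1
  have h3 : ((Rs.card : ℕ) : ℕ∞) ≤ ((M * k : ℕ) : ℕ∞) := by
    refine h2.trans ?_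
    rw [Nat.cast_mul, ← hM]
    have h4 := gfinl_spec hn G K B
    rw [hk] at h4
    exact mul_le_mul_right h4 _
  have h5 : Rs.card ≤ M * k := by exact_mod_cast h3
  have h6 : (Rs.card : ℝ) ≤ M * k := by exact_mod_cast h5
  have h7 : c * X * Real.log X ^ (N - 1) ≤ M * k := hRs.trans h6
  have hlB : 0 ≤ Real.log B := Real.log_nonneg hB1
  have h8 : (1 / (2 * (a : ℝ)) * Real.log B) ^ (N - 1) ≤ Real.log X ^ (N - 1) :=
    pow_le_pow_left₀ (by positivity) hX4 _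
  have hXp : 0 < X := by linarith
  have h9 : c * X * (1 / (2 * (a : ℝ)) * Real.log B) ^ (N - 1) ≤ M * k :=
    (mul_le_mul_of_nonneg_left h8 (by positivity)).trans h7
  rw [← haa]
  have h10 : c / C₂ ^ (1 / (a : ℝ)) * (1 / (2 * (a : ℝ))) ^ (N - 1) / M * B ^ (1 / (a : ℝ)) *
      Real.log B ^ (N - 1) = c * X * (1 / (2 * (a : ℝ)) * Real.log B) ^ (N - 1) / M := by
    rw [hX3, mul_pow]
    field_simp
  have h11 : c / C₂ ^ (1 / (a : ℝ)) * (1 / (2 * (a : ℝ))) ^ (N - 1) / M * B ^ (1 / (a : ℝ)) *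
      Real.log B ^ (N - 1) ≤ (k : ℝ) := by
    rw [h10, div_le_iff₀ hM0']
    linarith
  rw [hk]
  exact_mod_cast Nat.ceil_le.2 h11

end H88.LH
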