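import Pool.Agent.H88.LH.Defs

/-!
# [H88 LH ACT] MP_b39724_nt, theorem LH: the action of `G` on `EE` and the embedding `io`

* `mm g x = (rp (g • x))⁻¹ * g * rp x ∈ M`, `mm_mul`.
* `ac : G →* MulAut EE`, `(ac g f) (g • x) = mm g x * f x * (mm g x)⁻¹`.
* `io : EE →* G`, `io f = ∏ rp x * f x * (rp x)⁻¹`; `io_ac`, `io_inj`, `io_single`.
* `TT`: the subgroup generated by the conjugates of `D`; `io_mem`, `tp_com`: `T'` centralises `D`.
-/

set_option autoImplicit false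

open scoped Classical

noncomputable section

namespace H88.LH

open H77.PC3

variable {p N : ℕ} {G : Type} [Group G] (Y : LY p N G)

/-- the element of `M` -/
def LY.mm (g : G) (x : Y.XX) : G := (Y.rp (g • x))⁻¹ * g * Y.rp x

theorem LY.mm_mem (g : G) (x : Y.XX) : Y.mm g x ∈ Y.M := by
  unfold LY.mm
  rw [mul_assoc, ← QuotientGroup.eq, Y.rp_mk]
  have h : (QuotientGroup.mk (g * Y.rp x) : Y.XX) = g • (QuotientGroup.mk (Y.rp x) : Y.XX) := rfl
  rw [h, Y.rp_mk]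

theorem LY.mm_mul (g h : G) (x : Y.XX) : Y.mm (g * h) x = Y.mm g (h • x) * Y.mm h x := by
  unfold LY.mm
  rw [mul_smul]
  group

theorem LY.mm_one (x : Y.XX) : Y.mm 1 x = 1 := by
  unfold LY.mm
  rw [one_smul]
  group

theorem LY.rp_mm (g : G) (x : Y.XX) : Y.rp (g • x) * Y.mm g x = g * Y.rp x := by
  unfold LY.mm
  group

/-- `M` acts on `D` -/
theorem LY.nrm {m : G} (hm : m ∈ Y.M) {d : G} (hd : d ∈ Y.D) : m * d * m⁻¹ ∈ Y.D :=
  (Subgroup.mem_normalizer_iff.1 hm d).1 hd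

/-- conjugation of `D` by an element of `M` -/
def LY.cj (m : G) (hm : m ∈ Y.M) : Y.D →* Y.D where
  toFun d := ⟨m * d * m⁻¹, Y.nrm hm d.2⟩
  map_one' := by
    apply Subtype.ext
    simp
  map_mul' a b := by
    apply Subtype.ext
    simp only [Subgroup.coe_mul]
    group

theorem LY.cj_ap (m : G) (hm : m ∈ Y.M) (d : Y.D) : ((Y.cj m hm d : Y.D) : G) = m * d * m⁻¹ := rfl

/-- the action, one element -/
def LY.ac1 (g : G) : Y.EE →* Y.EE where
  toFun f y := Y.cj (Y.mm g (g⁻¹ • y)) (Y.mm_mem _ _) (f (g⁻¹ • y))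
  map_one' := by
    funext y
    simp
  map_mul' a b := by
    funext y
    simp

theorem LY.ac1_ap (g : G) (f : Y.EE) (x : Y.XX) :
    ((Y.ac1 g f (g • x) : Y.D) : G) = Y.mm g x * f x * (Y.mm g x)⁻¹ := by
  show Y.mm g (g⁻¹ • g • x) * (f (g⁻¹ • g • x) : G) * (Y.mm g (g⁻¹ • g • x))⁻¹ = _
  rw [inv_smul_smul]

theorem LY.ac1_mul (g h : G) (f : Y.EE) : Y.ac1 (g * h) f = Y.ac1 g (Y.ac1 h f) := by
  funext y
  obtain ⟨x, rfl⟩ : ∃ x, (g * h) • x = y := ⟨(g * h)⁻¹ • y, smul_inv_smul _ _⟩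
  apply Subtype.ext
  rw [Y.ac1_ap, mul_smul, Y.ac1_ap, Y.ac1_ap, Y.mm_mul]
  group

theorem LY.ac1_one (f : Y.EE) : Y.ac1 1 f = f := by
  funext y
  obtain ⟨x, rfl⟩ : ∃ x, (1 : G) • x = y := ⟨y, one_smul _ _⟩
  apply Subtype.ext
  rw [Y.ac1_ap, Y.mm_one, one_smul]
  group

/-- the action of `G` on `EE` -/
def LY.ac : G →* MulAut Y.EE where
  toFun g :=
    { toFun := Y.ac1 g
      invFun := Y.ac1 g⁻¹
      left_inv := fun f => by rw [← Y.ac1_mul, inv_mul_cancel, Y.ac1_one]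
      right_inv := fun f => by rw [← Y.ac1_mul, mul_inv_cancel, Y.ac1_one]
      map_mul' := map_mul (Y.ac1 g) }
  map_one' := MulEquiv.ext fun f => Y.ac1_one f
  map_mul' g h := MulEquiv.ext fun f => Y.ac1_mul g h f

theorem LY.ac_ap (g : G) (f : Y.EE) (x : Y.XX) :
    ((Y.ac g f (g • x) : Y.D) : G) = Y.mm g x * f x * (Y.mm g x)⁻¹ := Y.ac1_ap g f x

theorem LY.ac_ap' (g : G) (f : Y.EE) (x : Y.XX) :
    Y.ac g f (g • x) = Y.cj (Y.mm g x) (Y.mm_mem _ _) (f x) := Subtype.ext (Y.ac1_ap g f x)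

/-- one coordinate -/
def LY.i1 (x : Y.XX) : Y.D →* G where
  toFun d := Y.rp x * d * (Y.rp x)⁻¹
  map_one' := by simp
  map_mul' a b := by
    simp only [Subgroup.coe_mul]
    group

theorem LY.i1_ap (x : Y.XX) (d : Y.D) : Y.i1 x d = Y.rp x * d * (Y.rp x)⁻¹ := rfl

theorem LY.i1_inj (x : Y.XX) : Function.Injective (Y.i1 x) := by
  intro a b h
  rw [Y.i1_ap, Y.i1_ap] at h
  exact Subtype.ext (mul_left_cancel (mul_right_cancel h))

theorem LY.rp_ne {x y : Y.XX} (h : x ≠ y) : (Y.rp x)⁻¹ * Y.rp y ∉ Y.M := by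
  intro h1
  rw [← QuotientGroup.eq, Y.rp_mk, Y.rp_mk] at h1
  exact h h1

/-- conjugates of `D` for different cosets commute -/
theorem LY.com2 {g h : G} (hgh : g⁻¹ * h ∉ Y.M) {a b : G} (ha : a ∈ Y.D) (hb : b ∈ Y.D) :
    g * a * g⁻¹ * (h * b * h⁻¹) = h * b * h⁻¹ * (g * a * g⁻¹) := by
  have h1 := Y.com _ hgh a ha b hb
  have e1 : g * a * g⁻¹ * (h * b * h⁻¹) =
      g * (a * (g⁻¹ * h * b * (g⁻¹ * h)⁻¹)) * g⁻¹ := by group
  have e2 : h * b * h⁻¹ * (g * a * g⁻¹) =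
      g * (g⁻¹ * h * b * (g⁻¹ * h)⁻¹ * a) * g⁻¹ := by group
  rw [e1, e2, h1]

theorem LY.i1_com : Pairwise fun x y : Y.XX => ∀ a b, Commute (Y.i1 x a) (Y.i1 y b) :=
  fun _ _ hxy a b => Y.com2 (Y.rp_ne hxy) a.2 b.2

variable [Finite G]

instance : Finite Y.XX := Quotient.finite _

instance : Fintype Y.XX := Fintype.ofFinite _

/-- the embedding -/
def LY.io : Y.EE →* G := MonoidHom.noncommPiCoprod Y.i1 Y.i1_com

theorem LY.io_single (x : Y.XX) (d : Y.D) : Y.io (Pi.mulSingle x d) = Y.rp x * d * (Y.rp x)⁻¹ := by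
  unfold LY.io
  rw [MonoidHom.noncommPiCoprod_mulSingle]
  rfl

/-- equivariance -/
theorem LY.io_ac (g : G) (f : Y.EE) : Y.io (Y.ac g f) = g * Y.io f * g⁻¹ := by
  have h : Y.io.comp (Y.ac g).toMonoidHom = (MulAut.conj g).toMonoidHom.comp Y.io := by
    refine MonoidHom.pi_ext fun x d => ?_
    show Y.io (Y.ac g (Pi.mulSingle x d)) = g * Y.io (Pi.mulSingle x d) * g⁻¹
    have h1 : Y.ac g (Pi.mulSingle x d) =
        Pi.mulSingle (g • x) (Y.cj (Y.mm g x) (Y.mm_mem _ _) d) := by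
      funext y
      obtain ⟨z, rfl⟩ : ∃ z, g • z = y := ⟨g⁻¹ • y, smul_inv_smul _ _⟩
      rw [Y.ac_ap']
      by_cases hz : z = x
      · subst hz
        rw [Pi.mulSingle_eq_same, Pi.mulSingle_eq_same]
      · rw [Pi.mulSingle_eq_of_ne hz, Pi.mulSingle_eq_of_ne fun h => hz (MulAction.injective g h),
          map_one]
    rw [h1, Y.io_single, Y.io_single, Y.cj_ap]
    have h2 := Y.rp_mm g x
    have e : Y.rp (g • x) * (Y.mm g x * (d : G) * (Y.mm g x)⁻¹) * (Y.rp (g • x))⁻¹ =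
        Y.rp (g • x) * Y.mm g x * (d : G) * (Y.rp (g • x) * Y.mm g x)⁻¹ := by group
    rw [e, h2]
    group
  exact DFunLike.congr_fun h f

/-- the product of the coordinates outside `1` is in `T'` -/
theorem LY.io_tp (f : Y.EE) (h : f (QuotientGroup.mk 1) = 1) : Y.io f ∈ Y.T' := by
  have h1 : Y.io f ∈ Subgroup.closure {z : G | ∃ x d, x ≠ QuotientGroup.mk 1 ∧
      z = Y.i1 x d} := by
    unfold LY.io
    rw [MonoidHom.noncommPiCoprod_apply]
    refine Subgroup.noncommProd_mem _ _ fun x _ => ?_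
    by_cases hx : x = QuotientGroup.mk 1
    · rw [hx, h, map_one]
      exact Subgroup.one_mem _
    · exact Subgroup.subset_closure ⟨x, f x, hx, rfl⟩
  refine Subgroup.closure_mono ?_ h1
  rintro z ⟨x, d, hx, rfl⟩
  refine ⟨Y.rp x, fun h2 => hx ?_, d, d.2, rfl⟩
  rw [← Y.rp_mk x, QuotientGroup.eq]
  have := Y.M.inv_mem h2
  rwa [mul_one]

theorem LY.io_split (f : Y.EE) : ∃ f' : Y.EE, f' (QuotientGroup.mk 1) = 1 ∧
    Y.io f = f (QuotientGroup.mk 1) * Y.io f' := by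
  refine ⟨(Pi.mulSingle (QuotientGroup.mk 1) (f (QuotientGroup.mk 1)))⁻¹ * f, ?_, ?_⟩
  · rw [Pi.mul_apply, Pi.inv_apply, Pi.mulSingle_eq_same, inv_mul_cancel]
  · rw [map_mul, map_inv, Y.io_single, Y.rp_one]
    group

omit [Finite G] in
/-- `T'` centralises `D` -/
theorem LY.tp_com {t d : G} (ht : t ∈ Y.T') (hd : d ∈ Y.D) : t * d = d * t := by
  have h : Y.T' ≤ Subgroup.centralizer (Y.D : Set G) := by
    unfold LY.T'
    rw [Subgroup.closure_le]
    rintro z ⟨g, hg, y, hy, rfl⟩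
    refine Subgroup.mem_centralizer_iff.2 fun d hd => ?_
    exact Y.com g hg d hd y hy
  exact ((Subgroup.mem_centralizer_iff.1 (h ht)) d hd).symm

/-- `io` is injective -/
theorem LY.io_inj : Function.Injective Y.io := by
  rw [injective_iff_map_eq_one]
  intro f hf
  funext x
  -- move `x` to `1`
  obtain ⟨g, hg⟩ : ∃ g : G, g • x = QuotientGroup.mk 1 := by
    refine ⟨(Y.rp x)⁻¹, ?_⟩
    have h0 : (Y.rp x)⁻¹ • (QuotientGroup.mk (Y.rp x) : Y.XX) =
        QuotientGroup.mk ((Y.rp x)⁻¹ * Y.rp x) := rfl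
    rw [Y.rp_mk, inv_mul_cancel] at h0
    exact h0
  have h1 : Y.io (Y.ac g f) = 1 := by rw [Y.io_ac, hf, mul_one, mul_inv_cancel]
  obtain ⟨f', hf', h2⟩ := Y.io_split (Y.ac g f)
  rw [h1] at h2
  have h3 : ((Y.ac g f (QuotientGroup.mk 1) : Y.D) : G) = (Y.io f')⁻¹ :=
    eq_inv_of_mul_eq_one_left h2.symm
  have h4 : ((Y.ac g f (QuotientGroup.mk 1) : Y.D) : G) = 1 := by
    refine Y.ind _ (Y.ac g f (QuotientGroup.mk 1)).2 ?_
    rw [h3]
    exact Subgroup.inv_mem _ (Y.io_tp f' hf')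
  rw [← hg, Y.ac_ap, mul_inv_eq_one] at h4
  have h5 : (f x : G) = 1 := by
    have h6 : Y.mm g x * (f x : G) = Y.mm g x * 1 := by rw [h4, mul_one]
    exact mul_left_cancel h6
  exact Subtype.ext h5

/-- the coordinates of `io f` -/
theorem LY.io_mem_nc (f : Y.EE) : Y.io f ∈ Subgroup.normalClosure (Y.D : Set G) := by
  unfold LY.io
  rw [MonoidHom.noncommPiCoprod_apply]
  refine Subgroup.noncommProd_mem _ _ fun x _ => ?_
  exact (Subgroup.normalClosure_normal).conj_mem _ (Subgroup.subset_normalClosure (f x).2) _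

end H88.LH
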