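import Pool.Agent.H88.LH.Act

/-!
# [H88 LH SRJ] MP_b39724_nt, theorem LH (think 1911 (6)): the criterion for surjectivity
-/

set_option autoImplicit false

open scoped Classical

noncomputable section

namespace H88.LH

open H77.PC3

variable {p N : ℕ} {G : Type} [Group G] [Finite G] (Y : LY p N G)

theorem srj (S : Subgroup G)
    (ha : ∀ g : G, ∃ s ∈ S, s⁻¹ * g ∈ Subgroup.normalClosure (Y.D : Set G))
    (hb : ∀ m ∈ Y.M, ∃ s ∈ S, m⁻¹ * s ∈ Y.T')
    (hc : ∀ i : Fin N, ∃ (g c : G), c ∈ Y.D ∧ IsConj c (Y.cl.g i) ∧ g * c * g⁻¹ ∈ S) :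
    S = ⊤ := by
  -- `normalClosure D` normalises `D`
  have hnc : Subgroup.normalClosure (Y.D : Set G) ≤ Y.M := by
    unfold Subgroup.normalClosure
    rw [Subgroup.closure_le]
    intro z hz
    obtain ⟨d, hd, hdz⟩ := Group.mem_conjugatesOfSet_iff.1 hz
    obtain ⟨g, rfl⟩ := isConj_iff.1 hdz
    by_cases hg : g ∈ Y.M
    · exact Y.D_le (Y.nrm hg hd)
    · refine Subgroup.mem_normalizer_iff.2 fun y => ?_
      have key : ∀ y ∈ Y.D, ∀ d ∈ Y.D, g * d * g⁻¹ * y * (g * d * g⁻¹)⁻¹ = y := by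
        intro y hy d hd
        rw [← Y.com g hg y hy d hd]
        group
      constructor
      · intro hy
        rw [key y hy d hd]
        exact hy
      · intro hy
        have h1 := key _ hy d⁻¹ (Y.D.inv_mem hd)
        have e : g * d⁻¹ * g⁻¹ * (g * d * g⁻¹ * y * (g * d * g⁻¹)⁻¹) * (g * d⁻¹ * g⁻¹)⁻¹ = y := by
          group
        rw [e] at h1
        rw [h1]
        exact hy
  -- a conjugate of `c` under `M` in `S`
  have h1 : ∀ i : Fin N, ∃ c : G, c ∈ Y.D ∧ IsConj c (Y.cl.g i) ∧ c ∈ S := by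
    intro i
    obtain ⟨g, c, hc1, hc2, hc3⟩ := hc i
    obtain ⟨s, hs, ht⟩ := ha g
    obtain ⟨t, ht'⟩ : ∃ t, t = s⁻¹ * g := ⟨_, rfl⟩
    rw [← ht'] at ht
    refine ⟨t * c * t⁻¹, Y.nrm (hnc ht) hc1, ?_, ?_⟩
    · exact (isConj_iff.2 ⟨t, rfl⟩ : IsConj c (t * c * t⁻¹)).symm.trans hc2
    · have h2 := S.mul_mem (S.mul_mem (S.inv_mem hs) hc3) hs
      have e : s⁻¹ * (g * c * g⁻¹) * s = t * c * t⁻¹ := by
        rw [ht']
        group
      rwa [e] at h2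
  -- elements of `D` conjugate in `G` are conjugate in `M`
  have h2 : ∀ x ∈ Y.D, (∃ i, IsConj x (Y.cl.g i)) → x ∈ S := by
    rintro x hx ⟨i, hxi⟩
    obtain ⟨c, hc1, hc2, hc3⟩ := h1 i
    obtain ⟨m, hm⟩ := isConj_iff.1 (hc2.trans hxi.symm)
    have hmM : m ∈ Y.M := by
      by_contra hmM
      have h3 := Y.ind x hx (Subgroup.subset_closure ⟨m, hmM, c, hc1, hm.symm⟩)
      subst h3
      exact Y.cl.ne i (isConj_one_right.1 hxi)
    obtain ⟨s, hs, hst⟩ := hb m hmM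
    obtain ⟨t, ht⟩ : ∃ t, t = m⁻¹ * s := ⟨_, rfl⟩
    rw [← ht] at hst
    have e : s = m * t := by rw [ht, mul_inv_cancel_left]
    have h4 := S.mul_mem (S.mul_mem hs hc3) (S.inv_mem hs)
    have h5 : s * c * s⁻¹ = x := by
      rw [e]
      have h6 : m * t * c * (m * t)⁻¹ = m * (t * c * t⁻¹) * m⁻¹ := by group
      rw [h6, Y.tp_com hst hc1]
      rw [← hm]
      group
    rwa [h5] at h4
  have h3 : Y.D ≤ S := by
    rw [Y.gen, Subgroup.closure_le]
    rintro x ⟨hx, hi⟩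
    exact h2 x hx hi
  have h4 : Subgroup.normalClosure (Y.D : Set G) ≤ S := by
    unfold Subgroup.normalClosure
    rw [Subgroup.closure_le]
    intro z hz
    obtain ⟨d, hd, hdz⟩ := Group.mem_conjugatesOfSet_iff.1 hz
    obtain ⟨g, rfl⟩ := isConj_iff.1 hdz
    obtain ⟨s, hs, ht⟩ := ha g
    obtain ⟨t, ht'⟩ : ∃ t, t = s⁻¹ * g := ⟨_, rfl⟩
    rw [← ht'] at ht
    have h5 := Y.nrm (hnc ht) hd
    have h6 := S.mul_mem (S.mul_mem hs (h3 h5)) (S.inv_mem hs)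
    have e : s * (t * d * t⁻¹) * s⁻¹ = g * d * g⁻¹ := by
      rw [ht']
      group
    rwa [e] at h6
  rw [eq_top_iff]
  intro g _
  obtain ⟨s, hs, ht⟩ := ha g
  have h5 := S.mul_mem hs (h4 ht)
  rwa [mul_inv_cancel_left] at h5

end H88.LH
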