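import Pool.Agent.H88.LH.Loc
import Pool.Agent.H88.LH.Srj
import Pool.Agent.H88.LH.Fth
import Pool.Agent.H88.LH.Spx
import Pool.Agent.H38.BG.AKn
import Pool.Agent.H38.ML.UnrFin
import Pool.Agent.H38.ML.RootInert
import Pool.Agent.H63.MA.SymA

/-!
# [H88 LH FTX] MP_b39724_nt, theorem LH: preparations for the induction

* `unrf`: a homomorphism of finite type is unramified outside a finite set. `kk0`: the field `K₀`.
* `ft_ind`: the induced homomorphism is of finite type. `su_ind`: it is surjective.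
* `ev`: the homomorphism from the subgroup of `EE ⋊ G` over `M` to `D ⋊ M`.
-/

set_option autoImplicit false

open scoped NumberField Pointwise
open IsDedekindDomain H38.ML
open scoped Classical

noncomputable section

namespace H88.LH

open H63.MA H38.BB H38.BG H77.PC3

theorem unrf {K Ω : Type} [Field K] [NumberField K] [Field Ω] [Algebra K Ω] [IsAlgClosure K Ω]
    {H : Type} [Group H] (φ : Gal(Ω/K) →* H) (hφ : FT φ) :
    ∃ SU : Finset (Pl K), ∀ v, v ∉ SU → ∀ 𝔓 : Ideal (𝓞 Ω), 𝔓.IsPrime →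
      𝔓.under (𝓞 K) = v.asIdeal → ∀ τ ∈ 𝔓.inertia Gal(Ω/K), φ τ = 1 := by
  obtain ⟨M, hfd, hgal, e, he, h⟩ := H38.ML.factor φ hφ
  haveI : NumberField M := NumberField.of_module_finite K M
  have hfin := H38.ML.finite_not_unr K M
  have hinj : Function.Injective (fun v : Pl K => v.asIdeal) := fun v w hvw =>
    HeightOneSpectrum.ext hvw
  have hf1 : {v : Pl K | v.asIdeal.IsPrime ∧ v.asIdeal ≠ ⊥ ∧ ¬ Unr K M v.asIdeal}.Finite :=
    hfin.preimage hinj.injOn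
  refine ⟨hf1.toFinset, fun v hv 𝔓 h𝔓 hun τ hτ => ?_⟩
  have hu : Unr K M v.asIdeal := by
    by_contra hu
    exact hv (hf1.mem_toFinset.2 ⟨v.isPrime, v.ne_bot, hu⟩)
  rw [← hun] at hu
  have h1 := H38.ML.res_eq_one M 𝔓 hu τ hτ
  rw [← h, h1, map_one]

/-- the field `K₀` -/
theorem kk0 (A : Type) [Group A] [Finite A] (m : ℕ) (hm : 0 < m) :
    ∃ K₀ : IntermediateField ℚ QBar, NumberField K₀ ∧
      ∀ K : IntermediateField ℚ QBar, K₀ ≤ K → ∀ _ : NumberField K,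
        (∃ ρ : Gal(QBar/K) →* A, Function.Surjective ρ ∧ FT ρ) ∧
        ∃ z : K, IsPrimitiveRoot z m := by
  have : NeZero m := ⟨hm.ne'⟩
  obtain ⟨K₀, hK₀, h⟩ := akn (A × Multiplicative (ZMod m))
  refine ⟨K₀, hK₀, fun K hK hKf => ?_⟩
  obtain ⟨⟨ρ, hρ, hρ'⟩, ⟨z, hz⟩, -⟩ := h K hK hKf
  refine ⟨⟨(MonoidHom.fst _ _).comp ρ, ?_, H38.ML.ft_comp _ _ hρ'⟩, z ^ Nat.card A, ?_⟩
  · intro a
    obtain ⟨σ, hσ⟩ := hρ (a, 1)
    exact ⟨σ, by rw [MonoidHom.comp_apply, hσ]; rfl⟩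
  · have h1 : Nat.card (A × Multiplicative (ZMod m)) = Nat.card A * m := by
      rw [Nat.card_prod]
      congr 1
      exact Nat.card_zmod m
    rw [h1] at hz
    exact hz.pow (Nat.mul_pos Nat.card_pos hm) rfl

variable {K F : IntermediateField ℚ QBar} [NumberField K] [NumberField F]
  {p N : ℕ} {G : Type} [Group G] [Finite G] (Y : LY p N G)

/-- the induced homomorphism is of finite type -/
theorem ft_ind {φ₀ : Gal(QBar/K) →* G} (hφ₀ : FT φ₀) (X : FE K F (Y.M.comap φ₀))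
    {r : Y.XX → Gal(QBar/K)} {θ : Gal(QBar/F) →* Y.M} (hθ : FT θ) {φ : Gal(QBar/K) →* G}
    (hI : IsInd Y φ₀ X.j r θ φ) : FT φ := by
  obtain ⟨E₁, hE₁, hle₁⟩ := hφ₀
  obtain ⟨E₂, hE₂, hle₂⟩ := hθ
  let b := Module.finBasis F E₂
  have hfin : Finite (Set.range fun i => ((b i : E₂) : QBar)) := Set.finite_range _
  obtain ⟨E₃, hE₃⟩ : ∃ E₃, E₃ = IntermediateField.adjoin K
      (Set.range fun i => ((b i : E₂) : QBar)) := ⟨_, rfl⟩
  have hfd₃ : FiniteDimensional K E₃ := by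
    rw [hE₃]
    exact IntermediateField.finiteDimensional_adjoin fun x _ =>
      (IsAlgClosure.isAlgebraic (R := K) (K := QBar)).isAlgebraic x |>.isIntegral
  -- elements `h` of the group of `F` fixing `E₃`
  have hh : ∀ h : Gal(QBar/F), X.j h ∈ E₃.fixingSubgroup → θ h = 1 := by
    intro h hh
    have h0 : h ∈ E₂.fixingSubgroup := by
      rw [IntermediateField.mem_fixingSubgroup_iff] at hh ⊢
      have h1 : ∀ i, h ((b i : E₂) : QBar) = ((b i : E₂) : QBar) := by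
        intro i
        rw [← X.act]
        refine hh _ ?_
        rw [hE₃]
        exact IntermediateField.subset_adjoin _ _ ⟨i, rfl⟩
      intro x hx
      have h2 := congrArg (fun y : E₂ => (y : QBar)) (b.sum_repr ⟨x, hx⟩)
      have h3 : x = ∑ i, algebraMap F QBar (b.repr ⟨x, hx⟩ i) * ((b i : E₂) : QBar) := by
        refine Eq.trans h2.symm ?_
        push_cast
        rfl
      rw [h3, map_sum]
      refine Finset.sum_congr rfl fun i _ => ?_
      rw [map_mul, AlgEquiv.commutes, h1]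
    exact hle₂ h0
  -- the field
  refine ⟨E₁ ⊔ ⨆ x : Y.XX, E₃.map (r x : QBar →ₐ[K] QBar), inferInstance, fun σ hσ => ?_⟩
  have h1 : φ₀ σ = 1 :=
    hle₁ (IntermediateField.fixingSubgroup_antitone le_sup_left hσ)
  have h2 : ∀ x : Y.XX, (r x)⁻¹ * σ * r x ∈ E₃.fixingSubgroup := by
    intro x
    have h3 : σ ∈ (E₃.map (r x : QBar →ₐ[K] QBar)).fixingSubgroup :=
      IntermediateField.fixingSubgroup_antitone
        (le_trans (le_iSup (fun x : Y.XX => E₃.map (r x : QBar →ₐ[K] QBar)) x) le_sup_right) hσ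
    rw [IntermediateField.mem_fixingSubgroup_iff] at h3 ⊢
    intro y hy
    have h4 := h3 (r x y) ⟨y, hy, rfl⟩
    show (r x)⁻¹ (σ (r x y)) = y
    rw [h4]
    show ((r x)⁻¹ * r x) y = y
    rw [inv_mul_cancel]
    rfl
  obtain ⟨f, hf, hf'⟩ := lo2 hI σ h1
  have h3 : f = 1 := by
    funext x
    obtain ⟨h, hhj, -⟩ := lo_h φ₀ X r x σ h1
    apply Subtype.ext
    rw [hf' x h hhj, hh h (by rw [hhj]; exact h2 x)]
    rfl
  rw [MonoidHom.mem_ker, hf, h3, map_one]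

omit [Finite G] in
theorem tp_nrm {m t : G} (hm : m ∈ Y.M) (ht : t ∈ Y.T') : m * t * m⁻¹ ∈ Y.T' := by
  have h : Y.T' ≤ Y.T'.comap (MulAut.conj m).toMonoidHom := by
    conv_lhs => unfold LY.T'
    rw [Subgroup.closure_le]
    rintro z ⟨g, hg, y, hy, rfl⟩
    show m * (g * y * g⁻¹) * m⁻¹ ∈ Y.T'
    refine Subgroup.subset_closure ⟨m * g, fun h => hg ?_, y, hy, by group⟩
    have := Y.M.mul_mem (Y.M.inv_mem hm) h
    rwa [inv_mul_cancel_left] at this
  exact h ht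

/-- the induced homomorphism is surjective -/
theorem su_ind {φ₀ : Gal(QBar/K) →* G} {X : FE K F (Y.M.comap φ₀)}
    {r : Y.XX → Gal(QBar/K)} {θ : Gal(QBar/F) →* Y.M} {φ : Gal(QBar/K) →* G} {QK : DP K QBar}
    {QF : DP F QBar} {S0 : Finset (Pl F)} {SK : Finset (Pl K)} {bl : Pl F → Pl K}
    (hS : LS Y φ₀ X r θ φ QK QF S0 SK bl) (hr1 : r (QuotientGroup.mk 1) = 1) (hp : p.Prime)
    {Yv : ℝ} (hT : Tf QF S0 Y.cM bl (↑SK : Set (Pl K)) Yv θ) (hθs : Function.Surjective θ) :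
    Function.Surjective φ := by
  rw [← MonoidHom.range_eq_top]
  refine srj Y φ.range ?_ ?_ fun i => loc_c hS hp hT i
  · intro g
    obtain ⟨σ, rfl⟩ := hS.sj0 g
    obtain ⟨f, hf, -⟩ := hS.hI σ
    refine ⟨φ σ, ⟨σ, rfl⟩, ?_⟩
    rw [hf]
    have h1 := (Subgroup.normalClosure_normal (s := (Y.D : Set G))).conj_mem _
      (Subgroup.inv_mem _ (Y.io_mem_nc f)) (φ₀ σ)⁻¹
    have e : (Y.io f * φ₀ σ)⁻¹ * φ₀ σ = (φ₀ σ)⁻¹ * (Y.io f)⁻¹ * ((φ₀ σ)⁻¹)⁻¹ := by group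
    rw [e]
    exact h1
  · intro m hm
    obtain ⟨h, hh⟩ := hθs ⟨m, hm⟩
    obtain ⟨f, hf, hf'⟩ := hS.hI (X.j h)
    have hμ : φ₀ (X.j h) ∈ Y.M := by
      have h6 : X.j h ∈ X.j.range := ⟨h, rfl⟩
      rw [X.rng] at h6
      exact h6
    have h2 : φ₀ (X.j h) • (QuotientGroup.mk 1 : Y.XX) = QuotientGroup.mk 1 := by
      show (QuotientGroup.mk (φ₀ (X.j h) * 1) : Y.XX) = _
      rw [mul_one]
      refine (QuotientGroup.eq.2 ?_).symm
      rwa [inv_one, one_mul]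
    have h3 := hf' _ _ h h2 (by rw [hr1, inv_one, one_mul, mul_one])
    obtain ⟨f', hf'1, hsp⟩ := Y.io_split f
    refine ⟨φ (X.j h), ⟨X.j h, rfl⟩, ?_⟩
    rw [hf, hsp, h3, hh]
    have h4 := tp_nrm Y (Y.M.inv_mem hμ) (Y.io_tp f' hf'1)
    have e : m⁻¹ * (((⟨m, hm⟩ : Y.M) : G) * (φ₀ (X.j h))⁻¹ * Y.io f' * φ₀ (X.j h)) =
        (φ₀ (X.j h))⁻¹ * Y.io f' * ((φ₀ (X.j h))⁻¹)⁻¹ := by
      show m⁻¹ * (m * (φ₀ (X.j h))⁻¹ * Y.io f' * φ₀ (X.j h)) = _
      group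
    rw [e]
    exact h4

/-- the group `EE ⋊ G` -/
abbrev LY.AA : Type := SemidirectProduct Y.EE G Y.ac

omit [Finite G] in
theorem LY.ac_one (m : Y.M) (f : Y.EE) :
    Y.ac (m : G) f (QuotientGroup.mk 1) = Y.cj m m.2 (f (QuotientGroup.mk 1)) := by
  have h2 : (m : G) • (QuotientGroup.mk 1 : Y.XX) = QuotientGroup.mk 1 := by
    show (QuotientGroup.mk ((m : G) * 1) : Y.XX) = _
    rw [mul_one]
    refine (QuotientGroup.eq.2 ?_).symm
    rw [inv_one, one_mul]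
    exact m.2
  have h3 := Y.ac_ap (m : G) f (QuotientGroup.mk 1)
  rw [h2] at h3
  apply Subtype.ext
  rw [h3]
  have h4 : Y.mm (m : G) (QuotientGroup.mk 1) = m := by
    unfold LY.mm
    rw [h2, Y.rp_one]
    group
  rw [h4]
  rfl

/-- evaluation at the coset `1` -/
def LY.ev : (Y.M.comap (SemidirectProduct.rightHom : Y.AA →* G)) →* DM (Y.D.subgroupOf Y.M) where
  toFun a := ⟨⟨⟨(a.1.left (QuotientGroup.mk 1) : Y.D), Y.D_le (a.1.left _).2⟩,
    (a.1.left (QuotientGroup.mk 1)).2⟩, ⟨a.1.right, a.2⟩⟩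
  map_one' := by
    refine SemidirectProduct.ext ?_ ?_
    · rfl
    · rfl
  map_mul' a b := by
    refine SemidirectProduct.ext ?_ ?_
    · apply Subtype.ext
      apply Subtype.ext
      show (((a.1.left * Y.ac a.1.right b.1.left) (QuotientGroup.mk 1) : Y.D) : G) =
        (a.1.left (QuotientGroup.mk 1) : G) * (a.1.right * (b.1.left (QuotientGroup.mk 1) : G) *
          (a.1.right)⁻¹)
      have h := Y.ac_one ⟨a.1.right, a.2⟩ b.1.left
      rw [Pi.mul_apply, Subgroup.coe_mul]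
      rw [show Y.ac a.1.right b.1.left (QuotientGroup.mk 1) = _ from h]
      rfl
    · rfl

omit [Finite G] in
theorem LY.ev_surj : Function.Surjective Y.ev := by
  rintro ⟨d, m⟩
  refine ⟨⟨⟨Pi.mulSingle (QuotientGroup.mk 1) ⟨(d : Y.M), d.2⟩, m⟩, m.2⟩, ?_⟩
  refine SemidirectProduct.ext ?_ ?_
  · apply Subtype.ext
    apply Subtype.ext
    show (((Pi.mulSingle (QuotientGroup.mk 1) ⟨(d : Y.M), d.2⟩ : Y.EE)
      (QuotientGroup.mk 1) : Y.D) : G) = _
    rw [Pi.mulSingle_eq_same]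
  · rfl

end H88.LH
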