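import Pool.Agent.H88.LH.Hfr

/-!
# [H88 LH HCT] MP_b39724_nt, theorem LH (think 1911 (1)): many homomorphisms `ψ : Γ_F → U`

As the first half of `H51.HD.hdlow`, with `S0` containing given finite sets (`H38.BB.exists_RD_of`; take also the places over `p` and all places where `Θ` or `ψ₀` is ramified, as in `H38.BG.ard`), the local data with the
primes of the given `Q'` (`H38.AS.lds_of`), and the homomorphisms of `SYT L Q' (cU Q) (H51.F3.Tc (cU Q)) ψ₀ Y`: they are in `PU` (`syt_sub`), their second component is `pr φ₀` (`hd_rt`), and they are trivial on `dec (Q'.P w)`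
for `w ∈ S'` (`TqT`, `ψ₀` is trivial there). Finite set: `pu_fin`.
-/

set_option autoImplicit false

open scoped NumberField
open IsDedekindDomain H38.ML
open scoped Classical

noncomputable section

namespace H88.LH

open H63.MA H38.BB H38.BG H38.AS H77.PC3 H77.PLF H51.HD H51.HC H77.AB

private theorem hct_rd {p : ℕ} (hp : p.Prime) (F : IntermediateField ℚ QBar) [NumberField F]
    (hp2 : MOne p F) {ζ : F} (hζ : IsPrimitiveRoot ζ p) {G : Type} [Group G]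
    (φ₀ : Gal(QBar/F) →* G) (hφ₀ : FT φ₀) (S₁ : Finset (Pl F)) :
    ∃ R : RD F p ζ, S₁ ⊆ R.S0 ∧
      ∀ (L : LDs R.toRD0 QBar) (v : Pl F), v ∉ R.S0 → ∀ τ ∈ inr L v, φ₀ τ = 1 := by
  obtain ⟨M, hfd, hgal, e, he, h⟩ := H38.ML.factor φ₀ hφ₀
  have : NumberField M := NumberField.of_module_finite F M
  have hfin := H38.ML.finite_not_unr F M
  have hinj : Function.Injective (fun v : Pl F => v.asIdeal) := fun v w hvw =>
    HeightOneSpectrum.ext hvw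
  have hf1 : {v : Pl F | v.asIdeal.IsPrime ∧ v.asIdeal ≠ ⊥ ∧ ¬ Unr F M v.asIdeal}.Finite :=
    hfin.preimage hinj.injOn
  obtain ⟨R, hR⟩ := exists_RD_of F hp hp2 hζ (hf1.toFinset ∪ S₁)
  refine ⟨R, fun v hv => hR v (Finset.mem_union_right _ hv), ?_⟩
  intro L v hv τ hτ
  unfold inr at hτ
  rw [dif_pos hv] at hτ
  have := (L.ld v hv).prime
  have hun : Unr F M v.asIdeal := by
    by_contra hun
    exact hv (hR v (Finset.mem_union_left _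
      (hf1.mem_toFinset.2 ⟨v.isPrime, v.ne_bot, hun⟩)))
  have hun' : Unr F M ((L.ld v hv).P.under (𝓞 F)) := by
    rw [(L.ld v hv).under]
    exact hun
  have h1 := H38.ML.res_eq_one M (L.ld v hv).P hun' τ hτ
  rw [← h, h1, map_one]

theorem hct {p N : ℕ} (hp : p.Prime) {M P : Type} [Group M] [Finite M] [Group P] [Finite P]
    (Q : HU p N M P) (hP : IsPGroup p P) (D : Subgroup M) [D.Normal] (hT : Q.T = D) (m : ℕ)
    (hm : 2 ≤ m) (hPL : PLf p m (cU Q)) (F : IntermediateField ℚ QBar) [NumberField F] (ζ : F)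
    (hζ : IsPrimitiveRoot ζ p) (z : F) (hz : IsPrimitiveRoot z (p ^ m))
    (Θ : Gal(QBar/F) →* DM D) (hs : Function.Surjective Θ) (hΘ : FT Θ) (Q' : DP F QBar)
    (S₁ S' : Finset (Pl F)) (hS' : ∀ w ∈ S', ∀ σ ∈ dec (K := F) (Q'.P w), Θ σ = 1) :
    ∃ (R : RD F p ζ) (L : LDs R.toRD0 QBar), LQ L Q' ∧ S₁ ⊆ R.S0 ∧ S' ⊆ R.S0 ∧
      (∀ w, w ∉ R.S0 → ∀ τ ∈ inr L w, Θ τ = 1) ∧
      ∃ c₀ X₁ : ℝ, 0 < c₀ ∧ ∀ Y : ℝ, X₁ ≤ Y → ∃ Rs : Finset (Gal(QBar/F) →* UU Q),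
        c₀ * Y * Real.log Y ^ (N - 1) ≤ (Rs.card : ℝ) ∧ ∀ ψ ∈ Rs, ψ ∈ PU L (cU Q) ∅ Y ∧
          (∀ σ, Q.pr (Θ σ).right = (ψ σ).right) ∧
          ∀ w ∈ S', ∀ σ ∈ dec (K := F) (Q'.P w), ψ σ = 1 := by
  have : NeZero p := ⟨hp.ne_zero⟩
  have : Fact p.Prime := ⟨hp⟩
  have hPU := uu_pgroup Q hP
  have hfU : Finite (UU Q) := by
    refine Finite.of_injective (fun u : UU Q => ((u.left, u.right) : Q.T × P)) ?_
    intro u v h
    exact SemidirectProduct.ext (congrArg Prod.fst h) (congrArg Prod.snd h)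
  have hp2 : MOne p F := H51.PF.mone_of hp hm hz
  obtain ⟨ψ₀, hs₀, hf₀, hr₀, ht₀⟩ := hps Q D hT Θ hs hΘ
  obtain ⟨R, hRS, hun⟩ := hct_rd hp F hp2 hζ Θ hΘ (S₁ ∪ S')
  obtain ⟨L, hL⟩ := lds_of (Ω := QBar) hp hζ R.toRD0 Q'
  have hu : ∀ v, v ∉ R.S0 → ∀ τ ∈ inr L v, ψ₀ τ = 1 := fun v hv τ hτ =>
    ht₀ τ (hun L v hv τ hτ)
  obtain ⟨c₀, hc₀, hev⟩ := hPL.pos F ζ hζ z hz R L Q' hL ψ₀ hf₀ hs₀ hu
  obtain ⟨X₁, hX₁⟩ := Filter.eventually_atTop.1 hev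
  refine ⟨R, L, hL, fun v hv => hRS (Finset.mem_union_left _ hv),
    fun v hv => hRS (Finset.mem_union_right _ hv), fun w hw τ hτ => hun L w hw τ hτ,
    c₀, X₁, hc₀, fun Y hY => ?_⟩
  have hfin : (H51.PF.SYT L Q' (cU Q) (H51.F3.Tc (cU Q)) ψ₀ Y).Finite :=
    (H51.PF.pu_fin hζ hz hPL.ub R L Y).subset (H51.PF.syt_sub L Q' (cU Q) (H51.F3.Tc (cU Q)) _ Y)
  refine ⟨hfin.toFinset, ?_, fun ψ hψ => ?_⟩
  · have h1 := hX₁ Y hY
    rw [Set.ncard_eq_toFinset_card _ hfin] at h1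
    rw [mul_assoc]
    exact h1
  · rw [Set.Finite.mem_toFinset] at hψ
    refine ⟨H51.PF.syt_sub L Q' (cU Q) (H51.F3.Tc (cU Q)) ψ₀ Y hψ, fun σ => ?_, fun w hw σ hσ => ?_⟩
    · rw [← hr₀]
      exact hd_rt Q hp hζ hP hPU L Q' ψ₀ hf₀ (fun v hv τ hτ => by rw [hu v hv τ hτ]; rfl) Y ψ
        hψ σ
    · obtain ⟨g, hg, h1⟩ := hψ.2.2.1 w (hRS (Finset.mem_union_right _ hw))
      rw [h1 σ hσ, ht₀ σ (hS' w hw σ hσ), mul_one, mul_inv_cancel]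

end H88.LH
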