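import Pool.Agent.H88.LH.Fth
import Pool.Agent.H51.HD.Low

/-!
# [H88 LH HFR] MP_b39724_nt, theorem LH (think 1911 (0)): the frame of H51/HD for `M`, `D`

`D` a normal `p`-subgroup of `M`, `D ≤ Z_k(M)`, `D` the normal closure of the `c.g i`.
* `hfr`: `exists_hu` gives `Q : HU p N M P` with `Q.cl = c`, `Q.T = D`.
* `hps`: from a surjective `Θ : Γ → D ⋊ M` the homomorphism `ψ₀ = (left, pr right) : Γ → UU Q`: surjective, of finite type, `(ψ₀ σ).right = pr (φ₀ σ)`, trivial where `Θ` is trivial.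
-/

set_option autoImplicit false

open scoped NumberField
open IsDedekindDomain H38.ML
open scoped Classical

noncomputable section

namespace H88.LH

open H63.MA H38.BB H38.BG H77.PC3 H51.HD

theorem hfr {p N : ℕ} (hp : p.Prime) {M : Type} [Group M] [Finite M] (D : Subgroup M)
    (c : CL p N M) (hD : ∀ x ∈ D, ∃ k : ℕ, x ^ p ^ k = 1) (k : ℕ)
    (hk : D ≤ Subgroup.upperCentralSeries M k)
    (hg : D = Subgroup.normalClosure (Set.range c.g)) :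
    ∃ (P : Type) (_ : Group P) (_ : Finite P) (Q : HU p N M P), IsPGroup p P ∧ Q.cl = c ∧
      Q.T = D := by
  obtain ⟨N₁, hN₁, Q, hP, hQ⟩ := exists_hu hp c.g c.pow c.ne c.uni
    (fun t ht => hD t (by rw [hg]; exact ht)) k (by rw [← hg]; exact hk)
  have h1 : Q.cl = c := by
    obtain ⟨g, h1, h2, h3⟩ := c
    obtain ⟨pr, prs, T, nor, tp, a, ha, sur, ⟨g', h1', h2', h3'⟩, hT⟩ := Q
    simp only at hQ ⊢
    subst hQ
    rfl
  refine ⟨M ⧸ N₁, inferInstance, inferInstance, Q, hP, h1, ?_⟩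
  rw [Q.hT, h1, hg]

theorem hps {p N : ℕ} {M P : Type} [Group M] [Group P] (Q : HU p N M P) (D : Subgroup M)
    [D.Normal] (hT : Q.T = D) {K Ω : Type} [Field K] [NumberField K] [Field Ω] [Algebra K Ω]
    (Θ : Gal(Ω/K) →* DM D) (hs : Function.Surjective Θ) (hΘ : FT Θ) :
    ∃ ψ₀ : Gal(Ω/K) →* UU Q, Function.Surjective ψ₀ ∧ FT ψ₀ ∧
      (∀ σ, (ψ₀ σ).right = Q.pr (Θ σ).right) ∧ ∀ σ, Θ σ = 1 → ψ₀ σ = 1 := by
  subst hT
  obtain ⟨f, hf⟩ : ∃ f : DM Q.T →* UU Q, ∀ x, f x = ⟨x.left, Q.pr x.right⟩ := by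
    refine ⟨SemidirectProduct.map (MonoidHom.id _) Q.pr fun g => ?_, fun x => rfl⟩
    refine MonoidHom.ext fun d => Subtype.ext ?_
    show (((MulAut.conjNormal : M →* MulAut Q.T) g d : Q.T) : M) = ((Q.a (Q.pr g) d : Q.T) : M)
    rw [MulAut.conjNormal_apply, Q.ha]
  refine ⟨f.comp Θ, ?_, ?_, fun σ => ?_, fun σ hσ => ?_⟩
  · rintro ⟨t, x⟩
    obtain ⟨m, rfl⟩ := Q.prs x
    obtain ⟨σ, hσ⟩ := hs ⟨t, m⟩
    exact ⟨σ, by rw [MonoidHom.comp_apply, hσ]; exact hf _⟩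
  · obtain ⟨E, hE, hle⟩ := hΘ
    refine ⟨E, hE, fun σ hσ => ?_⟩
    rw [MonoidHom.mem_ker, MonoidHom.comp_apply, MonoidHom.mem_ker.1 (hle hσ), map_one]
  · rw [MonoidHom.comp_apply, hf]
  · rw [MonoidHom.comp_apply, hσ, map_one]

end H88.LH
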