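import Pool.Agent.H88.LH.Defs

/-!
# [H88 LH IDX] MP_b39724_nt, theorem LSN (think 1911 (7)): the index of a product

* `ind_mul`: `ind (g * h) ≤ ind g + ind h`. Proof: `V_g = {f : Fin n → ℚ | f ∘ g = f}` has dimension `orbs (zpowers g) = n - ind g` (the functions constant on the orbits), `V_g ∩ V_h ≤ V_(g h)`, and
  `dim V_g + dim V_h ≤ n + dim (V_g ∩ V_h)`.
* `pk_ind`: a product of at most `k` elements of index `a` has index at most `k a`.
-/

set_option autoImplicit false

open H38.ML
open scoped Classical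

noncomputable section

namespace H88.LH

/-- the functions which are constant on the orbits of `g` -/
private def VV {n : ℕ} (g : Equiv.Perm (Fin n)) : Submodule ℚ (Fin n → ℚ) :=
  LinearMap.range (LinearMap.funLeft ℚ ℚ (fun x : Fin n =>
    (Quotient.mk'' x : MulAction.orbitRel.Quotient (Subgroup.zpowers g) (Fin n))))

private theorem vv_finrank {n : ℕ} (g : Equiv.Perm (Fin n)) :
    Module.finrank ℚ (VV g) = orbs (Subgroup.zpowers g) := by
  have : Fintype (MulAction.orbitRel.Quotient (Subgroup.zpowers g) (Fin n)) := Fintype.ofFinite _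
  unfold VV orbs
  rw [LinearMap.finrank_range_of_inj (LinearMap.funLeft_injective_of_surjective ℚ ℚ _
    Quotient.mk''_surjective), Module.finrank_fintype_fun_eq_card, Nat.card_eq_fintype_card]

private theorem mem_vv {n : ℕ} (g : Equiv.Perm (Fin n)) (f : Fin n → ℚ) :
    f ∈ VV g ↔ ∀ x, f (g x) = f x := by
  unfold VV
  constructor
  · rintro ⟨q, rfl⟩ x
    rw [LinearMap.funLeft_apply, LinearMap.funLeft_apply]
    refine congrArg q (Quotient.sound' ?_)
    rw [MulAction.orbitRel_apply]
    exact ⟨⟨g, Subgroup.mem_zpowers g⟩, rfl⟩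
  · intro h
    have h1 : ∀ (k : ℕ) (x : Fin n), f ((g ^ k) x) = f x := by
      intro k
      induction k with
      | zero => intro x; rfl
      | succ k ih => intro x; rw [pow_succ, Equiv.Perm.mul_apply, ih, h]
    have h2 : ∀ (k : ℤ) (x : Fin n), f ((g ^ k) x) = f x := by
      intro k x
      rcases k with k | k
      · exact h1 k x
      · rw [zpow_negSucc]
        have h3 := h1 (k + 1) ((g ^ (k + 1))⁻¹ x)
        rw [← Equiv.Perm.mul_apply, mul_inv_cancel, Equiv.Perm.one_apply] at h3
        exact h3.symm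
    refine ⟨Quotient.lift f ?_, ?_⟩
    · intro a b hab
      obtain ⟨⟨s, k, rfl⟩, hs⟩ := hab
      rw [← hs]
      exact h2 k b
    · funext x
      rfl

private theorem vv_le {n : ℕ} (g : Equiv.Perm (Fin n)) : orbs (Subgroup.zpowers g) ≤ n := by
  rw [← vv_finrank g]
  have h := Submodule.finrank_le (VV g)
  rw [Module.finrank_fintype_fun_eq_card, Fintype.card_fin] at h
  exact h

private theorem ind_one {n : ℕ} : ind (1 : Equiv.Perm (Fin n)) = 0 := by
  have h1 : VV (1 : Equiv.Perm (Fin n)) = ⊤ := by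
    rw [eq_top_iff]
    intro f _
    rw [mem_vv]
    intro x
    rfl
  have h2 := vv_finrank (1 : Equiv.Perm (Fin n))
  rw [h1, finrank_top, Module.finrank_fintype_fun_eq_card, Fintype.card_fin] at h2
  unfold ind
  rw [← h2, Nat.sub_self]

theorem ind_mul {n : ℕ} (g h : Equiv.Perm (Fin n)) : ind (g * h) ≤ ind g + ind h := by
  have h1 : VV g ⊓ VV h ≤ VV (g * h) := by
    rintro f ⟨hg, hh⟩
    rw [SetLike.mem_coe, mem_vv] at hg hh
    rw [mem_vv]
    intro x
    rw [Equiv.Perm.mul_apply, hg, hh]
  have h2 := Submodule.finrank_sup_add_finrank_inf_eq (VV g) (VV h)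
  have h3 := Submodule.finrank_mono h1
  have h4 := Submodule.finrank_le (VV g ⊔ VV h)
  rw [Module.finrank_fintype_fun_eq_card, Fintype.card_fin] at h4
  rw [vv_finrank, vv_finrank] at h2
  rw [vv_finrank] at h3
  have h5 := vv_le g
  have h6 := vv_le h
  unfold ind
  omega

theorem pk_ind {n : ℕ} {G : Subgroup (Equiv.Perm (Fin n))} {C : Set G} {a : ℕ}
    (hC : ∀ y ∈ C, ind (y : Equiv.Perm (Fin n)) = a) {k : ℕ} {x : G} (h : Pk C k x) :
    ind (x : Equiv.Perm (Fin n)) ≤ k * a := by
  obtain ⟨l, hl, hlC, -, rfl⟩ := h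
  have h1 : ind ((l.prod : G) : Equiv.Perm (Fin n)) ≤ l.length * a := by
    clear hl
    induction l with
    | nil =>
      rw [List.prod_nil, Subgroup.coe_one, ind_one]
      exact Nat.zero_le _
    | cons y l ih =>
      rw [List.prod_cons, Subgroup.coe_mul, List.length_cons]
      have h2 := ind_mul (y : Equiv.Perm (Fin n)) ((l.prod : G) : Equiv.Perm (Fin n))
      have h3 := ih fun z hz => hlC z (List.mem_cons_of_mem _ hz)
      have h4 := hC y (hlC y List.mem_cons_self)
      have h5 : (l.length + 1) * a = l.length * a + a := by ring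
      omega
  exact h1.trans (Nat.mul_le_mul_right a hl)

end H88.LH
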