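import Pool.Agent.H88.LH.Act

/-!
# [H88 LH SHP] MP_b39724_nt, theorem LH (think 1911 (3)): induction of `θ : Γ' → M` to `φ : Γ → G`

`φ₀ : Γ → G`, `j : Γ' → Γ` injective with range `φ₀⁻¹(M)`, `θ : Γ' → M` equal to `φ₀ ∘ j` modulo `D`, `r x ∈ Γ` representatives (`φ₀ (r x) = rp x`, `r 1 = 1`).
* `IsInd`: `φ σ = io f * φ₀ σ`, `f x = θ h * (φ₀ (j h))⁻¹` for `j h = (r x)⁻¹ * σ * r y`, `φ₀ σ • y = x`.
* `shp`: such a homomorphism `φ` exists. `shp_inj`: `φ` determines `θ`.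
-/

set_option autoImplicit false

open scoped Classical

noncomputable section

namespace H88.LH

open H77.PC3

variable {p N : ℕ} {G : Type} [Group G] [Finite G] (Y : LY p N G) {Γ Γ' : Type} [Group Γ] [Group Γ']

/-- `φ` is induced by `θ` -/
def IsInd (φ₀ : Γ →* G) (j : Γ' →* Γ) (r : Y.XX → Γ) (θ : Γ' →* Y.M) (φ : Γ →* G) : Prop :=
  ∀ σ, ∃ f : Y.EE, φ σ = Y.io f * φ₀ σ ∧ ∀ (x y : Y.XX) (h : Γ'), φ₀ σ • y = x →
    j h = (r x)⁻¹ * σ * r y → (f x : G) = θ h * (φ₀ (j h))⁻¹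

theorem shp (φ₀ : Γ →* G) (j : Γ' →* Γ) (hj : Function.Injective j)
    (hrg : ∀ σ, φ₀ σ ∈ Y.M ↔ σ ∈ j.range) (θ : Γ' →* Y.M)
    (hθ : ∀ h, (θ h : G) * (φ₀ (j h))⁻¹ ∈ Y.D) (r : Y.XX → Γ) (hr : ∀ x, φ₀ (r x) = Y.rp x) :
    ∃ φ : Γ →* G, IsInd Y φ₀ j r θ φ := by
  -- the elements `h`
  have hex : ∀ (σ : Γ) (y : Y.XX), ∃ h : Γ', j h = (r (φ₀ σ • y))⁻¹ * σ * r y := by
    intro σ y
    refine MonoidHom.mem_range.1 ((hrg _).1 ?_)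
    rw [map_mul, map_mul, map_inv, hr, hr]
    exact Y.mm_mem _ _
  choose H hH using hex
  have hphi : ∀ σ y, φ₀ (j (H σ y)) = Y.mm (φ₀ σ) y := by
    intro σ y
    rw [hH, map_mul, map_mul, map_inv, hr, hr]
    rfl
  have hmul : ∀ σ τ y, H (σ * τ) y = H σ (φ₀ τ • y) * H τ y := by
    intro σ τ y
    apply hj
    rw [map_mul, hH, hH, hH, map_mul, mul_smul]
    group
  obtain ⟨ps, hps⟩ : ∃ ps : Γ' → Y.D, ∀ h, (ps h : G) = θ h * (φ₀ (j h))⁻¹ :=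
    ⟨fun h => ⟨_, hθ h⟩, fun h => rfl⟩
  have hpsm : ∀ h h', (ps (h * h') : G) = ps h * (φ₀ (j h) * ps h' * (φ₀ (j h))⁻¹) := by
    intro h h'
    rw [hps, hps, hps, map_mul, map_mul, map_mul, Subgroup.coe_mul]
    group
  have hps1 : ps 1 = 1 := by
    apply Subtype.ext
    rw [hps, map_one, map_one, map_one]
    simp
  -- the cocycle
  obtain ⟨u, hu⟩ : ∃ u : Γ → Y.EE, ∀ σ y, u σ (φ₀ σ • y) = ps (H σ y) := by
    refine ⟨fun σ x => ps (H σ ((φ₀ σ)⁻¹ • x)), fun σ y => ?_⟩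
    show ps (H σ ((φ₀ σ)⁻¹ • φ₀ σ • y)) = _
    rw [inv_smul_smul]
  have hum : ∀ σ τ, u (σ * τ) = u σ * Y.ac (φ₀ σ) (u τ) := by
    intro σ τ
    funext x
    obtain ⟨y, rfl⟩ : ∃ y, φ₀ (σ * τ) • y = x := ⟨(φ₀ (σ * τ))⁻¹ • x, smul_inv_smul _ _⟩
    apply Subtype.ext
    rw [hu, hmul, hpsm, hphi, Pi.mul_apply, Subgroup.coe_mul, map_mul, mul_smul, Y.ac_ap, hu, hu]
  refine ⟨{ toFun := fun σ => Y.io (u σ) * φ₀ σ
            map_one' := ?_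
            map_mul' := fun σ τ => ?_ }, fun σ => ⟨u σ, rfl, ?_⟩⟩
  · have h1 : u 1 = 1 := by
      have h2 := hum 1 1
      rw [mul_one, map_one, map_one] at h2
      exact (mul_eq_left.1 h2.symm)
    rw [h1, map_one, map_one, one_mul]
  · rw [hum, map_mul, Y.io_ac, map_mul]
    group
  · rintro x y h rfl hjh
    rw [hu, hps]
    have h3 : h = H σ y := hj (by rw [hjh, hH])
    rw [h3]

/-- `θ` is determined by `φ` -/
theorem shp_inj (φ₀ : Γ →* G) (j : Γ' →* Γ) (hrg : ∀ σ, φ₀ σ ∈ Y.M ↔ σ ∈ j.range)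
    (r : Y.XX → Γ) (hr1 : r (QuotientGroup.mk 1) = 1) (θ θ' : Γ' →* Y.M) (φ : Γ →* G)
    (h : IsInd Y φ₀ j r θ φ) (h' : IsInd Y φ₀ j r θ' φ) : θ = θ' := by
  refine MonoidHom.ext fun a => Subtype.ext ?_
  obtain ⟨f, hf, hf'⟩ := h (j a)
  obtain ⟨g, hg, hg'⟩ := h' (j a)
  have h1 : f = g := Y.io_inj (mul_right_cancel (hf.symm.trans hg))
  have hm : φ₀ (j a) ∈ Y.M := (hrg _).2 ⟨a, rfl⟩
  have h2 : φ₀ (j a) • (QuotientGroup.mk 1 : Y.XX) = QuotientGroup.mk 1 := by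
    show (QuotientGroup.mk (φ₀ (j a) * 1) : Y.XX) = _
    rw [mul_one]
    refine (QuotientGroup.eq.2 ?_).symm
    rwa [inv_one, one_mul]
  have h3 : j a = (r (QuotientGroup.mk 1))⁻¹ * j a * r (QuotientGroup.mk 1) := by
    rw [hr1, inv_one, one_mul, mul_one]
  have h4 := hf' _ _ a h2 h3
  have h5 := hg' _ _ a h2 h3
  rw [h1, h5] at h4
  exact (mul_right_cancel h4).symm

end H88.LH
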