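import Pool.Agent.H88.LH.Res
import Pool.Agent.H88.LH.Shp
import Pool.Agent.H77.AQ.Bas
import Pool.Agent.H57.BRA.Ltr

/-!
# [H88 LH INJ] MP_b39724_nt, theorem LH (think 1911 (5)): places of prime norm

* `cjI_mul`, `cjI_one`, `dec_cjI`, `cjI_j`.
* `frb`: `𝔔` over `v`, `w`, `nm w` prime, `φ₀` trivial on the inertia group of `𝔔`: `φ₀` maps the decomposition group of `𝔔` to the image of `Gal(QBar/F)`.
* `inj5`: `x ↦ w_x` is injective on the `x` with `nm (w_x)` prime.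
-/

set_option autoImplicit false

open scoped NumberField Pointwise
open IsDedekindDomain H38.ML
open scoped Classical

noncomputable section

namespace H88.LH

open H63.MA H77.PC3

section cj

variable {K Ω : Type} [Field K] [NumberField K] [Field Ω] [Algebra K Ω]

theorem cjI_mul (a b : Gal(Ω/K)) (𝔓 : Ideal (𝓞 Ω)) : cjI (a * b) 𝔓 = cjI a (cjI b 𝔓) := by
  ext x
  rw [mem_cjI, mem_cjI, mem_cjI, mul_inv_rev, mul_smul]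

theorem cjI_one (𝔓 : Ideal (𝓞 Ω)) : cjI (1 : Gal(Ω/K)) 𝔓 = 𝔓 := by
  ext x
  rw [mem_cjI, inv_one, one_smul]

theorem dec_cjI {σ : Gal(Ω/K)} {𝔓 : Ideal (𝓞 Ω)} (h : cjI σ 𝔓 = 𝔓) : σ ∈ dec (K := K) 𝔓 := by
  intro x
  have h1 : σ • x ∈ cjI σ 𝔓 ↔ x ∈ 𝔓 := by rw [mem_cjI, inv_smul_smul]
  rw [h] at h1
  exact h1

/-- a prime system with a given prime -/
theorem dp_at [IsAlgClosure K Ω] {𝔔 : Ideal (𝓞 Ω)} (h𝔔 : 𝔔.IsPrime) {v : Pl K}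
    (hv : 𝔔.under (𝓞 K) = v.asIdeal) : ∃ Q : DP K Ω, Q.P v = 𝔔 := by
  obtain ⟨Q⟩ := exists_DP K Ω
  refine ⟨⟨fun w => if w = v then 𝔔 else Q.P w, fun w => ?_, fun w => ?_⟩, if_pos rfl⟩
  · split_ifs with h
    · exact h𝔔
    · exact Q.prime w
  · split_ifs with h
    · rw [h, hv]
    · exact Q.under w

end cj

variable {K F : IntermediateField ℚ QBar} [NumberField K] [NumberField F]

omit [NumberField K] [NumberField F] in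
theorem fe_smul {Γ' : Subgroup Gal(QBar/K)} (X : FE K F Γ') (σ : Gal(QBar/F)) (x : 𝓞 QBar) :
    X.j σ • x = σ • x := by
  apply NumberField.RingOfIntegers.ext
  exact X.act σ (x : QBar)

theorem cjI_j {Γ' : Subgroup Gal(QBar/K)} (X : FE K F Γ') (σ : Gal(QBar/F)) (𝔓 : Ideal (𝓞 QBar)) :
    cjI (X.j σ) 𝔓 = cjI σ 𝔓 := by
  ext x
  rw [mem_cjI, mem_cjI, ← map_inv, fe_smul]

/-- the decomposition group at a place of prime norm -/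
theorem frb {G : Type} [Group G] (φ₀ : Gal(QBar/K) →* G) (hφ₀ : FT φ₀)
    {M : Subgroup G} (X : FE K F (M.comap φ₀)) {𝔔 : Ideal (𝓞 QBar)} (h𝔔 : 𝔔.IsPrime) {v : Pl K}
    {w : Pl F} (hv : 𝔔.under (𝓞 K) = v.asIdeal) (hw : 𝔔.under (𝓞 F) = w.asIdeal)
    (hnm : (nm w).Prime) (hin : ∀ τ ∈ 𝔔.inertia Gal(QBar/K), φ₀ τ = 1) (d : Gal(QBar/K))
    (hd : d ∈ dec (K := K) 𝔔) : φ₀ d ∈ M := by
  have hnv : nm v = nm w := ov_nm X.le ⟨𝔔, h𝔔, hv, hw⟩ hnm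
  obtain ⟨Q₁, hQ₁⟩ := dp_at (K := K) h𝔔 hv
  obtain ⟨Q₂, hQ₂⟩ := dp_at (K := F) h𝔔 hw
  obtain ⟨f₁, hf₁⟩ : ∃ f, f = H57.SL.fr Q₁ v := ⟨_, rfl⟩
  obtain ⟨f₂, hf₂⟩ : ∃ f, f = H57.SL.fr Q₂ w := ⟨_, rfl⟩
  have h1 : ∀ x : 𝓞 QBar, f₁ • x - x ^ nm v ∈ 𝔔 := fun x => by
    rw [hf₁, ← hQ₁]
    exact H57.SL.fr_spec Q₁ v x
  have h2 : ∀ x : 𝓞 QBar, X.j f₂ • x - x ^ (nm v ^ 1) ∈ 𝔔 := fun x => by
    rw [fe_smul, hf₂, ← hQ₂, pow_one, hnv]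
    exact H57.SL.fr_spec Q₂ w x
  have h3 := H57.BRA.ltr_pow h𝔔 h1 1 h2
  have h4 := hin _ h3
  rw [pow_one, map_mul, map_inv, inv_mul_eq_one] at h4
  have h5 : φ₀ f₁ ∈ M := by
    rw [h4]
    have h6 : X.j f₂ ∈ X.j.range := ⟨f₂, rfl⟩
    rw [X.rng] at h6
    exact h6
  obtain ⟨k, hk⟩ := H77.AQ.dec_fr Q₁ v φ₀ hφ₀ (by rw [hQ₁]; exact hin) d (by rw [hQ₁]; exact hd)
  rw [hk, ← hf₁]
  exact M.pow_mem h5 k

variable {p N : ℕ} {G : Type} [Group G] (Y : LY p N G)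

/-- injectivity of `x ↦ w_x` -/
theorem inj5 (φ₀ : Gal(QBar/K) →* G) (hφ₀ : FT φ₀) (X : FE K F (Y.M.comap φ₀))
    (r : Y.XX → Gal(QBar/K)) (hr : ∀ x, φ₀ (r x) = Y.rp x) {𝔓 : Ideal (𝓞 QBar)}
    (h𝔓 : 𝔓.IsPrime) {v : Pl K} (hv : 𝔓.under (𝓞 K) = v.asIdeal)
    (hin : ∀ τ ∈ 𝔓.inertia Gal(QBar/K), φ₀ τ = 1) {x y : Y.XX} {w : Pl F}
    (hx : (cjI (r x)⁻¹ 𝔓).under (𝓞 F) = w.asIdeal) (hy : (cjI (r y)⁻¹ 𝔓).under (𝓞 F) = w.asIdeal)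
    (hnm : (nm w).Prime) : x = y := by
  obtain ⟨h, hh⟩ := cjI_ex (K := F) (v := w) (cjI_prime (r x)⁻¹ h𝔓) (cjI_prime (r y)⁻¹ h𝔓) hx hy
  obtain ⟨d, hd⟩ : ∃ d, d = X.j h * (r x)⁻¹ * r y := ⟨_, rfl⟩
  have h1 : d ∈ dec (K := K) (cjI (r y)⁻¹ 𝔓) := by
    apply dec_cjI
    rw [hd, cjI_mul, ← cjI_mul (r y), mul_inv_cancel, cjI_one, cjI_mul, cjI_j, ← hh]
  have h2 : φ₀ d ∈ Y.M := by
    refine frb φ₀ hφ₀ X (cjI_prime (r y)⁻¹ h𝔓) (v := v) (by rw [cjI_under]; exact hv) hy hnm ?_ d h1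
    intro τ hτ
    have h3 := hin _ ((cjI_inertia _ _ _).1 hτ)
    rw [inv_inv, map_mul, map_mul, map_inv, mul_inv_eq_one] at h3
    exact mul_eq_left.1 h3
  by_contra hxy
  refine Y.rp_ne hxy ?_
  have h3 : φ₀ (X.j h) ∈ Y.M := by
    have h6 : X.j h ∈ X.j.range := ⟨h, rfl⟩
    rw [X.rng] at h6
    exact h6
  have h4 := Y.M.mul_mem (Y.M.inv_mem h3) h2
  rw [hd, map_mul, map_mul, map_inv, hr, hr] at h4
  have e : (φ₀ (X.j h))⁻¹ * (φ₀ (X.j h) * (Y.rp x)⁻¹ * Y.rp y) = (Y.rp x)⁻¹ * Y.rp y := by group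
  rwa [e] at h4

end H88.LH
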