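import Pool.Agent.H88.LH.Inj

/-!
# [H88 LH LOC] MP_b39724_nt, theorem LH (think 1911 (4), (5), (6c)): ramification of the induced homomorphism

`LS`: the local situation. `v` a place of `K` outside `SK` with the prime `𝔓 = QK.P v`, `w_x` the place of `F` under `(r x)⁻¹ 𝔓`.
* `lo1`: for `τ` in the inertia group of `𝔓` the element `(r x)⁻¹ τ (r x)` comes from `h` with `γ⁻¹ h γ` in the inertia group of `QF.P (w_x)`.
* `lo2`: the coordinates of `φ τ`. `loc_tm`: `Tm`. `loc_c`: the elements for the surjectivity. `loc_s`: trivial decomposition groups.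
-/

set_option autoImplicit false

open scoped NumberField Pointwise
open IsDedekindDomain H38.ML
open scoped Classical

noncomputable section

namespace H88.LH

open H63.MA H77.PC3

variable {K F : IntermediateField ℚ QBar} [NumberField K] [NumberField F]
  {p N : ℕ} {G : Type} [Group G] [Finite G] (Y : LY p N G)

/-- the situation of the induction -/
structure LS (φ₀ : Gal(QBar/K) →* G) (X : FE K F (Y.M.comap φ₀)) (r : Y.XX → Gal(QBar/K))
    (θ : Gal(QBar/F) →* Y.M) (φ : Gal(QBar/K) →* G) (QK : DP K QBar) (QF : DP F QBar)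
    (S0 : Finset (Pl F)) (SK : Finset (Pl K)) (bl : Pl F → Pl K) : Prop where
  ft0 : FT φ₀
  sj0 : Function.Surjective φ₀
  hr : ∀ x, φ₀ (r x) = Y.rp x
  ft : FT φ
  hI : IsInd Y φ₀ X.j r θ φ
  hbl : ∀ w, ov (bl w) w
  cov : ∀ w, bl w ∉ SK → w ∉ S0
  un : ∀ v, v ∉ SK → ∀ τ ∈ (QK.P v).inertia Gal(QBar/K), φ₀ τ = 1
  np : ∀ v, v ∉ SK → ((p : ℕ) : 𝓞 K) ∉ v.asIdeal

variable {Y} {φ₀ : Gal(QBar/K) →* G} {X : FE K F (Y.M.comap φ₀)} {r : Y.XX → Gal(QBar/K)}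
  {θ : Gal(QBar/F) →* Y.M} {φ : Gal(QBar/K) →* G} {QK : DP K QBar} {QF : DP F QBar}
  {S0 : Finset (Pl F)} {SK : Finset (Pl K)} {bl : Pl F → Pl K}

omit [Finite G] in
/-- an element of the inertia group of `𝔓` -/
theorem lo1 (φ₀ : Gal(QBar/K) →* G) (X : FE K F (Y.M.comap φ₀)) (r : Y.XX → Gal(QBar/K))
    {𝔓 : Ideal (𝓞 QBar)} (x : Y.XX) {w : Pl F} {γ : Gal(QBar/F)} (QF : DP F QBar)
    (hγ : cjI (r x)⁻¹ 𝔓 = cjI γ (QF.P w)) (h : Gal(QBar/F)) :
    r x * X.j h * (r x)⁻¹ ∈ 𝔓.inertia Gal(QBar/K) ↔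
      γ⁻¹ * h * γ ∈ (QF.P w).inertia Gal(QBar/F) := by
  rw [← cjI_inertia, ← hγ, ← fe_in X, cjI_inertia, inv_inv]

omit [Finite G] in
theorem lo1d (φ₀ : Gal(QBar/K) →* G) (X : FE K F (Y.M.comap φ₀)) (r : Y.XX → Gal(QBar/K))
    {𝔓 : Ideal (𝓞 QBar)} (x : Y.XX) {w : Pl F} {γ : Gal(QBar/F)} (QF : DP F QBar)
    (hγ : cjI (r x)⁻¹ 𝔓 = cjI γ (QF.P w)) (h : Gal(QBar/F)) :
    r x * X.j h * (r x)⁻¹ ∈ dec (K := K) 𝔓 ↔ γ⁻¹ * h * γ ∈ dec (K := F) (QF.P w) := by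
  rw [← cjI_dec, ← hγ, ← fe_dec X, cjI_dec, inv_inv]

omit [NumberField K] [NumberField F] [Finite G] in
/-- `(r x)⁻¹ τ (r x)` for `φ₀ τ = 1` -/
theorem lo_h (φ₀ : Gal(QBar/K) →* G) (X : FE K F (Y.M.comap φ₀)) (r : Y.XX → Gal(QBar/K))
    (x : Y.XX) (τ : Gal(QBar/K)) (hτ : φ₀ τ = 1) :
    ∃ h : Gal(QBar/F), X.j h = (r x)⁻¹ * τ * r x ∧ φ₀ (X.j h) = 1 := by
  have h1 : φ₀ ((r x)⁻¹ * τ * r x) = 1 := by
    rw [map_mul, map_mul, map_inv, hτ, mul_one, inv_mul_cancel]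
  have h2 : (r x)⁻¹ * τ * r x ∈ X.j.range := by
    rw [X.rng]
    show φ₀ _ ∈ Y.M
    rw [h1]
    exact Y.M.one_mem
  obtain ⟨h, hh⟩ := h2
  exact ⟨h, hh, by rw [hh, h1]⟩

/-- the coordinates -/
theorem lo2 (hI : IsInd Y φ₀ X.j r θ φ) (τ : Gal(QBar/K)) (hτ : φ₀ τ = 1) :
    ∃ f : Y.EE, φ τ = Y.io f ∧ ∀ (x : Y.XX) (h : Gal(QBar/F)), X.j h = (r x)⁻¹ * τ * r x →
      (f x : G) = θ h := by
  obtain ⟨f, hf, hf'⟩ := hI τ
  rw [hτ, mul_one] at hf
  refine ⟨f, hf, fun x h hh => ?_⟩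
  have h1 := hf' x x h (by rw [hτ, one_smul]) hh
  have h2 : φ₀ (X.j h) = 1 := by
    rw [hh, map_mul, map_mul, map_inv, hτ, mul_one, inv_mul_cancel]
  rwa [h2, inv_one, mul_one] at h1

/-- the places `w_x` -/
theorem lo_w (QF : DP F QBar) (r : Y.XX → Gal(QBar/K)) {𝔓 : Ideal (𝓞 QBar)} (h𝔓 : 𝔓.IsPrime)
    {v : Pl K} (hv : 𝔓.under (𝓞 K) = v.asIdeal) (x : Y.XX) :
    ∃ (w : Pl F) (γ : Gal(QBar/F)), (cjI (r x)⁻¹ 𝔓).under (𝓞 F) = w.asIdeal ∧ ov v w ∧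
      cjI (r x)⁻¹ 𝔓 = cjI γ (QF.P w) := by
  have h1 : (cjI (r x)⁻¹ 𝔓).under (𝓞 K) = v.asIdeal := by rw [cjI_under]; exact hv
  obtain ⟨w, hw⟩ := ov_pr (F := F) (cjI_prime (r x)⁻¹ h𝔓) h1
  obtain ⟨γ, hγ⟩ := cjI_ex (K := F) (v := w) (QF.prime w) (cjI_prime (r x)⁻¹ h𝔓) (QF.under w) hw
  exact ⟨w, γ, hw, ⟨_, cjI_prime (r x)⁻¹ h𝔓, h1, hw⟩, hγ⟩

/-- a list with the product `io f` -/
theorem io_list (f : Y.EE) (s : Finset Y.XX) (hs : ∀ x, x ∉ s → f x = 1) :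
    (s.toList.map fun x => Y.rp x * (f x : G) * (Y.rp x)⁻¹).prod = Y.io f := by
  have h1 : (s.toList.map fun x => Y.rp x * (f x : G) * (Y.rp x)⁻¹) =
      (s.toList.map fun x => (Pi.mulSingle x (f x) : Y.EE)).map Y.io := by
    rw [List.map_map]
    refine List.map_congr_left fun x _ => ?_
    show _ = Y.io (Pi.mulSingle x (f x))
    rw [Y.io_single]
  rw [h1, ← map_list_prod]
  congr 1
  funext y
  rw [Pi.list_prod_apply, List.map_map]
  by_cases hy : y ∈ s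
  · have h2 : ∀ l : List Y.XX, l.Nodup → (l.map fun x => (Pi.mulSingle x (f x) : Y.EE) y).prod =
        if y ∈ l then f y else 1 := by
      intro l
      induction l with
      | nil => intro _; simp
      | cons a l ih =>
        intro hl
        rw [List.nodup_cons] at hl
        rw [List.map_cons, List.prod_cons, ih hl.2]
        by_cases hay : y = a
        · subst hay
          rw [Pi.mulSingle_eq_same, if_neg hl.1, if_pos (List.mem_cons_self ..), mul_one]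
        · rw [Pi.mulSingle_eq_of_ne hay, one_mul]
          simp only [List.mem_cons, hay, false_or]
    have h3 := h2 s.toList (Finset.nodup_toList s)
    rw [if_pos (Finset.mem_toList.2 hy)] at h3
    exact h3
  · rw [hs y hy]
    refine List.prod_eq_one fun z hz => ?_
    obtain ⟨x, hx, rfl⟩ := List.mem_map.1 hz
    have hxy : y ≠ x := by
      rintro rfl
      exact hy (Finset.mem_toList.1 hx)
    exact Pi.mulSingle_eq_of_ne hxy _

omit [Finite G] in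
/-- powers of elements of the classes -/
theorem pw_C (hp : p.Prime) {x : G} {i : Fin N} (hx : IsConj x (Y.cl.g i)) {y : G}
    (hy : y ∈ Subgroup.zpowers x) : y = 1 ∨ y ∈ Y.C := by
  have hxp : x ^ p = 1 := by
    obtain ⟨c, hc⟩ := isConj_iff.1 hx.symm
    rw [← hc, conj_pow, Y.cl.pow, mul_one, mul_inv_cancel]
  obtain ⟨j, rfl⟩ := Subgroup.mem_zpowers_iff.1 hy
  obtain ⟨m, hm⟩ : ∃ m : ℕ, x ^ j = x ^ m := by
    refine ⟨(j % p).toNat, ?_⟩
    have hp0 : (p : ℤ) ≠ 0 := by exact_mod_cast hp.ne_zero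
    have h1 : (((j % p).toNat : ℕ) : ℤ) = j % p := Int.toNat_of_nonneg (Int.emod_nonneg _ hp0)
    rw [← zpow_natCast, h1]
    conv_lhs => rw [← Int.emod_add_mul_ediv j p]
    rw [zpow_add, zpow_mul, zpow_natCast, hxp, one_zpow, mul_one]
  rw [hm]
  by_cases h : p ∣ m
  · obtain ⟨k, rfl⟩ := h
    left
    rw [pow_mul, hxp, one_pow]
  · right
    obtain ⟨i', hi'⟩ := Y.pw i m h
    refine ⟨i', IsConj.trans ?_ hi'⟩
    obtain ⟨c, hc⟩ := isConj_iff.1 hx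
    exact isConj_iff.2 ⟨c, by rw [← hc, conj_pow]⟩

omit [NumberField K] [Finite G] in
/-- the value of a coordinate at a place of `T` -/
theorem lo_T (hp : p.Prime) {w : Pl F} {γ h : Gal(QBar/F)} {i : Fin N} {x : Y.M}
    (hx : IsConj x (Y.cM.g i)) (hw : ((QF.P w).inertia Gal(QBar/F)).map θ = Subgroup.zpowers x)
    (hh : γ⁻¹ * h * γ ∈ (QF.P w).inertia Gal(QBar/F)) : (θ h : G) = 1 ∨ (θ h : G) ∈ Y.C := by
  have h1 : θ (γ⁻¹ * h * γ) ∈ Subgroup.zpowers x := by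
    rw [← hw]
    exact ⟨_, hh, rfl⟩
  obtain ⟨j, hj⟩ := Subgroup.mem_zpowers_iff.1 h1
  have h2 : (θ h : G) = θ γ * (x : G) ^ j * (θ γ : G)⁻¹ := by
    have h3 : θ h = θ γ * x ^ j * (θ γ)⁻¹ := by
      rw [hj, map_mul, map_mul, map_inv]
      group
    rw [h3]
    rfl
  have h4 : IsConj (x : G) (Y.cl.g i) := by
    obtain ⟨c, hc⟩ := isConj_iff.1 hx
    exact isConj_iff.2 ⟨c, congrArg Subtype.val hc⟩
  rcases pw_C hp h4 (Subgroup.mem_zpowers_iff.2 ⟨j, rfl⟩) with h5 | ⟨i', h5⟩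
  · left
    rw [h2, h5, mul_one, mul_inv_cancel]
  · right
    refine ⟨i', IsConj.trans ?_ h5⟩
    rw [h2]
    exact (isConj_iff.2 ⟨(θ γ : G), rfl⟩ : IsConj ((x : G) ^ j) _).symm

omit [NumberField K] [Finite G] in
theorem lo_un {w : Pl F} {γ h : Gal(QBar/F)}
    (hw : ∀ τ ∈ (QF.P w).inertia Gal(QBar/F), θ τ = 1)
    (hh : γ⁻¹ * h * γ ∈ (QF.P w).inertia Gal(QBar/F)) : (θ h : G) = 1 := by
  have h1 := hw _ hh
  rw [map_mul, map_mul, map_inv] at h1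
  have h2 : θ h = 1 := by
    have h3 : θ h = θ γ * ((θ γ)⁻¹ * θ h * θ γ) * (θ γ)⁻¹ := by group
    rw [h3, h1, mul_one, mul_inv_cancel]
  rw [h2]
  rfl

/-- the place `v`: choices -/
theorem lo_v (hS : LS Y φ₀ X r θ φ QK QF S0 SK bl) (hp : p.Prime) {T : Finset (Pl F)}
    (h1 : ∀ w ∈ T, w ∉ S0 ∧ (nm w).Prime)
    (h2 : ∀ w ∈ T, ∃ (i : Fin N) (x : Y.M), IsConj x (Y.cM.g i) ∧
      ((QF.P w).inertia Gal(QBar/F)).map θ = Subgroup.zpowers x)
    (h3 : ∀ w, w ∉ S0 → w ∉ T → ∀ τ ∈ (QF.P w).inertia Gal(QBar/F), θ τ = 1)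
    {v : Pl K} (hv : v ∉ SK) :
    ∃ (w : Y.XX → Pl F) (γ : Y.XX → Gal(QBar/F)), (∀ x, ov v (w x)) ∧
      (∀ x, cjI (r x)⁻¹ (QK.P v) = cjI (γ x) (QF.P (w x))) ∧
      (∀ x y, w x ∈ T → w x = w y → x = y) ∧
      ∀ τ ∈ (QK.P v).inertia Gal(QBar/K), ∃ f : Y.EE, φ τ = Y.io f ∧
        (∀ (x : Y.XX) (h : Gal(QBar/F)), X.j h = (r x)⁻¹ * τ * r x → (f x : G) = θ h) ∧
        (∀ x, w x ∉ T → f x = 1) ∧ ∀ x, f x = 1 ∨ (f x : G) ∈ Y.C := by
  choose w γ hw hov hγ using fun x => lo_w QF r (QK.prime v) (QK.under v) x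
  have hwS : ∀ x, w x ∉ S0 := by
    intro x
    refine hS.cov _ ?_
    rw [ov_un X.le (hS.hbl (w x)) (hov x)]
    exact hv
  refine ⟨w, γ, hov, hγ, ?_, ?_⟩
  · intro x y hx hxy
    refine inj5 Y φ₀ hS.ft0 X r hS.hr (QK.prime v) (QK.under v) (hS.un v hv) (hw x) ?_ (h1 _ hx).2
    rw [hxy]
    exact hw y
  · intro τ hτ
    have hτ0 := hS.un v hv τ hτ
    obtain ⟨f, hf, hf'⟩ := lo2 hS.hI τ hτ0
    have hin : ∀ x h, X.j h = (r x)⁻¹ * τ * r x →
        (γ x)⁻¹ * h * γ x ∈ (QF.P (w x)).inertia Gal(QBar/F) := by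
      intro x h hh
      refine (lo1 φ₀ X r x QF (hγ x) h).1 ?_
      rw [hh]
      have e : r x * ((r x)⁻¹ * τ * r x) * (r x)⁻¹ = τ := by group
      rw [e]
      exact hτ
    refine ⟨f, hf, hf', fun x hx => ?_, fun x => ?_⟩
    · obtain ⟨h, hh, -⟩ := lo_h φ₀ X r x τ hτ0
      apply Subtype.ext
      rw [hf' x h hh]
      exact lo_un (h3 _ (hwS x) hx) (hin x h hh)
    · obtain ⟨h, hh, -⟩ := lo_h φ₀ X r x τ hτ0
      by_cases hx : w x ∈ T
      · obtain ⟨i, x', hx', hx''⟩ := h2 _ hx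
        have h5 := lo_T hp hx' hx'' (hin x h hh)
        rw [← hf' x h hh] at h5
        rcases h5 with h5 | h5
        · exact Or.inl (Subtype.ext h5)
        · exact Or.inr h5
      · left
        apply Subtype.ext
        rw [hf' x h hh]
        exact lo_un (h3 _ (hwS x) hx) (hin x h hh)

omit [Finite G] in
theorem C_pow {x : G} (hx : x ∈ Y.C) : x ^ p = 1 := by
  obtain ⟨i, hi⟩ := hx
  obtain ⟨c, hc⟩ := isConj_iff.1 hi.symm
  rw [← hc, conj_pow, Y.cl.pow, mul_one, mul_inv_cancel]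

/-- the ramification of the induced homomorphism -/
theorem loc_tm (hS : LS Y φ₀ X r θ φ QK QF S0 SK bl) (hp : p.Prime) {Yv : ℝ}
    (hT : Tf QF S0 Y.cM bl (↑SK : Set (Pl K)) Yv θ) : Tm Y.C QK SK Yv φ := by
  obtain ⟨T, h1, hY, h2, h3, -⟩ := hT
  obtain ⟨T₁, hT₁⟩ : ∃ T₁, T₁ = T.filter fun w => bl w ∉ SK := ⟨_, rfl⟩
  refine ⟨T₁.image bl, fun v => (T.filter fun w => bl w = v).card, ?_, ?_, ?_, ?_⟩
  · intro v hv
    obtain ⟨w, hw, rfl⟩ := Finset.mem_image.1 hv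
    rw [hT₁] at hw
    exact (Finset.mem_filter.1 hw).2
  · -- the norm
    have e1 : ∏ v ∈ T₁.image bl, (nm v : ℝ) ^ (T.filter fun w => bl w = v).card =
        ∏ w ∈ T₁, (nm w : ℝ) := by
      rw [← Finset.prod_fiberwise_of_maps_to (s := T₁) (t := T₁.image bl) (g := bl)
        (fun w hw => Finset.mem_image_of_mem _ hw)]
      refine Finset.prod_congr rfl fun v hv => ?_
      have e2 : (T₁.filter fun w => bl w = v) = T.filter fun w => bl w = v := by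
        rw [hT₁]
        ext w
        rw [Finset.mem_filter, Finset.mem_filter, Finset.mem_filter]
        constructor
        · rintro ⟨⟨a, -⟩, b⟩
          exact ⟨a, b⟩
        · rintro ⟨a, b⟩
          refine ⟨⟨a, ?_⟩, b⟩
          obtain ⟨w', hw', hv'⟩ := Finset.mem_image.1 hv
          rw [hT₁] at hw'
          rw [b, ← hv']
          exact (Finset.mem_filter.1 hw').2
      rw [e2, ← Finset.prod_const]
      refine Finset.prod_congr rfl fun w hw => ?_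
      obtain ⟨hw1, hw2⟩ := Finset.mem_filter.1 hw
      rw [← hw2, ov_nm X.le (hS.hbl w) (h1 w hw1).2]
    rw [e1]
    refine le_trans ?_ hY
    unfold nr
    have h6 : ∏ w ∈ T₁, nm w ≤ ∏ w ∈ T, nm w := by
      refine Finset.prod_le_prod_of_subset_of_one_le' ?_ fun w _ _ => (one_lt_nm w).le
      rw [hT₁]
      exact Finset.filter_subset _ _
    exact_mod_cast h6
  · intro v hv
    have hvS : v ∉ SK := by
      obtain ⟨w, hw, rfl⟩ := Finset.mem_image.1 hv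
      rw [hT₁] at hw
      exact (Finset.mem_filter.1 hw).2
    obtain ⟨w, γ, hov, hγ, hinj, hval⟩ := lo_v hS hp h1 h2 h3 hvS
    -- the image of the inertia group is cyclic
    have hexp : ∀ τ ∈ (QK.P v).inertia Gal(QBar/K), φ τ ^ p = 1 := by
      intro τ hτ
      obtain ⟨f, hf, -, -, hf4⟩ := hval τ hτ
      rw [hf, ← map_pow]
      have h5 : f ^ p = 1 := by
        funext x
        apply Subtype.ext
        show ((f x : Y.D) ^ p : G) = 1
        rcases hf4 x with h6 | h6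
        · rw [h6]
          simp
        · exact C_pow h6
      rw [h5, map_one]
    have hpg : IsPGroup p (((QK.P v).inertia Gal(QBar/K)).map φ) := by
      rintro ⟨x, hx⟩
      obtain ⟨σ, hσ, rfl⟩ := Subgroup.mem_map.1 hx
      exact ⟨1, Subtype.ext (by
        show φ σ ^ p ^ 1 = 1
        rw [pow_one]
        exact hexp σ hσ)⟩
    have : Fact p.Prime := ⟨hp⟩
    obtain ⟨n, hn⟩ := IsPGroup.iff_card.1 hpg
    have hc : ((Nat.card (((QK.P v).inertia Gal(QBar/K)).map φ) : ℕ) : 𝓞 K) ∉ v.asIdeal := by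
      rw [hn, Nat.cast_pow]
      intro h
      exact hS.np v hvS (v.isPrime.mem_of_pow_mem n h)
    obtain ⟨τ₀, hτ₀, hcyc⟩ := H38.BG.cyc v (QK.P v) (QK.prime v) (QK.under v) φ hS.ft hc
    obtain ⟨f, hf, -, hf3, hf4⟩ := hval τ₀ hτ₀
    refine ⟨φ τ₀, ?_, hcyc⟩
    obtain ⟨s, hs⟩ : ∃ s : Finset Y.XX, s = Finset.univ.filter fun x => f x ≠ 1 := ⟨_, rfl⟩
    have hs1 : ∀ x, x ∉ s → f x = 1 := by
      intro x hx
      by_contra h
      exact hx (by rw [hs]; exact Finset.mem_filter.2 ⟨Finset.mem_univ _, h⟩)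
    have hs2 : ∀ x ∈ s, f x ≠ 1 := fun x hx => by
      rw [hs] at hx
      exact (Finset.mem_filter.1 hx).2
    refine ⟨s.toList.map fun x => Y.rp x * (f x : G) * (Y.rp x)⁻¹, ?_, ?_, ?_, ?_⟩
    · rw [List.length_map, Finset.length_toList]
      refine Finset.card_le_card_of_injOn w (fun x hx => ?_) fun x hx y hy hxy => ?_
      · have hxT : w x ∈ T := by
          by_contra h
          exact hs2 x hx (hf3 x h)
        refine Finset.mem_filter.2 ⟨hxT, ?_⟩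
        exact ov_un X.le (hS.hbl (w x)) (hov x)
      · have hxT : w x ∈ T := by
          by_contra h
          exact hs2 x hx (hf3 x h)
        exact hinj x y hxT hxy
    · intro y hy
      obtain ⟨x, hx, rfl⟩ := List.mem_map.1 hy
      rcases hf4 x with h6 | ⟨i, hi⟩
      · exact absurd h6 (hs2 x (Finset.mem_toList.1 hx))
      · exact ⟨i, IsConj.trans (isConj_iff.2 ⟨Y.rp x, rfl⟩ : IsConj (f x : G) _).symm hi⟩
    · intro y hy z hz
      obtain ⟨x, hx, rfl⟩ := List.mem_map.1 hy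
      obtain ⟨x', hx', rfl⟩ := List.mem_map.1 hz
      by_cases hxx : x = x'
      · rw [hxx]
      · exact Y.com2 (Y.rp_ne hxx) (f x).2 (f x').2
    · rw [io_list f s hs1, hf]
  · intro v hv hvT τ hτ
    obtain ⟨w, γ, hov, hγ, hinj, hval⟩ := lo_v hS hp h1 h2 h3 hv
    obtain ⟨f, hf, -, hf3, -⟩ := hval τ hτ
    have h5 : f = 1 := by
      funext x
      refine hf3 x fun hx => hvT ?_
      have h6 : bl (w x) = v := ov_un X.le (hS.hbl (w x)) (hov x)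
      rw [← h6]
      refine Finset.mem_image_of_mem _ ?_
      rw [hT₁]
      exact Finset.mem_filter.2 ⟨hx, by rw [h6]; exact hv⟩
    rw [hf, h5, map_one]

/-- the elements for the surjectivity -/
theorem loc_c (hS : LS Y φ₀ X r θ φ QK QF S0 SK bl) (hp : p.Prime) {Yv : ℝ}
    (hT : Tf QF S0 Y.cM bl (↑SK : Set (Pl K)) Yv θ) (i : Fin N) :
    ∃ g c : G, c ∈ Y.D ∧ IsConj c (Y.cl.g i) ∧ g * c * g⁻¹ ∈ φ.range := by
  obtain ⟨T, h1, hY, h2, h3, h4⟩ := hT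
  obtain ⟨w₀, hw₀T, hw₀, huni, x', hx', hx''⟩ := h4 i
  obtain ⟨v, hvd⟩ : ∃ v, v = bl w₀ := ⟨_, rfl⟩
  have hv : v ∉ SK := by
    rw [hvd]
    exact hw₀
  have hovv : ov v w₀ := by
    rw [hvd]
    exact hS.hbl w₀
  obtain ⟨w, γ, hov, hγ, hinj, hval⟩ := lo_v hS hp h1 h2 h3 hv
  -- the coset of `w₀`
  obtain ⟨x, hx⟩ : ∃ x, w x = w₀ := by
    have hu : (QF.P w₀).under (𝓞 K) = v.asIdeal := by
      obtain ⟨𝔔, h5, h6, h7⟩ := hovv
      rw [← h6]
      exact ov_under X.le ((QF.under w₀).trans h7.symm)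
    obtain ⟨δ, hδ⟩ := cjI_ex (K := K) (QK.prime v) (QF.prime w₀) (QK.under v) hu
    obtain ⟨x, hx⟩ : ∃ x : Y.XX, (φ₀ δ)⁻¹ • (QuotientGroup.mk 1 : Y.XX) = x := ⟨_, rfl⟩
    refine ⟨x, ?_⟩
    have h8 : δ * r x ∈ X.j.range := by
      rw [X.rng]
      show φ₀ (δ * r x) ∈ Y.M
      rw [map_mul, hS.hr]
      have h9 : (QuotientGroup.mk ((φ₀ δ)⁻¹) : Y.XX) = QuotientGroup.mk (Y.rp x) := by
        rw [Y.rp_mk, ← hx]
        show _ = (QuotientGroup.mk ((φ₀ δ)⁻¹ * 1) : Y.XX)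
        rw [mul_one]
      have h10 := QuotientGroup.eq.1 h9
      rwa [inv_inv] at h10
    obtain ⟨h, hh⟩ := h8
    -- `(r x)⁻¹ 𝔓 = (j h)⁻¹ (QF.P w₀)`
    have h11 : cjI (r x)⁻¹ (QK.P v) = cjI h⁻¹ (QF.P w₀) := by
      rw [← cjI_j X, map_inv, hh, hδ, ← cjI_mul]
      congr 1
      group
    have h12 : (cjI (r x)⁻¹ (QK.P v)).under (𝓞 F) = w₀.asIdeal := by
      rw [h11, cjI_under]
      exact QF.under w₀
    have h13 : (cjI (r x)⁻¹ (QK.P v)).under (𝓞 F) = (w x).asIdeal := by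
      rw [hγ x, cjI_under]
      exact QF.under (w x)
    exact HeightOneSpectrum.ext (h13.symm.trans h12)
  -- the element of the inertia group
  obtain ⟨τ', hτ', hτx⟩ : x' ∈ ((QF.P w₀).inertia Gal(QBar/F)).map θ := by
    rw [hx'']
    exact Subgroup.mem_zpowers x'
  obtain ⟨h, hh⟩ : ∃ h, h = γ x * τ' * (γ x)⁻¹ := ⟨_, rfl⟩
  obtain ⟨τ, hτ⟩ : ∃ τ, τ = r x * X.j h * (r x)⁻¹ := ⟨_, rfl⟩
  have hτi : τ ∈ (QK.P v).inertia Gal(QBar/K) := by
    rw [hτ]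
    refine (lo1 φ₀ X r x QF (hγ x) h).2 ?_
    rw [hx, hh]
    have e : (γ x)⁻¹ * (γ x * τ' * (γ x)⁻¹) * γ x = τ' := by group
    rw [e]
    exact hτ'
  obtain ⟨f, hf, hf2, hf3, -⟩ := hval τ hτi
  have h5 : (f x : G) = θ h := by
    refine hf2 x h ?_
    rw [hτ]
    group
  have h6 : ∀ y, y ≠ x → f y = 1 := by
    intro y hy
    refine hf3 y fun hyT => hy ?_
    have h7 : bl (w y) = bl w₀ := by
      rw [← hvd]
      exact ov_un X.le (hS.hbl (w y)) (hov y)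
    have h8 := huni (w y) hyT h7
    refine (hinj x y (by rw [hx]; exact hw₀T) (by rw [hx, h8])).symm
  have h7 : f = Pi.mulSingle x (f x) := by
    funext y
    by_cases hy : y = x
    · subst hy
      rw [Pi.mulSingle_eq_same]
    · rw [Pi.mulSingle_eq_of_ne hy, h6 y hy]
  refine ⟨Y.rp x, f x, (f x).2, ?_, τ, ?_⟩
  · rw [h5, hh, map_mul, map_mul, map_inv, hτx]
    have h8 : IsConj (x' : G) (Y.cl.g i) := by
      obtain ⟨c, hc⟩ := isConj_iff.1 hx'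
      exact isConj_iff.2 ⟨c, congrArg Subtype.val hc⟩
    refine IsConj.trans ?_ h8
    exact (isConj_iff.2 ⟨(θ (γ x) : G), rfl⟩ : IsConj (x' : G) _).symm
  · rw [hf, h7, Y.io_single, Pi.mulSingle_eq_same]

/-- trivial decomposition groups -/
theorem loc_s (hS : LS Y φ₀ X r θ φ QK QF S0 SK bl) {v : Pl K}
    (h0 : ∀ σ ∈ dec (K := K) (QK.P v), φ₀ σ = 1)
    (h1 : ∀ w, ov v w → ∀ σ ∈ dec (K := F) (QF.P w), θ σ = 1) :
    ∀ σ ∈ dec (K := K) (QK.P v), φ σ = 1 := by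
  intro σ hσ
  obtain ⟨f, hf, hf'⟩ := lo2 hS.hI σ (h0 σ hσ)
  have h5 : f = 1 := by
    funext x
    obtain ⟨w, γ, hw, hov, hγ⟩ := lo_w QF r (QK.prime v) (QK.under v) x
    obtain ⟨h, hh, -⟩ := lo_h φ₀ X r x σ (h0 σ hσ)
    apply Subtype.ext
    rw [hf' x h hh]
    have h6 : γ⁻¹ * h * γ ∈ dec (K := F) (QF.P w) := by
      refine (lo1d φ₀ X r x QF hγ h).1 ?_
      rw [hh]
      have e : r x * ((r x)⁻¹ * σ * r x) * (r x)⁻¹ = σ := by group
      rw [e]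
      exact hσ
    have h7 := h1 w hov _ h6
    rw [map_mul, map_mul, map_inv] at h7
    have h8 : θ h = 1 := by
      have h9 : θ h = θ γ * ((θ γ)⁻¹ * θ h * θ γ) * (θ γ)⁻¹ := by group
      rw [h9, h7, mul_one, mul_inv_cancel]
    rw [h8]
    rfl
  rw [hf, h5, map_one]

end H88.LH
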