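import Pool.Agent.H88.LH.Cjp
import Pool.Agent.H63.MC.CLkC
import Pool.Agent.H38.ML.Factor

/-!
# [H88 LH RES] MP_b39724_nt, theorem LH: the field `F` of an open subgroup `Γ'` of `Gal(QBar/K)`, its places

* `fe_ex`: `F` exists. Proof: `F₁ = IntermediateField.fixedField Γ' : IntermediateField K QBar` is contained in `E` (`fixedField_fixingSubgroup` for `E`, `h`), so it is finite over `K`; `Γ'` is open (it contains
  `E.fixingSubgroup`), so closed, and `F₁.fixingSubgroup = Γ'` (`InfiniteGalois.fixingSubgroup_fixedField`). `F = F₁.restrictScalars ℚ` (or the image), `j σ` = the same automorphism.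
* `fe_ft`: `φ ∘ j` is of finite type. `fe_in`, `fe_dec`: inertia and decomposition groups.
* `ov_ex`, `ov_un`, `ov_pr`: existence and uniqueness of the place below, existence of the place of `F` under a prime of `𝓞 QBar`. `ov_fin`: finitely many places over `v`, at most `Nat.card (Gal/Γ')`.
* `ov_nm`: if `nm w` is prime then `nm v = nm w` (the residue field of `v` embeds in that of `w`).
-/

set_option autoImplicit false

open scoped NumberField Pointwise
open IsDedekindDomain H38.ML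
open scoped Classical

noncomputable section

namespace H88.LH

open H63.MA

variable {K F : IntermediateField ℚ QBar} [NumberField K] [NumberField F]
  {Γ' : Subgroup Gal(QBar/K)}

/-- automorphisms over `F` as automorphisms over `K` -/
private def jh {K F : IntermediateField ℚ QBar} (h : K ≤ F) : Gal(QBar/F) →* Gal(QBar/K) where
  toFun σ := AlgEquiv.ofRingEquiv (f := σ.toRingEquiv) (fun k => σ.commutes ⟨(k : QBar), h k.2⟩)
  map_one' := by
    ext x
    rfl
  map_mul' σ τ := by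
    ext x
    rfl

private theorem jh_act {K F : IntermediateField ℚ QBar} (h : K ≤ F) (σ : Gal(QBar/F))
    (x : QBar) : jh h σ x = σ x := rfl

theorem fe_ex (K : IntermediateField ℚ QBar) [NumberField K] (Γ' : Subgroup Gal(QBar/K))
    (E : IntermediateField K QBar) [FiniteDimensional K E] (h : E.fixingSubgroup ≤ Γ') :
    ∃ (F : IntermediateField ℚ QBar) (_ : NumberField F), Nonempty (FE K F Γ') := by
  obtain ⟨h1, h2⟩ := H38.ML.fixing_fixedField Γ' E h
  obtain ⟨F₁, hF₁⟩ : ∃ F₁ : IntermediateField K QBar, F₁ = IntermediateField.fixedField Γ' :=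
    ⟨_, rfl⟩
  rw [← hF₁] at h1 h2
  have := h2
  have hfd : FiniteDimensional ℚ (F₁.restrictScalars ℚ) := by
    have h3 : FiniteDimensional ℚ F₁ := FiniteDimensional.trans ℚ K F₁
    exact h3
  have hnf : NumberField (F₁.restrictScalars ℚ) := H38.ML.numberField_of_finite _
  have hle : K ≤ F₁.restrictScalars ℚ := by
    intro x hx
    exact F₁.algebraMap_mem ⟨x, hx⟩
  refine ⟨F₁.restrictScalars ℚ, hnf, ⟨⟨jh hle, ?_, jh_act hle, ?_, hle⟩⟩⟩
  · intro σ τ hστ
    ext x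
    exact DFunLike.congr_fun hστ x
  · ext τ
    constructor
    · rintro ⟨σ, rfl⟩
      rw [← h1, IntermediateField.mem_fixingSubgroup_iff]
      intro x hx
      exact σ.commutes (⟨x, hx⟩ : F₁.restrictScalars ℚ)
    · intro hτ
      rw [← h1, IntermediateField.mem_fixingSubgroup_iff] at hτ
      refine ⟨AlgEquiv.ofRingEquiv (f := τ.toRingEquiv) (fun k => hτ k k.2), ?_⟩
      ext x
      rfl

theorem fe_ft (X : FE K F Γ') {H : Type} [Group H] (φ : Gal(QBar/K) →* H) (hφ : FT φ) :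
    FT (φ.comp X.j) := by
  obtain ⟨E, hE, hle⟩ := hφ
  have := hE
  let b := Module.finBasis K E
  have hfin : Finite (Set.range fun i => ((b i : E) : QBar)) := Set.finite_range _
  refine ⟨IntermediateField.adjoin F (Set.range fun i => ((b i : E) : QBar)), ?_, ?_⟩
  · exact IntermediateField.finiteDimensional_adjoin fun x _ =>
      (IsAlgClosure.isAlgebraic (R := F) (K := QBar)).isAlgebraic x |>.isIntegral
  · intro σ hσ
    rw [MonoidHom.mem_ker, MonoidHom.comp_apply]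
    refine hle ?_
    rw [IntermediateField.mem_fixingSubgroup_iff] at hσ ⊢
    have h1 : ∀ i, X.j σ ((b i : E) : QBar) = ((b i : E) : QBar) := by
      intro i
      rw [X.act]
      exact hσ _ (IntermediateField.subset_adjoin _ _ ⟨i, rfl⟩)
    intro x hx
    have h2 := congrArg (fun y : E => (y : QBar)) (b.sum_repr ⟨x, hx⟩)
    have h3 : x = ∑ i, algebraMap K QBar (b.repr ⟨x, hx⟩ i) * ((b i : E) : QBar) := by
      refine Eq.trans h2.symm ?_
      push_cast
      rfl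
    rw [h3, map_sum]
    refine Finset.sum_congr rfl fun i _ => ?_
    rw [map_mul, AlgEquiv.commutes, h1]

omit [NumberField K] [NumberField F] in
/-- the actions on integers agree -/
private theorem fe_smul (X : FE K F Γ') (σ : Gal(QBar/F)) (x : 𝓞 QBar) : X.j σ • x = σ • x :=
  NumberField.RingOfIntegers.ext (X.act σ x)

theorem fe_in (X : FE K F Γ') (𝔓 : Ideal (𝓞 QBar)) (σ : Gal(QBar/F)) :
    X.j σ ∈ 𝔓.inertia Gal(QBar/K) ↔ σ ∈ 𝔓.inertia Gal(QBar/F) := by
  constructor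
  · intro h x
    have h1 := h x
    rw [fe_smul] at h1
    exact h1
  · intro h x
    rw [fe_smul]
    exact h x

theorem fe_dec (X : FE K F Γ') (𝔓 : Ideal (𝓞 QBar)) (σ : Gal(QBar/F)) :
    X.j σ ∈ dec (K := K) 𝔓 ↔ σ ∈ dec (K := F) 𝔓 := by
  constructor
  · intro h x
    have h1 := h x
    rw [fe_smul] at h1
    exact h1
  · intro h x
    rw [fe_smul]
    exact h x

/-- the inclusion of the rings of integers -/
private def io {K F : IntermediateField ℚ QBar} (h : K ≤ F) : 𝓞 K →+* 𝓞 F :=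
  NumberField.RingOfIntegers.mapRingHom (IntermediateField.inclusion h)

private theorem io_alg {K F : IntermediateField ℚ QBar} (h : K ≤ F) (x : 𝓞 K) :
    algebraMap (𝓞 F) (𝓞 QBar) (io h x) = algebraMap (𝓞 K) (𝓞 QBar) x :=
  NumberField.RingOfIntegers.ext rfl

private theorem io_under {K F : IntermediateField ℚ QBar} (h : K ≤ F) (𝔓 : Ideal (𝓞 QBar)) :
    𝔓.under (𝓞 K) = (𝔓.under (𝓞 F)).comap (io h) := by
  ext x
  rw [Ideal.mem_comap, Ideal.mem_comap, Ideal.mem_comap, io_alg]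

omit [NumberField K] [NumberField F] in
/-- primes of `𝓞 QBar` with the same contraction to `F` have the same contraction to `K` -/
theorem ov_under (h : K ≤ F) {𝔓 𝔓' : Ideal (𝓞 QBar)} (h1 : 𝔓.under (𝓞 F) = 𝔓'.under (𝓞 F)) :
    𝔓.under (𝓞 K) = 𝔓'.under (𝓞 K) := by
  rw [io_under h, io_under h, h1]

omit [NumberField K] [NumberField F] in
/-- a prime over a place of one field is over a place of the other -/
private theorem pl_ex (F : IntermediateField ℚ QBar) [NumberField F] {𝔓 : Ideal (𝓞 QBar)}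
    (h𝔓 : 𝔓.IsPrime) {m : ℕ} (hm : m ≠ 0) (h : (m : 𝓞 QBar) ∈ 𝔓) :
    ∃ w : Pl F, 𝔓.under (𝓞 F) = w.asIdeal := by
  have hp : (𝔓.under (𝓞 F)).IsPrime := Ideal.IsPrime.comap _
  refine ⟨⟨𝔓.under (𝓞 F), hp, ?_⟩, rfl⟩
  intro hb
  have h1 : (m : 𝓞 F) ∈ 𝔓.under (𝓞 F) := by
    rw [Ideal.mem_comap, map_natCast]
    exact h
  rw [hb, Ideal.mem_bot] at h1
  exact hm (Nat.cast_eq_zero.1 h1)

private theorem nm_mem {F : IntermediateField ℚ QBar} [NumberField F] {𝔓 : Ideal (𝓞 QBar)}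
    {w : Pl F} (h : 𝔓.under (𝓞 F) = w.asIdeal) : nm w ≠ 0 ∧ (nm w : 𝓞 QBar) ∈ 𝔓 := by
  refine ⟨(lt_trans Nat.zero_lt_one (one_lt_nm w)).ne', ?_⟩
  have h1 : (nm w : 𝓞 F) ∈ w.asIdeal := Ideal.absNorm_mem w.asIdeal
  rw [← h, Ideal.mem_comap, map_natCast] at h1
  exact h1

theorem ov_ex (h : K ≤ F) (w : Pl F) : ∃ v : Pl K, ov v w := by
  obtain ⟨Q⟩ := exists_DP F QBar
  obtain ⟨h1, h2⟩ := nm_mem (Q.under w)
  obtain ⟨v, hv⟩ := pl_ex K (Q.prime w) h1 h2
  exact ⟨v, Q.P w, Q.prime w, hv, Q.under w⟩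

theorem ov_un (h : K ≤ F) {v v' : Pl K} {w : Pl F} (h1 : ov v w) (h2 : ov v' w) : v = v' := by
  obtain ⟨𝔓, -, a1, a2⟩ := h1
  obtain ⟨𝔓', -, b1, b2⟩ := h2
  apply HeightOneSpectrum.ext
  rw [← a1, ← b1]
  exact ov_under h (a2.trans b2.symm)

/-- the place of `F` under a prime of `𝓞 QBar` -/
theorem ov_pr {𝔓 : Ideal (𝓞 QBar)} (h𝔓 : 𝔓.IsPrime) {v : Pl K} (h : 𝔓.under (𝓞 K) = v.asIdeal) :
    ∃ w : Pl F, 𝔓.under (𝓞 F) = w.asIdeal := by
  obtain ⟨h1, h2⟩ := nm_mem h
  exact pl_ex F h𝔓 h1 h2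

theorem ov_fin (X : FE K F Γ') [Finite (Gal(QBar/K) ⧸ Γ')] (v : Pl K) :
    {w : Pl F | ov v w}.Finite ∧ {w : Pl F | ov v w}.ncard ≤ Nat.card (Gal(QBar/K) ⧸ Γ') := by
  obtain ⟨Q⟩ := exists_DP K QBar
  have hex : ∀ c : Gal(QBar/K) ⧸ Γ', ∃ w : Pl F,
      (cjI (c.out)⁻¹ (Q.P v)).under (𝓞 F) = w.asIdeal := fun c =>
    ov_pr (cjI_prime _ (Q.prime v)) ((cjI_under _ _).trans (Q.under v))
  choose g hg using hex
  have hsub : {w : Pl F | ov v w} ⊆ g '' Set.univ := by
    rintro w ⟨𝔓, h1, h2, h3⟩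
    obtain ⟨γ, rfl⟩ := cjI_ex (Q.prime v) h1 (Q.under v) h2
    refine ⟨QuotientGroup.mk γ⁻¹, Set.mem_univ _, ?_⟩
    apply HeightOneSpectrum.ext
    rw [← hg, ← h3]
    obtain ⟨δ, hδ⟩ := QuotientGroup.mk_out_eq_mul Γ' (γ⁻¹)
    have h4 : (δ : Gal(QBar/K)) ∈ X.j.range := by
      rw [X.rng]
      exact δ.2
    obtain ⟨σ, hσ⟩ := h4
    ext x
    rw [Ideal.mem_comap, Ideal.mem_comap, mem_cjI, mem_cjI, inv_inv, hδ, mul_smul, ← hσ,
      fe_smul, smul_alg]
  exact ⟨(Set.toFinite _).subset hsub, (Set.ncard_le_ncard hsub (Set.toFinite _)).trans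
    ((Set.ncard_image_le (Set.toFinite _)).trans (Set.ncard_univ _).le)⟩

private theorem nm_dvd (h : K ≤ F) {v : Pl K} {w : Pl F} (h1 : ov v w) : nm v ∣ nm w := by
  obtain ⟨𝔓, -, a1, a2⟩ := h1
  have h2 : v.asIdeal = w.asIdeal.comap (io h) := by
    rw [← a1, ← a2]
    exact io_under h 𝔓
  have h3 : Function.Injective (Ideal.quotientMap w.asIdeal (io h) h2.le) :=
    Ideal.quotientMap_injective' h2.ge
  have h4 := AddSubgroup.card_dvd_of_injective
    (Ideal.quotientMap w.asIdeal (io h) h2.le).toAddMonoidHom h3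
  unfold nm
  rw [Ideal.absNorm_apply, Ideal.absNorm_apply, Submodule.cardQuot_apply,
    Submodule.cardQuot_apply]
  exact h4

theorem ov_nm (h : K ≤ F) {v : Pl K} {w : Pl F} (h1 : ov v w) (h2 : (nm w).Prime) :
    nm v = nm w := by
  rcases (Nat.dvd_prime h2).1 (nm_dvd h h1) with h3 | h3
  · exact absurd h3 (one_lt_nm v).ne'
  · exact h3

theorem ov_le (h : K ≤ F) {v : Pl K} {w : Pl F} (h1 : ov v w) : nm v ≤ nm w :=
  Nat.le_of_dvd (lt_trans Nat.zero_lt_one (one_lt_nm w)) (nm_dvd h h1)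

end H88.LH
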